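import Pool.Agent.Lib.MP_a2d8aa_co.AA.Hoeff

/-!
# Module AA-Anti1: a binomial variable is below its mean by `c √N` with probability `≥ c`

`J` a set of coordinates, `N = J.card`, `W = (∑_{i ∈ J} (x_i - p)) / √N`, `x_i = 1` if
`f i = true`, else `0`.  `Ex W = 0`, `Ex W² = p (1-p)`, `Ex W⁴ ≤ 48 e`; then Paley-Zygmund.
-/

set_option autoImplicit false

open scoped Classical

noncomputable section

namespace Pool.Agent.Lib.MP_a2d8aa_co.AA

theorem anti_four_le (y : ℝ) : y ^ 4 ≤ 24 * (Real.exp y + Real.exp (-y)) := by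
  have h := Real.pow_div_factorial_le_exp |y| (abs_nonneg y) 4
  have h4 : |y| ^ 4 = y ^ 4 := by
    have : |y| ^ 4 = (|y| ^ 2) ^ 2 := by ring
    rw [this, sq_abs]; ring
  rw [h4] at h
  have hf : ((Nat.factorial 4 : ℕ) : ℝ) = 24 := by norm_num [Nat.factorial]
  rw [hf, div_le_iff₀ (by norm_num)] at h
  have hmax : Real.exp |y| ≤ Real.exp y + Real.exp (-y) := by
    rcases abs_cases y with ⟨h1, _⟩ | ⟨h1, _⟩
    · rw [h1]; linarith [Real.exp_pos (-y)]
    · rw [h1]; linarith [Real.exp_pos y]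
  linarith

theorem anti_Ex_lin {I : Type*} [Fintype I] (p a b : ℝ) (F G : (I → Bool) → ℝ) :
    Ex p (fun f => a * F f + b * G f) = a * Ex p F + b * Ex p G := by
  rw [Ex_add p (fun f => a * F f) (fun f => b * G f), Ex_smul, Ex_smul]

/-- Paley-Zygmund with a fourth moment -/
theorem anti_pz {I : Type*} [Fintype I] {p : ℝ} (hp0 : 0 ≤ p) (hp1 : p ≤ 1) (W : (I → Bool) → ℝ)
    {v M B κ D : ℝ} (hv : 0 < v) (hM : 0 < M) (hB : B = 1 + 2 * M / v) (hκ : κ = v / (4 * B))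
    (hD : D = 1 + 4 * M / κ) (h1 : Ex p W = 0) (h2 : v ≤ Ex p (fun f => W f ^ 2))
    (h4 : Ex p (fun f => W f ^ 4) ≤ M) :
    κ / (2 * D) ≤ Pr p (fun f => W f ≤ -(κ / 4)) := by
  have hB1 : 1 ≤ B := by rw [hB]; have : 0 < 2 * M / v := by positivity
                         linarith
  have hB0 : 0 < B := by linarith
  have hκ0 : 0 < κ := by rw [hκ]; positivity
  have hD1 : 1 ≤ D := by rw [hD]; have : 0 < 4 * M / κ := by positivity
                         linarith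
  have hD0 : 0 < D := by linarith
  have hB2 : M / B ^ 2 ≤ v / 2 := by
    rw [div_le_iff₀ (by positivity)]
    have h5 : 2 * M / v ≤ B ^ 2 := by
      have : 2 * M / v ≤ B := by rw [hB]; linarith
      nlinarith
    have h6 : M = v / 2 * (2 * M / v) := by field_simp
    calc M = v / 2 * (2 * M / v) := h6
      _ ≤ v / 2 * B ^ 2 := by apply mul_le_mul_of_nonneg_left h5; positivity
  have hD3 : M / D ^ 3 ≤ κ / 4 := by
    rw [div_le_iff₀ (by positivity)]
    have h5 : 4 * M / κ ≤ D ^ 3 := by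
      have h7 : 4 * M / κ ≤ D := by rw [hD]; linarith
      have h8 : D ≤ D ^ 3 := by
        have : D ^ 1 ≤ D ^ 3 := pow_le_pow_right₀ hD1 (by norm_num)
        simpa using this
      linarith
    have h6 : M = κ / 4 * (4 * M / κ) := by field_simp
    calc M = κ / 4 * (4 * M / κ) := h6
      _ ≤ κ / 4 * D ^ 3 := by apply mul_le_mul_of_nonneg_left h5; positivity
  -- first: lower bound for Ex |W|
  have hE1 : Ex p (fun f => W f ^ 2) ≤ B * Ex p (fun f => |W f|) + (1 / B ^ 2) * Ex p (fun f => W f ^ 4) := by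
    rw [← anti_Ex_lin]
    apply Ex_mono hp0 hp1
    intro f
    have hsq : W f ^ 2 = |W f| ^ 2 := (sq_abs _).symm
    have hq : W f ^ 4 = |W f| ^ 4 := by
      have : |W f| ^ 4 = (|W f| ^ 2) ^ 2 := by ring
      rw [this, sq_abs]; ring
    rw [hsq, hq]
    have ha : 0 ≤ |W f| := abs_nonneg _
    rcases le_total (|W f|) B with hle | hle
    · have : |W f| ^ 2 ≤ B * |W f| := by nlinarith
      have h9 : 0 ≤ 1 / B ^ 2 * |W f| ^ 4 := by positivity
      linarith
    · have h9 : |W f| ^ 2 ≤ 1 / B ^ 2 * |W f| ^ 4 := by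
        rw [one_div, inv_mul_eq_div, le_div_iff₀ (by positivity)]
        have : B ^ 2 ≤ |W f| ^ 2 := by nlinarith
        nlinarith [sq_nonneg (|W f|)]
      have : 0 ≤ B * |W f| := by positivity
      linarith
  have hE2 : 2 * κ ≤ Ex p (fun f => |W f|) := by
    have h10 : (1 / B ^ 2) * Ex p (fun f => W f ^ 4) ≤ v / 2 := by
      calc (1 / B ^ 2) * Ex p (fun f => W f ^ 4) ≤ (1 / B ^ 2) * M := by
            apply mul_le_mul_of_nonneg_left h4; positivity
        _ = M / B ^ 2 := by ring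
        _ ≤ v / 2 := hB2
    have h11 : v / 2 ≤ B * Ex p (fun f => |W f|) := by linarith
    have h12 : 2 * κ = v / 2 / B := by rw [hκ]; field_simp; ring
    rw [h12, div_le_iff₀ hB0]
    linarith
  -- second
  have hE3 : Ex p (fun f => (1 / 2) * |W f| + (-(1 / 2)) * W f) ≤
      Ex p (fun f => κ / 4 + (D * (if W f ≤ -(κ / 4) then 1 else 0) + (1 / D ^ 3) * W f ^ 4)) := by
    apply Ex_mono hp0 hp1
    intro f
    have hq : W f ^ 4 = |W f| ^ 4 := by
      have : |W f| ^ 4 = (|W f| ^ 2) ^ 2 := by ring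
      rw [this, sq_abs]; ring
    have h9 : 0 ≤ 1 / D ^ 3 * W f ^ 4 := by rw [hq]; positivity
    split_ifs with hc
    · have hneg : W f ≤ 0 := by linarith
      have hab : |W f| = - W f := abs_of_nonpos hneg
      have hlhs : (1 / 2) * |W f| + (-(1 / 2)) * W f = |W f| := by rw [hab]; ring
      rw [hlhs]
      rcases le_total (|W f|) D with hle | hle
      · linarith
      · have h13 : |W f| ≤ 1 / D ^ 3 * W f ^ 4 := by
          rw [hq, one_div, inv_mul_eq_div, le_div_iff₀ (by positivity)]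
          have h14 : D ^ 3 ≤ |W f| ^ 3 := pow_le_pow_left₀ hD0.le hle 3
          have h15 : 0 ≤ |W f| := abs_nonneg _
          calc |W f| * D ^ 3 ≤ |W f| * |W f| ^ 3 := mul_le_mul_of_nonneg_left h14 h15
            _ = |W f| ^ 4 := by ring
        linarith
    · push Not at hc
      rcases le_total 0 (W f) with hw | hw
      · rw [abs_of_nonneg hw]
        linarith
      · rw [abs_of_nonpos hw]
        linarith
  rw [anti_Ex_lin, h1] at hE3
  rw [Ex_add p (fun _ => κ / 4) (fun f => D * (if W f ≤ -(κ / 4) then 1 else 0) + (1 / D ^ 3) * W f ^ 4),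
    Ex_const, anti_Ex_lin] at hE3
  have hPr : Pr p (fun f => W f ≤ -(κ / 4)) = Ex p (fun f => if W f ≤ -(κ / 4) then 1 else 0) := rfl
  rw [← hPr] at hE3
  have h16 : (1 / D ^ 3) * Ex p (fun f => W f ^ 4) ≤ κ / 4 := by
    calc (1 / D ^ 3) * Ex p (fun f => W f ^ 4) ≤ (1 / D ^ 3) * M := by
          apply mul_le_mul_of_nonneg_left h4; positivity
      _ = M / D ^ 3 := by ring
      _ ≤ κ / 4 := hD3
  rw [div_le_iff₀ (by positivity)]
  linarith

/-- the centred coordinate -/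
def anZ {I : Type*} (p : ℝ) (i : I) (f : I → Bool) : ℝ := (if f i = true then 1 else 0) - p

theorem anZ_abs {I : Type*} {p : ℝ} (hp0 : 0 ≤ p) (hp1 : p ≤ 1) (i : I) (f : I → Bool) :
    |anZ p i f| ≤ 1 := by
  unfold anZ
  rw [abs_le]
  split_ifs <;> constructor <;> linarith

theorem anZ_dep {I : Type*} (p : ℝ) (i : I) : DepOn {i} (anZ p i) := by
  intro f g h
  unfold anZ
  rw [h i (Finset.mem_singleton_self i)]

theorem anZ_ex {I : Type*} [Fintype I] (p : ℝ) (i : I) : Ex p (anZ p i) = 0 := by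
  have h : Ex p (anZ p i) = Ex p (fun f : I → Bool => 1 * (if f i = true then (1 : ℝ) else 0) +
      (-p) * 1) := by
    congr 1
    funext f
    unfold anZ
    ring
  rw [h, anti_Ex_lin p 1 (-p) (fun f : I → Bool => if f i = true then (1 : ℝ) else 0) (fun _ => 1),
    Ex_coord, Ex_const]
  ring

theorem anZ_sq {I : Type*} [Fintype I] (p : ℝ) (i : I) :
    Ex p (fun f => anZ p i f * anZ p i f) = p * (1 - p) := by
  have h : (fun f : I → Bool => anZ p i f * anZ p i f) =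
      (fun f : I → Bool => (1 - 2 * p) * (if f i = true then (1 : ℝ) else 0) + (p ^ 2) * 1) := by
    funext f
    unfold anZ
    split_ifs <;> ring
  rw [h, anti_Ex_lin p (1 - 2 * p) (p ^ 2) (fun f : I → Bool => if f i = true then (1 : ℝ) else 0)
    (fun _ => 1), Ex_coord, Ex_const]
  ring

theorem anZ_mul {I : Type*} [Fintype I] (p : ℝ) {i j : I} (hij : i ≠ j) :
    Ex p (fun f => anZ p i f * anZ p j f) = 0 := by
  rw [Ex_mul_of_dep p (J := {i}) (J' := {j}) (by simpa using hij) (anZ_dep p i) (anZ_dep p j),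
    anZ_ex, zero_mul]

theorem anZ_sum_sq {I : Type*} [Fintype I] (p : ℝ) (J : Finset I) :
    Ex p (fun f => (∑ i ∈ J, anZ p i f) ^ 2) = p * (1 - p) * (J.card : ℝ) := by
  have h : (fun f : I → Bool => (∑ i ∈ J, anZ p i f) ^ 2) =
      (fun f => ∑ i ∈ J, ∑ j ∈ J, anZ p i f * anZ p j f) := by
    funext f
    rw [sq, Finset.sum_mul_sum]
  rw [h, Ex_sum p J (fun i f => ∑ j ∈ J, anZ p i f * anZ p j f)]
  have h2 : ∀ i ∈ J, Ex p (fun f => ∑ j ∈ J, anZ p i f * anZ p j f) = p * (1 - p) := by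
    intro i hi
    rw [Ex_sum p J (fun j f => anZ p i f * anZ p j f)]
    rw [Finset.sum_eq_single i]
    · exact anZ_sq p i
    · intro j _ hj
      exact anZ_mul p hj.symm
    · intro hni; exact absurd hi hni
  rw [Finset.sum_congr rfl h2, Finset.sum_const, nsmul_eq_mul]
  ring

theorem anZ_sum_four {I : Type*} [Fintype I] {p : ℝ} (hp0 : 0 ≤ p) (hp1 : p ≤ 1) (J : Finset I)
    (hJ : 1 ≤ J.card) :
    Ex p (fun f => ((∑ i ∈ J, anZ p i f) / Real.sqrt (J.card : ℝ)) ^ 4) ≤ 48 * Real.exp 1 := by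
  have hN : (1 : ℝ) ≤ (J.card : ℝ) := by exact_mod_cast hJ
  set s := Real.sqrt (J.card : ℝ) with hs
  have hs1 : 1 ≤ s := by rw [hs]; exact Real.one_le_sqrt.mpr hN
  have hs0 : 0 < s := by linarith
  have hss : s ^ 2 = (J.card : ℝ) := Real.sq_sqrt (by linarith)
  have hpd : ((J : Set I)).PairwiseDisjoint (fun i : I => ({i} : Finset I)) := by
    intro a _ b _ hab
    simpa [Function.onFun] using hab
  have hb : ∀ l : ℝ, |l| ≤ 1 → l ^ 2 * (J.card : ℝ) = 1 →
      Ex p (fun f => Real.exp (l * ∑ i ∈ J, anZ p i f)) ≤ Real.exp 1 := by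
    intro l hl hl2
    have := exp_bound hp0 hp1 J (fun i => {i}) hpd (anZ p) (fun i _ => anZ_dep p i)
      (fun i _ f => anZ_abs hp0 hp1 i f) (fun i _ => anZ_ex p i) hl
    rw [hl2] at this
    exact this
  have habs : |s⁻¹| ≤ 1 := by
    rw [abs_of_pos (by positivity)]
    exact inv_le_one_of_one_le₀ hs1
  have hl2 : (s⁻¹) ^ 2 * (J.card : ℝ) = 1 := by
    rw [← hss]; field_simp
  have h1 := hb s⁻¹ habs hl2
  have h2 := hb (-s⁻¹) (by rw [abs_neg]; exact habs) (by rw [neg_sq]; exact hl2)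
  calc Ex p (fun f => ((∑ i ∈ J, anZ p i f) / s) ^ 4)
      ≤ Ex p (fun f => 24 * Real.exp (s⁻¹ * ∑ i ∈ J, anZ p i f) +
          24 * Real.exp (-s⁻¹ * ∑ i ∈ J, anZ p i f)) := by
        apply Ex_mono hp0 hp1
        intro f
        have h3 := anti_four_le ((∑ i ∈ J, anZ p i f) / s)
        have h4 : (∑ i ∈ J, anZ p i f) / s = s⁻¹ * ∑ i ∈ J, anZ p i f := by
          rw [div_eq_inv_mul]
        have h5 : -((∑ i ∈ J, anZ p i f) / s) = -s⁻¹ * ∑ i ∈ J, anZ p i f := by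
          rw [h4]; ring
        rw [h5] at h3
        rw [← h4]
        linarith
    _ = 24 * Ex p (fun f => Real.exp (s⁻¹ * ∑ i ∈ J, anZ p i f)) +
          24 * Ex p (fun f => Real.exp (-s⁻¹ * ∑ i ∈ J, anZ p i f)) :=
        anti_Ex_lin p 24 24 (fun f => Real.exp (s⁻¹ * ∑ i ∈ J, anZ p i f))
          (fun f => Real.exp (-s⁻¹ * ∑ i ∈ J, anZ p i f))
    _ ≤ 48 * Real.exp 1 := by linarith

theorem anZ_sum_eq {I : Type*} (p : ℝ) (J : Finset I) (f : I → Bool) :
    ∑ i ∈ J, anZ p i f = ((J.filter (fun i => f i = true)).card : ℝ) - p * (J.card : ℝ) := by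
  unfold anZ
  rw [Finset.sum_sub_distrib, Finset.sum_const, nsmul_eq_mul, Finset.sum_boole]
  ring

theorem anti_one (p : ℝ) (hp0 : 0 < p) (hp1 : p < 1) :
    ∃ c : ℝ, 0 < c ∧ ∀ (I : Type) [Fintype I] (J : Finset I), 1 ≤ J.card →
      c ≤ Pr p (fun f : I → Bool => ((J.filter (fun i => f i = true)).card : ℝ) ≤
        p * (J.card : ℝ) - c * Real.sqrt (J.card : ℝ)) := by
  have hv : 0 < p * (1 - p) := mul_pos hp0 (by linarith)
  have hM : 0 < 48 * Real.exp 1 := by positivity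
  obtain ⟨B, hB⟩ : ∃ B : ℝ, B = 1 + 2 * (48 * Real.exp 1) / (p * (1 - p)) := ⟨_, rfl⟩
  obtain ⟨κ, hκ⟩ : ∃ κ : ℝ, κ = p * (1 - p) / (4 * B) := ⟨_, rfl⟩
  obtain ⟨D, hD⟩ : ∃ D : ℝ, D = 1 + 4 * (48 * Real.exp 1) / κ := ⟨_, rfl⟩
  have hB0 : 0 < B := by rw [hB]; positivity
  have hκ0 : 0 < κ := by rw [hκ]; positivity
  have hD0 : 0 < D := by rw [hD]; positivity
  refine ⟨min (κ / 4) (κ / (2 * D)), lt_min (by positivity) (by positivity), ?_⟩
  intro I _ J hJ
  have hN : (1 : ℝ) ≤ (J.card : ℝ) := by exact_mod_cast hJ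
  obtain ⟨s, hs⟩ : ∃ s : ℝ, s = Real.sqrt (J.card : ℝ) := ⟨_, rfl⟩
  have hs1 : 1 ≤ s := by rw [hs]; exact Real.one_le_sqrt.mpr hN
  have hs0 : 0 < s := by linarith
  have hss : s ^ 2 = (J.card : ℝ) := by rw [hs]; exact Real.sq_sqrt (by linarith)
  have h1 : Ex p (fun f : I → Bool => (∑ i ∈ J, anZ p i f) / s) = 0 := by
    have e : (fun f : I → Bool => (∑ i ∈ J, anZ p i f) / s) =
        (fun f => s⁻¹ * ∑ i ∈ J, anZ p i f) := by funext f; rw [div_eq_inv_mul]
    rw [e, Ex_smul p s⁻¹ (fun f => ∑ i ∈ J, anZ p i f), Ex_sum p J (fun i f => anZ p i f)]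
    rw [Finset.sum_eq_zero (fun i _ => anZ_ex p i), mul_zero]
  have h2 : p * (1 - p) ≤ Ex p (fun f : I → Bool => ((∑ i ∈ J, anZ p i f) / s) ^ 2) := by
    have e : (fun f : I → Bool => ((∑ i ∈ J, anZ p i f) / s) ^ 2) =
        (fun f => (s ^ 2)⁻¹ * (∑ i ∈ J, anZ p i f) ^ 2) := by
      funext f; rw [div_pow, div_eq_inv_mul]
    rw [e, Ex_smul p (s ^ 2)⁻¹ (fun f => (∑ i ∈ J, anZ p i f) ^ 2), anZ_sum_sq, ← hss]
    apply le_of_eq
    field_simp
  have h4 : Ex p (fun f : I → Bool => ((∑ i ∈ J, anZ p i f) / s) ^ 4) ≤ 48 * Real.exp 1 := by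
    rw [hs]; exact anZ_sum_four hp0.le hp1.le J hJ
  have hpz := anti_pz hp0.le hp1.le (fun f : I → Bool => (∑ i ∈ J, anZ p i f) / s) hv hM hB hκ hD
    h1 h2 h4
  refine le_trans (min_le_right _ _) (le_trans hpz ?_)
  apply Pr_mono hp0.le hp1.le
  intro f hf
  rw [div_le_iff₀ hs0, anZ_sum_eq] at hf
  rw [← hs]
  have h5 : min (κ / 4) (κ / (2 * D)) * s ≤ κ / 4 * s :=
    mul_le_mul_of_nonneg_right (min_le_left _ _) hs0.le
  linarith

end Pool.Agent.Lib.MP_a2d8aa_co.AA
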