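import Pool.Agent.Lib.MP_a2d8aa_co.AA.Anti1

/-!
# Module AA-Anti2: the same at distance `C √N` for every `C`
-/

set_option autoImplicit false

open scoped Classical

noncomputable section

namespace Pool.Agent.Lib.MP_a2d8aa_co.AA

theorem anti_and {I : Type*} [Fintype I] (p : ℝ) {T T' : Finset I} (hd : Disjoint T T')
    (A B : (I → Bool) → Prop) (hA : DepOn T A) (hB : DepOn T' B) :
    Pr p (fun f => A f ∧ B f) = Pr p A * Pr p B := by
  have h := Ex_mul_of_dep p (F := fun f => if A f then (1 : ℝ) else 0)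
    (G := fun f => if B f then (1 : ℝ) else 0) hd
    (fun f g hfg => by
      have := hA f g hfg
      simp only [this])
    (fun f g hfg => by
      have := hB f g hfg
      simp only [this])
  unfold Pr
  rw [← h]
  congr 1
  funext f
  by_cases h1 : A f <;> by_cases h2 : B f <;> simp [h1, h2]

theorem anti_true {I : Type*} [Fintype I] (p : ℝ) (A : (I → Bool) → Prop) (hA : ∀ f, A f) :
    Pr p A = 1 := by
  unfold Pr
  have : (fun f => if A f then (1 : ℝ) else 0) = (fun _ => 1) := by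
    funext f
    rw [if_pos (hA f)]
  rw [this, Ex_const]

theorem anti_dep {I : Type*} (T : Finset I) (x : ℝ) :
    DepOn T (fun f : I → Bool => ((T.filter (fun i => f i = true)).card : ℝ) ≤ x) := by
  intro f g h
  have : T.filter (fun i => f i = true) = T.filter (fun i => g i = true) := by
    apply Finset.filter_congr
    intro i hi
    rw [h i hi]
  dsimp only
  rw [this]

theorem anti_blocks {p c : ℝ} (hp0 : 0 < p) (hp1 : p < 1) (hc : 0 < c)
    (hone : ∀ (I : Type) [Fintype I] (J : Finset I), 1 ≤ J.card →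
      c ≤ Pr p (fun f : I → Bool => ((J.filter (fun i => f i = true)).card : ℝ) ≤
        p * (J.card : ℝ) - c * Real.sqrt (J.card : ℝ))) (I : Type) [Fintype I] (M : ℕ)
    (hM : 1 ≤ M) : ∀ (k : ℕ) (J : Finset I), k * M ≤ J.card →
      c ^ k ≤ Pr p (fun f : I → Bool => ((J.filter (fun i => f i = true)).card : ℝ) ≤
        p * ((k : ℝ) * M) - k * (c * Real.sqrt M) + ((J.card : ℝ) - (k : ℝ) * M)) := by
  intro k
  induction k with
  | zero =>
    intro J _
    rw [anti_true, pow_zero]
    intro f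
    have h : (J.filter (fun i => f i = true)).card ≤ J.card := Finset.card_filter_le _ _
    have h2 : ((J.filter (fun i => f i = true)).card : ℝ) ≤ (J.card : ℝ) := by exact_mod_cast h
    push_cast
    linarith
  | succ k ih =>
    intro J hJ
    have hMJ : M ≤ J.card := by
      have : (k + 1) * M = k * M + M := by ring
      omega
    obtain ⟨T, hTJ, hTc⟩ := Finset.exists_subset_card_eq hMJ
    have hsd : (J \ T).card = J.card - M := by rw [Finset.card_sdiff_of_subset hTJ, hTc]
    have hsdr : ((J \ T).card : ℝ) = (J.card : ℝ) - M := by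
      rw [hsd, Nat.cast_sub hMJ]
    have h1 := hone I T (by omega)
    have h2 := ih (J \ T) (by
      have : (k + 1) * M = k * M + M := by ring
      omega)
    rw [hTc] at h1
    have hpc : c ^ (k + 1) = c * c ^ k := by ring
    rw [hpc]
    have hmul : c * c ^ k ≤
        Pr p (fun f : I → Bool => ((T.filter (fun i => f i = true)).card : ℝ) ≤
          p * (M : ℝ) - c * Real.sqrt (M : ℝ)) *
        Pr p (fun f : I → Bool => (((J \ T).filter (fun i => f i = true)).card : ℝ) ≤
        p * ((k : ℝ) * M) - k * (c * Real.sqrt M) + (((J \ T).card : ℝ) - (k : ℝ) * M)) :=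
      mul_le_mul h1 h2 (by positivity) (Pr_nonneg hp0.le hp1.le _)
    refine le_trans hmul ?_
    rw [← anti_and p (T := T) (T' := J \ T) Finset.disjoint_sdiff _ _ (anti_dep T _)
      (anti_dep (J \ T) _)]
    apply Pr_mono hp0.le hp1.le
    rintro f ⟨h3, h4⟩
    have h5 : J.filter (fun i => f i = true) =
        T.filter (fun i => f i = true) ∪ (J \ T).filter (fun i => f i = true) := by
      rw [← Finset.filter_union, Finset.union_sdiff_of_subset hTJ]
    have h6 : ((J.filter (fun i => f i = true)).card : ℝ) ≤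
        ((T.filter (fun i => f i = true)).card : ℝ) +
        (((J \ T).filter (fun i => f i = true)).card : ℝ) := by
      rw [h5]
      exact_mod_cast Finset.card_union_le _ _
    rw [hsdr] at h4
    push_cast
    linarith

theorem anti (p : ℝ) (hp0 : 0 < p) (hp1 : p < 1) (C : ℝ) :
    ∃ lam : ℝ, 0 < lam ∧ ∃ N0 : ℕ, ∀ (I : Type) [Fintype I] (J : Finset I), N0 ≤ J.card →
      lam ≤ Pr p (fun f : I → Bool => ((J.filter (fun i => f i = true)).card : ℝ) ≤
        p * (J.card : ℝ) - C * Real.sqrt (J.card : ℝ)) := by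
  obtain ⟨c, hc, hone⟩ := anti_one p hp0 hp1
  obtain ⟨C', hC'⟩ : ∃ C' : ℝ, C' = max C 0 := ⟨_, rfl⟩
  have hC0 : 0 ≤ C' := by rw [hC']; exact le_max_right _ _
  have hCC : C ≤ C' := by rw [hC']; exact le_max_left _ _
  -- k with c * sqrt (k/2) ≥ C' + 1
  obtain ⟨k, hk⟩ := exists_nat_ge (2 * ((C' + 1) / c) ^ 2)
  have hkpos : (0 : ℝ) < k := by
    have : 0 < 2 * ((C' + 1) / c) ^ 2 := by positivity
    linarith
  have hk1 : 1 ≤ k := by
    have : 0 < k := by exact_mod_cast hkpos
    omega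
  have hck : C' + 1 ≤ c * Real.sqrt ((k : ℝ) / 2) := by
    have h1 : (C' + 1) / c ≤ Real.sqrt ((k : ℝ) / 2) := by
      apply Real.le_sqrt_of_sq_le
      linarith
    rw [div_le_iff₀ hc] at h1
    linarith
  refine ⟨c ^ k, by positivity, 2 * k ^ 2, ?_⟩
  intro I _ J hJ
  obtain ⟨M, hMdef⟩ : ∃ M : ℕ, M = J.card / k := ⟨_, rfl⟩
  have h2k : 2 * k ≤ J.card := by nlinarith
  have hM1 : 1 ≤ M := by
    rw [hMdef, Nat.le_div_iff_mul_le (by omega)]
    omega
  have hkM : k * M ≤ J.card := by rw [hMdef]; exact Nat.mul_div_le _ _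
  have hlt : J.card < k * M + k := by
    rw [hMdef]
    have := Nat.lt_mul_div_succ J.card (b := k) (by omega)
    have h7 : k * (J.card / k + 1) = k * (J.card / k) + k := by ring
    omega
  refine le_trans (anti_blocks hp0 hp1 hc hone I M hM1 k J hkM) ?_
  apply Pr_mono hp0.le hp1.le
  intro f hf
  refine le_trans hf ?_
  have hkMr : (k : ℝ) * M ≤ (J.card : ℝ) := by exact_mod_cast hkM
  have hltr : (J.card : ℝ) < (k : ℝ) * M + k := by exact_mod_cast hlt
  have h2kr : 2 * (k : ℝ) ≤ (J.card : ℝ) := by exact_mod_cast h2k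
  -- sqrt estimates
  have hMr : (J.card : ℝ) / (2 * k) ≤ M := by
    rw [div_le_iff₀ (by positivity)]
    linarith
  have hsq : Real.sqrt ((J.card : ℝ) / (2 * k)) ≤ Real.sqrt M := Real.sqrt_le_sqrt hMr
  have hk4 : (k : ℝ) * Real.sqrt ((J.card : ℝ) / (2 * k)) =
      Real.sqrt ((k : ℝ) / 2) * Real.sqrt (J.card : ℝ) := by
    have h9 : (k : ℝ) * Real.sqrt ((J.card : ℝ) / (2 * k)) =
        Real.sqrt ((k : ℝ) ^ 2 * ((J.card : ℝ) / (2 * k))) := by
      rw [Real.sqrt_mul (by positivity), Real.sqrt_sq hkpos.le]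
    have h13 : Real.sqrt ((k : ℝ) / 2) * Real.sqrt (J.card : ℝ) =
        Real.sqrt ((k : ℝ) / 2 * (J.card : ℝ)) := by
      rw [Real.sqrt_mul (by positivity)]
    rw [h9, h13]
    have h14 : (k : ℝ) ^ 2 * ((J.card : ℝ) / (2 * k)) = (k : ℝ) / 2 * (J.card : ℝ) := by
      have : (k : ℝ) ≠ 0 := hkpos.ne'
      field_simp
    rw [h14]
  have hkle : (k : ℝ) ≤ Real.sqrt (J.card : ℝ) := by
    apply Real.le_sqrt_of_sq_le
    have : ((2 * k ^ 2 : ℕ) : ℝ) ≤ (J.card : ℝ) := by exact_mod_cast hJ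
    push_cast at this
    nlinarith [sq_nonneg (k : ℝ)]
  have hs0 : 0 ≤ Real.sqrt (J.card : ℝ) := Real.sqrt_nonneg _
  have h10 : (C' + 1) * Real.sqrt (J.card : ℝ) ≤ k * (c * Real.sqrt M) := by
    calc (C' + 1) * Real.sqrt (J.card : ℝ) ≤ (c * Real.sqrt ((k : ℝ) / 2)) * Real.sqrt (J.card : ℝ) :=
          mul_le_mul_of_nonneg_right hck hs0
      _ = c * (Real.sqrt ((k : ℝ) / 2) * Real.sqrt (J.card : ℝ)) := by ring
      _ = c * ((k : ℝ) * Real.sqrt ((J.card : ℝ) / (2 * k))) := by rw [hk4]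
      _ ≤ c * ((k : ℝ) * Real.sqrt M) := by
          apply mul_le_mul_of_nonneg_left _ hc.le
          apply mul_le_mul_of_nonneg_left hsq hkpos.le
      _ = k * (c * Real.sqrt M) := by ring
  have h11 : C * Real.sqrt (J.card : ℝ) ≤ C' * Real.sqrt (J.card : ℝ) :=
    mul_le_mul_of_nonneg_right hCC hs0
  have h12 : p * ((k : ℝ) * M) ≤ p * (J.card : ℝ) := mul_le_mul_of_nonneg_left hkMr hp0.le
  linarith

end Pool.Agent.Lib.MP_a2d8aa_co.AA
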