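import Pool.Agent.Lib.MP_a2d8aa_co.AA.Lift

/-!
# Module AA-Base: orders of at most `d` vertices

`base_dense`: in `U H d σ`, `σ` without repetition of length at most `d`, the assignments that are
linearly independent on `σ` are dense.
PROOF.  Induction on `σ`.  For `x :: σ`: apply `ext_closure` with `σ' = σ`,
`B = U H d σ ∩ Ind d σ.toFinset`: every `c ∈ U (x :: σ)` is a limit of `c' ∈ U (x :: σ)` with
`c' ∈ Ind σ.toFinset`.  Since `σ.toFinset.card < d` there is `w ≠ 0` orthogonal to all `c' s`,
`s ∈ σ` (orthogonal complement of the span: dimension count).  For all but at most one real `t` the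
assignment `Function.update c' x (c' x + t • w)` is linearly independent on `(x :: σ).toFinset`
(`c' x + t w ∈ span` implies, pairing with `w`, `⟪c' x, w⟫ + t ‖w‖² = 0`), and it is in
`U (x :: σ)` because `w` is orthogonal to all earlier vectors; let `t → 0`.
`perturb` is the general form of the last step (also used in AA-Faith).
-/

set_option autoImplicit false

open scoped Classical

noncomputable section

namespace Pool.Agent.Lib.MP_a2d8aa_co.AA

variable {V : Type*} {d : ℕ}

/-- membership in `Ind` as a statement on sets -/
theorem mem_Ind_iff_linearIndepOn {S : Finset V} {c : V → E d} :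
    c ∈ Ind d S ↔ LinearIndepOn ℝ c (S : Set V) := Iff.rfl

/-- perturbation of the last vector: if `w` is orthogonal to the vectors of the earlier
neighbours and `Q` holds for all small `t ≠ 0` along `c x + t w`, then `c` is a limit of members
of `U (x :: σ)` in `Q` -/
theorem perturb (H : SimpleGraph V) {σ : List V} {x : V} (hx : x ∉ σ) {c : V → E d}
    (hc : c ∈ U H d (x :: σ)) {w : E d} (hw : ∀ y ∈ σ, H.Adj x y → inner ℝ w (c y) = 0)
    {Q : Set (V → E d)} (t0 : ℝ)
    (hQ : ∀ t : ℝ, t ≠ t0 → t ≠ 0 → Function.update c x (c x + t • w) ∈ Q) :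
    c ∈ closure (U H d (x :: σ) ∩ Q) := by
  obtain ⟨hU, hI, hO⟩ := hc
  have hγ : ∀ t : ℝ, Function.update c x (c x + t • w) ∈ U H d (x :: σ) := by
    intro t
    refine ⟨U_update H hx _ hU, ?_, ?_⟩
    · refine Ind_update ?_ _ hI
      intro hmem
      have := (Finset.mem_filter.1 hmem).1
      exact hx (List.mem_toFinset.1 this)
    · intro y hy hxy
      have hyx : y ≠ x := fun h => hx (h ▸ hy)
      rw [Function.update_self, Function.update_of_ne hyx, inner_add_left, inner_smul_left,
        hO y hy hxy, hw y hy hxy]
      simp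
  have hcont : Continuous (fun t : ℝ => Function.update c x (c x + t • w)) := by
    refine continuous_pi fun y => ?_
    by_cases h : y = x
    · subst h
      simp only [Function.update_self]
      exact continuous_const.add (continuous_id.smul continuous_const)
    · simp only [Function.update_of_ne h]
      exact continuous_const
  have hlim : Filter.Tendsto (fun t : ℝ => Function.update c x (c x + t • w))
      (nhdsWithin 0 {0}ᶜ) (nhds c) := by
    have h1 : Filter.Tendsto (fun t : ℝ => Function.update c x (c x + t • w))
        (nhds 0) (nhds (Function.update c x (c x + (0 : ℝ) • w))) := hcont.tendsto 0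
    have h2 : Function.update c x (c x + (0 : ℝ) • w) = c := by simp
    rw [h2] at h1
    exact h1.mono_left nhdsWithin_le_nhds
  refine mem_closure_of_tendsto hlim ?_
  have h3 : ∀ᶠ t in nhdsWithin (0 : ℝ) {0}ᶜ, t ≠ 0 := eventually_mem_nhdsWithin
  have h4 : ∀ᶠ t in nhdsWithin (0 : ℝ) {0}ᶜ, t ≠ t0 := by
    by_cases h : t0 = 0
    · subst h; exact h3
    · have : ∀ᶠ t in nhds (0 : ℝ), t ≠ t0 :=
        isOpen_ne.mem_nhds (Ne.symm h)
      exact this.filter_mono nhdsWithin_le_nhds
  filter_upwards [h3, h4] with t h5 h6
  exact ⟨hγ t, hQ t h6 h5⟩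

/-- fewer than `d` vectors have a common non-zero orthogonal vector -/
theorem exists_orth {S : Finset V} (hS : S.card < d) (c : V → E d) :
    ∃ w : E d, w ≠ 0 ∧ ∀ y ∈ S, inner ℝ w (c y) = 0 := by
  set W : Submodule ℝ (E d) := Submodule.span ℝ ((S.image c : Finset (E d)) : Set (E d)) with hW
  have h1 : Module.finrank ℝ W ≤ S.card :=
    (finrank_span_finset_le_card (R := ℝ) (S.image c)).trans Finset.card_image_le
  have h2 : Wᗮ ≠ ⊥ := by
    intro h
    have h3 := Submodule.finrank_add_finrank_orthogonal W
    rw [h, finrank_bot, finrank_euclideanSpace_fin] at h3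
    omega
  obtain ⟨w, hw, hw0⟩ := Submodule.exists_mem_ne_zero_of_ne_bot h2
  refine ⟨w, hw0, fun y hy => ?_⟩
  rw [real_inner_comm]
  exact (Submodule.mem_orthogonal W w).1 hw (c y)
    (Submodule.subset_span (by simpa using ⟨y, hy, rfl⟩))

theorem base_dense (H : SimpleGraph V) {σ : List V} (hnd : σ.Nodup) (hle : σ.length ≤ d) :
    U H d σ ⊆ closure (U H d σ ∩ Ind d σ.toFinset) := by
  induction σ with
  | nil =>
    intro c _
    refine subset_closure ⟨trivial, ?_⟩
    have : IsEmpty {x // x ∈ (([] : List V).toFinset)} := ⟨fun x => by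
      have h := List.mem_toFinset.1 x.2
      simp at h⟩
    exact linearIndependent_empty_type
  | cons x σ ih =>
    obtain ⟨hx, hnd'⟩ := List.nodup_cons.1 hnd
    have hlt : σ.length < d := by simpa using hle
    have ih' := ih hnd' hlt.le
    have hxS : x ∉ σ.toFinset := fun h => hx (List.mem_toFinset.1 h)
    have hext := ext_closure (d := d) H (σ := σ) (σ' := σ) (x := x) hx rfl
      (B := U H d σ ∩ Ind d σ.toFinset) Set.inter_subset_left
      (fun c hc v => ⟨U_update H hx v hc.1, Ind_update hxS v hc.2⟩) ih'
    refine hext.trans (closure_minimal ?_ isClosed_closure)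
    rintro c ⟨hcU, -, hcI⟩
    have hcard : σ.toFinset.card < d := (List.toFinset_card_le σ).trans_lt hlt
    obtain ⟨w, hw0, hw⟩ := exists_orth hcard c
    have hww : inner ℝ w w ≠ (0 : ℝ) := inner_self_ne_zero.2 hw0
    refine perturb H hx hcU (w := w)
      (fun y hy _ => hw y (List.mem_toFinset.2 hy)) (-(inner ℝ w (c x)) / inner ℝ w w) ?_
    intro t ht _
    have hins : (x :: σ).toFinset = insert x σ.toFinset := by
      ext y; simp
    rw [hins, mem_Ind_iff_linearIndepOn, Finset.coe_insert,
      linearIndepOn_insert (by simpa using hx)]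
    refine ⟨Ind_update hxS _ hcI, ?_⟩
    rw [Function.update_self]
    intro hmem
    have himg : (Function.update c x (c x + t • w)) '' (σ.toFinset : Set V) =
        c '' (σ.toFinset : Set V) := by
      refine Set.image_congr fun y hy => ?_
      have hyx : y ≠ x := fun h => hxS (h ▸ (by simpa using hy))
      rw [Function.update_of_ne hyx]
    rw [himg] at hmem
    have hperp : ∀ v ∈ Submodule.span ℝ (c '' (σ.toFinset : Set V)), inner ℝ w v = (0 : ℝ) := by
      intro v hv
      induction hv using Submodule.span_induction with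
      | mem v hv =>
        obtain ⟨y, hy, rfl⟩ := hv
        exact hw y (by simpa using hy)
      | zero => simp
      | add a b _ _ ha hb => rw [inner_add_right, ha, hb, add_zero]
      | smul r a _ ha => rw [inner_smul_right, ha, mul_zero]
    have h0 := hperp _ hmem
    rw [inner_add_right, inner_smul_right] at h0
    apply ht
    field_simp
    linarith

end Pool.Agent.Lib.MP_a2d8aa_co.AA
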