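import Pool.Agent.Lib.MP_a2d8aa_co.AA.Var

/-!
# Module AA-CondsReg: regular graphs with many low vertices satisfy `Conds`

Notation `n = Fintype.card V`, `r = (univ \ K).card`, `High = K \ Low H d K`.  Given `p, lam`:
choose `η := min (lam/4) (p(1-p)/8)` (wlog `lam ≤ 1`), then `ε > 0` small:
`ε ≤ η`, `ε ≤ 1`, `8 ε ≤ p lam`, `12 ε ≤ η p² / 2`, `3 ε ≤ η (1-p)² / 2`, then `n0` large:
`16/(lam p²) ≤ η n / 2` , `2 ≤ η² n (1-p)² / 2`, `η n ≥ 4`.

(HB) if `r ≥ lam n / 2` then `4 ε n ≤ p r` and `high_bound` gives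
     `High.card ≤ (8 n / r + 12 ε n) / p² ≤ η n`.
(MX) if `A, B` are completely joined in `H` and `B.card ≥ η n` then
     `A.card ≤ (2 n / B.card + 3 ε n) / (1-p)² < η n`.  So one of the two is smaller than `η n`.
(LO) if `r < lam n / 2` then every `w` has at least `lam n / 2` non-neighbours `u ≠ w` in
     `Low H d K` (a vertex of degree `< d` that lies in `K` is in `Low H d K`).
(H1) if `d < K.card ≤ d + η n + 1` then `High.card ≤ 1`: two elements `u ≠ v` would give, by
     `high_two`, codegree `≥ 2d - K.card ≥ d - η n - 1 > (p² + ε) n`.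
Let `d < K.card`.
CASE I, `r < lam n / 2`.
 `three`, `out`: (LO) and `lam n / 2 ≥ 3`.
 `conn`: suppose `x, y ∈ Low` not connected; let `A` = the set of elements of `Low` reachable from
 `x`, `B = Low \ A`.  All pairs in `A × B` are adjacent in `H` (distinct and otherwise an edge of
 the relation).  By (LO) for `x`, its non-neighbours in `Low` are in `A`: `A.card ≥ lam n / 2`;
 for `y`: they are in `B`.  Contradiction to (MX) (`η ≤ lam/4`).
CASE II, `r ≥ lam n / 2`: `High.card ≤ η n`, `Low.card ≥ K.card - η n ≥ d + 1 - η n ≥ 3`: `three`.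
 `out`: `x ∉ K`, `#N(x)∩K < d`, `j ∈ K` non-adjacent to `x`.  Let `Z = K \ (N(x) ∪ {j})`,
 `Z.card ≥ K.card - d ≥ 1`.  If no element of `Z` is in `Low`, then `Z ⊆ High`.  If
 `K.card > d + η n`: contradiction to (HB).  Otherwise (H1): `Z.card = 1`, `K.card = d + 1`,
 `#N(x) ∩ K = d - 1`, `Z = {u}`, `u ∈ High`: `#N(u)∩K ≥ d = K.card - 1` and `u ∉ N(u)`, so
 `N(u) ⊇ K \ {u} ⊇ N(x) ∩ K`: codegree of `x, u` is at least `d - 1 > (p² + ε) n`.
 `conn`: `A, B` as above; by (MX) and symmetry one of them, say `A`, has fewer than `η n` elements.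
 If `A.card ≥ 2`: `B ⊆ N(a) ∩ N(a')`, `B.card ≤ (p² + ε) n`, `Low.card ≤ (p² + ε + η) n <
 d + 1 - η n`.  If `A = {w}`: `w ∈ Low`: `Z = K \ (N(w) ∪ {w})` has `≥ K.card - 1 - (d - 1) ≥ 1`
 elements, all in `High` (all other elements of `Low` are neighbours of `w`).  If
 `K.card > d + η n`: contradiction to (HB).  Otherwise `Z = {u}`, `K.card = d + 1`, and
 `#N(u) ∩ K ≥ d` means that `u` is adjacent to all of `K \ {u}`, in particular to `w`:
 contradiction to `u ∈ Z`.
-/

set_option autoImplicit false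

open scoped Classical

noncomputable section

namespace Pool.Agent.Lib.MP_a2d8aa_co.AA

variable {V : Type*} [Fintype V]

private theorem low_add_high {V : Type*} (H : SimpleGraph V) (d : ℕ) (K : Finset V) :
    (Low H d K).card + (K \ Low H d K).card = K.card := by
  have h : Low H d K ⊆ K := Finset.filter_subset _ _
  rw [add_comm, Finset.card_sdiff_add_card_eq_card h]

private theorem nb_add_rest {V : Type*} (H : SimpleGraph V) (K : Finset V) (x : V) :
    (nb H K x).card + (K.filter (fun y => ¬ H.Adj x y)).card = K.card := by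
  unfold nb
  exact Finset.card_filter_add_card_filter_not _

/-- elements of `High` miss at most `K.card - d` elements -/
private theorem high_deg {V : Type*} (H : SimpleGraph V) {d : ℕ} {K : Finset V} {u : V}
    (hu : u ∈ K \ Low H d K) : u ∈ K ∧ d ≤ (nb H K u).card := by
  rw [Finset.mem_sdiff] at hu
  refine ⟨hu.1, ?_⟩
  by_contra h
  exact hu.2 (Finset.mem_filter.2 ⟨hu.1, not_le.1 h⟩)

/-- a `High` vertex is adjacent to everything if `K.card = d + 1` -/
private theorem high_all {V : Type*} (H : SimpleGraph V) {d : ℕ} {K : Finset V} {u : V}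
    (hu : u ∈ K \ Low H d K) (hK : K.card ≤ d + 1) {v : V} (hv : v ∈ K) (huv : v ≠ u) :
    H.Adj u v := by
  obtain ⟨huK, hdu⟩ := high_deg H hu
  by_contra hn
  have h1 := nb_add_rest H K u
  have h2 : ({u, v} : Finset V) ⊆ K.filter (fun y => ¬ H.Adj u y) := by
    intro z hz
    rw [Finset.mem_insert, Finset.mem_singleton] at hz
    rcases hz with rfl | rfl
    · exact Finset.mem_filter.2 ⟨huK, H.irrefl⟩
    · exact Finset.mem_filter.2 ⟨hv, hn⟩
  have h3 := Finset.card_le_card h2
  rw [Finset.card_pair huv.symm] at h3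
  omega

/-- the reachable set gives a partition of `Low` into completely joined parts -/
private theorem conn_of_nopart {V : Type*} (H : SimpleGraph V) (L : Finset V)
    (h : ∀ A B : Finset V, A ∪ B = L → Disjoint A B → A.Nonempty → B.Nonempty →
      (∀ a ∈ A, ∀ b ∈ B, H.Adj a b) → False) :
    ∀ x ∈ L, ∀ y ∈ L,
      Relation.ReflTransGen (fun a b => a ∈ L ∧ b ∈ L ∧ a ≠ b ∧ ¬ H.Adj a b) x y := by
  intro x hx y hy
  by_contra hn
  set R := Relation.ReflTransGen (fun a b => a ∈ L ∧ b ∈ L ∧ a ≠ b ∧ ¬ H.Adj a b) with hR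
  refine h (L.filter (fun z => R x z)) (L.filter (fun z => ¬ R x z)) ?_ ?_ ?_ ?_ ?_
  · exact Finset.filter_union_filter_not_eq _ _
  · exact Finset.disjoint_filter_filter_not _ _ _
  · exact ⟨x, Finset.mem_filter.2 ⟨hx, Relation.ReflTransGen.refl⟩⟩
  · exact ⟨y, Finset.mem_filter.2 ⟨hy, hn⟩⟩
  · intro a ha b hb
    rw [Finset.mem_filter] at ha hb
    by_contra hab
    refine hb.2 (ha.2.tail ⟨ha.1, hb.1, ?_, hab⟩)
    rintro rfl
    exact hb.2 ha.2

private theorem conds_core (H : SimpleGraph V) (p ε η lam : ℝ) (d : ℕ)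
    (hd : (p - ε) * (Fintype.card V : ℝ) ≤ (d : ℝ))
    (hHB : ∀ K : Finset V, lam * (Fintype.card V : ℝ) / 2 ≤ ((Finset.univ \ K).card : ℝ) →
      ((K \ Low H d K).card : ℝ) ≤ η * (Fintype.card V : ℝ))
    (hMX : ∀ A B : Finset V, (∀ a ∈ A, ∀ b ∈ B, H.Adj a b) →
      η * (Fintype.card V : ℝ) ≤ (B.card : ℝ) → (A.card : ℝ) < η * (Fintype.card V : ℝ))
    (hcod : ∀ u v : V, u ≠ v →
      ((nb H (nb H Finset.univ u) v).card : ℝ) ≤ (p ^ 2 + ε) * (Fintype.card V : ℝ))
    (c1 : (p ^ 2 + ε) * (Fintype.card V : ℝ) <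
      (p - ε) * (Fintype.card V : ℝ) - η * (Fintype.card V : ℝ) - 1)
    (c3 : 3 ≤ lam * (Fintype.card V : ℝ) / 2)
    (c3' : η * (Fintype.card V : ℝ) ≤ lam * (Fintype.card V : ℝ) / 2)
    (c4 : 2 ≤ (p - ε) * (Fintype.card V : ℝ) - η * (Fintype.card V : ℝ))
    (c5 : (p ^ 2 + ε) * (Fintype.card V : ℝ) + η * (Fintype.card V : ℝ) <
      (p - ε) * (Fintype.card V : ℝ) + 1 - η * (Fintype.card V : ℝ))
    (c6 : 0 ≤ η * (Fintype.card V : ℝ))
    (hlow : ∀ w : V, lam * (Fintype.card V : ℝ) ≤ ((Finset.univ.filter (fun u : V =>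
        u ≠ w ∧ ¬ H.Adj w u ∧ (nb H Finset.univ u).card < d)).card : ℝ)) :
    Conds H d := by
  set n : ℝ := (Fintype.card V : ℝ) with hn
  -- (LO)
  have hLO : ∀ K : Finset V, ((Finset.univ \ K).card : ℝ) < lam * n / 2 → ∀ w : V,
      lam * n / 2 ≤ (((Low H d K).filter (fun u => u ≠ w ∧ ¬ H.Adj w u)).card : ℝ) := by
    intro K hr w
    have h1 : Finset.univ.filter (fun u : V =>
        u ≠ w ∧ ¬ H.Adj w u ∧ (nb H Finset.univ u).card < d) ⊆
        (Low H d K).filter (fun u => u ≠ w ∧ ¬ H.Adj w u) ∪ (Finset.univ \ K) := by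
      intro u hu
      rw [Finset.mem_filter] at hu
      obtain ⟨-, h1, h2, h3⟩ := hu
      by_cases huK : u ∈ K
      · refine Finset.mem_union_left _ (Finset.mem_filter.2 ⟨Finset.mem_filter.2 ⟨huK, ?_⟩, h1, h2⟩)
        refine lt_of_le_of_lt (Finset.card_le_card ?_) h3
        exact Finset.filter_subset_filter _ (Finset.subset_univ K)
      · exact Finset.mem_union_right _ (Finset.mem_sdiff.2 ⟨Finset.mem_univ _, huK⟩)
    have h2 := (Finset.card_le_card h1).trans (Finset.card_union_le _ _)
    have h3 : ((Finset.univ.filter (fun u : V =>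
        u ≠ w ∧ ¬ H.Adj w u ∧ (nb H Finset.univ u).card < d)).card : ℝ) ≤
        (((Low H d K).filter (fun u => u ≠ w ∧ ¬ H.Adj w u)).card : ℝ) +
          ((Finset.univ \ K).card : ℝ) := by exact_mod_cast h2
    have h4 := hlow w
    linarith
  -- (H1)
  have hH1 : ∀ K : Finset V, (K.card : ℝ) ≤ d + η * n + 1 → (K \ Low H d K).card ≤ 1 := by
    intro K hK
    rw [Finset.card_le_one]
    intro u hu v hv
    by_contra huv
    have h1 := high_two H K hu hv
    have h2 := hcod u v huv
    have h3 : (2 * d : ℝ) ≤ ((nb H (nb H Finset.univ u) v).card : ℝ) + (K.card : ℝ) := by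
      exact_mod_cast h1
    linarith
  -- a set of High vertices with at least `K.card - d` elements
  have hZ : ∀ K : Finset V, d < K.card → lam * n / 2 ≤ ((Finset.univ \ K).card : ℝ) →
      ∀ Z : Finset V, Z ⊆ K \ Low H d K → K.card ≤ Z.card + d →
      K.card = d + 1 ∧ Z.card = 1 := by
    intro K hdK hr Z hZH hZc
    have h1 := Finset.card_le_card hZH
    have h2 := hHB K hr
    have h3 : (Z.card : ℝ) ≤ ((K \ Low H d K).card : ℝ) := by exact_mod_cast h1
    have h4 : (K.card : ℝ) ≤ (Z.card : ℝ) + d := by exact_mod_cast hZc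
    have h5 := hH1 K (by linarith)
    omega
  have hLow : ∀ K : Finset V, d < K.card → lam * n / 2 ≤ ((Finset.univ \ K).card : ℝ) →
      (d : ℝ) + 1 - η * n ≤ ((Low H d K).card : ℝ) := by
    intro K hdK hr
    have h1 := hHB K hr
    have h2 := low_add_high H d K
    have h3 : ((Low H d K).card : ℝ) + ((K \ Low H d K).card : ℝ) = (K.card : ℝ) := by
      exact_mod_cast h2
    have h4 : (d : ℝ) + 1 ≤ (K.card : ℝ) := by exact_mod_cast hdK
    linarith
  -- no partition into completely joined parts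
  have hnp : ∀ K : Finset V, d < K.card → ∀ A B : Finset V, A ∪ B = Low H d K → Disjoint A B →
      A.Nonempty → B.Nonempty → (∀ a ∈ A, ∀ b ∈ B, H.Adj a b) → False := by
    intro K hdK
    -- the part of Case II, `A` small
    have hsmall : lam * n / 2 ≤ ((Finset.univ \ K).card : ℝ) → ∀ A B : Finset V,
        A ∪ B = Low H d K → Disjoint A B → A.Nonempty → (A.card : ℝ) < η * n →
        (∀ a ∈ A, ∀ b ∈ B, H.Adj a b) → False := by
      intro hr A B hAB hdis hA hAs hj
      have hL := hLow K hdK hr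
      have hc : A.card + B.card = (Low H d K).card := by
        rw [← hAB, Finset.card_union_of_disjoint hdis]
      have hc' : (A.card : ℝ) + (B.card : ℝ) = ((Low H d K).card : ℝ) := by exact_mod_cast hc
      by_cases h1 : 1 < A.card
      · obtain ⟨a, ha, a', ha', haa⟩ := Finset.one_lt_card.1 h1
        have h2 : B ⊆ nb H (nb H Finset.univ a) a' := by
          intro b hb
          exact Finset.mem_filter.2 ⟨Finset.mem_filter.2 ⟨Finset.mem_univ _, hj a ha b hb⟩,
            hj a' ha' b hb⟩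
        have h3 : (B.card : ℝ) ≤ ((nb H (nb H Finset.univ a) a').card : ℝ) := by
          exact_mod_cast Finset.card_le_card h2
        have h4 := hcod a a' haa
        linarith
      · have h2 : A.card = 1 := le_antisymm (not_lt.1 h1) (Finset.card_pos.2 hA)
        obtain ⟨w, rfl⟩ := Finset.card_eq_one.1 h2
        have hw : w ∈ Low H d K := by
          rw [← hAB]
          exact Finset.mem_union_left _ (Finset.mem_singleton_self w)
        have hwK := (Finset.mem_filter.1 hw).1
        have hwd := (Finset.mem_filter.1 hw).2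
        set Z := (K.filter (fun y => ¬ H.Adj w y)).erase w with hZdef
        have hwZ : w ∈ K.filter (fun y => ¬ H.Adj w y) := Finset.mem_filter.2 ⟨hwK, H.irrefl⟩
        have hZc : Z.card + 1 = (K.filter (fun y => ¬ H.Adj w y)).card :=
          Finset.card_erase_add_one hwZ
        have h3 := nb_add_rest H K w
        have hZH : Z ⊆ K \ Low H d K := by
          intro z hz
          rw [hZdef, Finset.mem_erase, Finset.mem_filter] at hz
          obtain ⟨hzw, hzK, hzn⟩ := hz
          refine Finset.mem_sdiff.2 ⟨hzK, fun hzL => ?_⟩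
          rw [← hAB, Finset.mem_union, Finset.mem_singleton] at hzL
          rcases hzL with h | h
          · exact hzw h
          · exact hzn (hj w (Finset.mem_singleton_self w) z h)
        obtain ⟨h4, h5⟩ := hZ K hdK hr Z hZH (by omega)
        obtain ⟨u, hu⟩ := Finset.card_eq_one.1 h5
        have huZ : u ∈ Z := by rw [hu]; exact Finset.mem_singleton_self u
        have h6 := huZ
        rw [hZdef, Finset.mem_erase, Finset.mem_filter] at h6
        have h7 := high_all H (hZH huZ) h4.le hwK h6.1.symm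
        exact h6.2.2 h7.symm
    intro A B hAB hdis hA hB hj
    have hj' : ∀ b ∈ B, ∀ a ∈ A, H.Adj b a := fun b hb a ha => (hj a ha b hb).symm
    rcases lt_or_ge ((Finset.univ \ K).card : ℝ) (lam * n / 2) with hr | hr
    · -- Case I
      have key : ∀ A B : Finset V, A ∪ B = Low H d K → A.Nonempty →
          (∀ a ∈ A, ∀ b ∈ B, H.Adj a b) → lam * n / 2 ≤ (A.card : ℝ) := by
        intro A B hAB hA hj
        obtain ⟨a, ha⟩ := hA
        refine (hLO K hr a).trans ?_
        have : (Low H d K).filter (fun u => u ≠ a ∧ ¬ H.Adj a u) ⊆ A := by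
          intro u hu
          rw [Finset.mem_filter, ← hAB, Finset.mem_union] at hu
          rcases hu.1 with h | h
          · exact h
          · exact absurd (hj a ha u h) hu.2.2
        exact_mod_cast Finset.card_le_card this
      have h1 := key A B hAB hA hj
      have h2 := key B A (by rw [Finset.union_comm]; exact hAB) hB hj'
      have h3 := hMX A B hj (by linarith)
      linarith
    · rcases lt_or_ge (B.card : ℝ) (η * n) with h | h
      · exact hsmall hr B A (by rw [Finset.union_comm]; exact hAB) hdis.symm hB h hj'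
      · exact hsmall hr A B hAB hdis hA (hMX A B hj h) hj
  refine ⟨fun K hdK => conn_of_nopart H _ (hnp K hdK), ?_, ?_⟩
  · -- out
    intro K hdK x hxK hxd j hj hxj
    rcases lt_or_ge ((Finset.univ \ K).card : ℝ) (lam * n / 2) with hr | hr
    · have h1 := hLO K hr x
      have h2 : (3 : ℝ) ≤ (((Low H d K).filter (fun u => u ≠ x ∧ ¬ H.Adj x u)).card : ℝ) := by
        linarith
      have h3 : 3 ≤ ((Low H d K).filter (fun u => u ≠ x ∧ ¬ H.Adj x u)).card := by
        exact_mod_cast h2
      obtain ⟨y, hy, hyj⟩ := Finset.exists_mem_ne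
        (s := (Low H d K).filter (fun u => u ≠ x ∧ ¬ H.Adj x u)) (by omega) j
      rw [Finset.mem_filter] at hy
      exact ⟨y, hy.1, hy.2.2, hyj⟩
    · by_contra hno
      push Not at hno
      set Z := (K.filter (fun y => ¬ H.Adj x y)).erase j with hZdef
      have hjZ : j ∈ K.filter (fun y => ¬ H.Adj x y) := Finset.mem_filter.2 ⟨hj, hxj⟩
      have hZc : Z.card + 1 = (K.filter (fun y => ¬ H.Adj x y)).card :=
        Finset.card_erase_add_one hjZ
      have h3 := nb_add_rest H K x
      have hZH : Z ⊆ K \ Low H d K := by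
        intro z hz
        rw [hZdef, Finset.mem_erase, Finset.mem_filter] at hz
        obtain ⟨hzj, hzK, hzn⟩ := hz
        exact Finset.mem_sdiff.2 ⟨hzK, fun hzL => hzj (hno z hzL hzn)⟩
      obtain ⟨h4, h5⟩ := hZ K hdK hr Z hZH (by omega)
      obtain ⟨u, hu⟩ := Finset.card_eq_one.1 h5
      have huZ : u ∈ Z := by rw [hu]; exact Finset.mem_singleton_self u
      have h6 := huZ
      rw [hZdef, Finset.mem_erase, Finset.mem_filter] at h6
      have hxu : x ≠ u := fun h => hxK (h ▸ h6.2.1)
      have h7 : nb H K x ⊆ nb H (nb H Finset.univ x) u := by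
        intro z hz
        rw [nb, Finset.mem_filter] at hz
        refine Finset.mem_filter.2 ⟨Finset.mem_filter.2 ⟨Finset.mem_univ _, hz.2⟩, ?_⟩
        refine high_all H (hZH huZ) h4.le hz.1 ?_
        rintro rfl
        exact h6.2.2 hz.2
      have h8 := Finset.card_le_card h7
      have h9 := hcod x u hxu
      have h10 : (d : ℝ) ≤ ((nb H (nb H Finset.univ x) u).card : ℝ) + 1 := by
        have : d ≤ (nb H (nb H Finset.univ x) u).card + 1 := by omega
        exact_mod_cast this
      linarith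
  · -- three
    intro K hdK x j
    have h1 : (3 : ℝ) ≤ ((Low H d K).card : ℝ) := by
      rcases lt_or_ge ((Finset.univ \ K).card : ℝ) (lam * n / 2) with hr | hr
      · have h1 := hLO K hr x
        have h2 : (((Low H d K).filter (fun u => u ≠ x ∧ ¬ H.Adj x u)).card : ℝ) ≤
            ((Low H d K).card : ℝ) := by
          exact_mod_cast Finset.card_le_card (Finset.filter_subset _ _)
        linarith
      · have := hLow K hdK hr
        linarith
    have h2 : 3 ≤ (Low H d K).card := by exact_mod_cast h1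
    have h3 : 0 < ((Low H d K) \ {x, j}).card := by
      have h4 := Finset.le_card_sdiff ({x, j} : Finset V) (Low H d K)
      have h5 : ({x, j} : Finset V).card ≤ 2 := Finset.card_le_two
      omega
    obtain ⟨y, hy⟩ := Finset.card_pos.1 h3
    rw [Finset.mem_sdiff, Finset.mem_insert, Finset.mem_singleton, not_or] at hy
    exact ⟨y, hy.1, hy.2.1, hy.2.2⟩

theorem conds_of_reg (p lam : ℝ) (hp0 : 0 < p) (hp1 : p < 1) (hlam : 0 < lam) :
    ∃ ε : ℝ, 0 < ε ∧ ∃ n0 : ℕ, ∀ (V : Type) [Fintype V] (H : SimpleGraph V) (d : ℕ),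
      n0 ≤ Fintype.card V → Reg0 H p ε →
      (p - ε) * (Fintype.card V : ℝ) ≤ (d : ℝ) → (d : ℝ) ≤ (p + ε) * (Fintype.card V : ℝ) →
      (∀ w : V, lam * (Fintype.card V : ℝ) ≤ ((Finset.univ.filter (fun u : V =>
        u ≠ w ∧ ¬ H.Adj w u ∧ (nb H Finset.univ u).card < d)).card : ℝ)) →
      Conds H d := by
  -- wlog `lam ≤ 1`
  wlog hl1 : lam ≤ 1 generalizing lam
  · obtain ⟨ε, he, n0, h⟩ := this 1 one_pos le_rfl
    refine ⟨ε, he, n0, fun V _ H d hn hR h1 h2 h3 => h V H d hn hR h1 h2 fun w => ?_⟩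
    refine le_trans ?_ (h3 w)
    exact mul_le_mul_of_nonneg_right (not_le.1 hl1).le (Nat.cast_nonneg _)
  have hq : 0 < 1 - p := by linarith
  set η : ℝ := min (lam / 4) (p * (1 - p) / 8) with hη
  have hη0 : 0 < η := lt_min (by positivity) (by positivity)
  have hη1 : η ≤ lam / 4 := min_le_left _ _
  have hη2 : η ≤ p * (1 - p) / 8 := min_le_right _ _
  set ε : ℝ := min η (min (p * lam / 8) (min (η * p ^ 2 / 24) (η * (1 - p) ^ 2 / 6))) with hε
  have hε0 : 0 < ε := lt_min hη0 (lt_min (by positivity) (lt_min (by positivity) (by positivity)))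
  have e1 : ε ≤ η := min_le_left _ _
  have e2 : ε ≤ p * lam / 8 := (min_le_right _ _).trans (min_le_left _ _)
  have e3 : ε ≤ η * p ^ 2 / 24 :=
    (min_le_right _ _).trans ((min_le_right _ _).trans (min_le_left _ _))
  have e4 : ε ≤ η * (1 - p) ^ 2 / 6 :=
    (min_le_right _ _).trans ((min_le_right _ _).trans (min_le_right _ _))
  have hε1 : ε ≤ 1 := by linarith
  obtain ⟨n0, hn0⟩ := exists_nat_gt (4 / η + 32 / (lam * (η * p ^ 2)) + 4 / (η ^ 2 * (1 - p) ^ 2) +
    8 / (p * (1 - p)))
  refine ⟨ε, hε0, n0, fun V _ H d hn hR h1 h2 h3 => ?_⟩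
  have hnn : (n0 : ℝ) ≤ (Fintype.card V : ℝ) := by exact_mod_cast hn
  set n : ℝ := (Fintype.card V : ℝ) with hndef
  have t1 : 0 < 4 / η := by positivity
  have t2 : 0 < 32 / (lam * (η * p ^ 2)) := by positivity
  have t3 : 0 < 4 / (η ^ 2 * (1 - p) ^ 2) := by positivity
  have t4 : 0 < 8 / (p * (1 - p)) := by positivity
  have hn1 : 4 < η * n := by
    have : 4 / η < n := by linarith
    rw [div_lt_iff₀ hη0] at this
    linarith
  have hn2 : 32 < lam * (η * p ^ 2) * n := by
    have : 32 / (lam * (η * p ^ 2)) < n := by linarith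
    rw [div_lt_iff₀ (by positivity)] at this
    linarith
  have hn3 : 4 < η ^ 2 * (1 - p) ^ 2 * n := by
    have : 4 / (η ^ 2 * (1 - p) ^ 2) < n := by linarith
    rw [div_lt_iff₀ (by positivity)] at this
    linarith
  have hn4 : 8 < p * (1 - p) * n := by
    have : 8 / (p * (1 - p)) < n := by linarith
    rw [div_lt_iff₀ (by positivity)] at this
    linarith
  have hnpos : 0 < n := by
    by_contra h
    have := mul_nonpos_of_nonneg_of_nonpos hη0.le (not_lt.1 h)
    linarith
  have m1 : ε * n ≤ η * n := mul_le_mul_of_nonneg_right e1 hnpos.le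
  have m2 : η * n ≤ lam / 4 * n := mul_le_mul_of_nonneg_right hη1 hnpos.le
  have m3 : η * n ≤ p * (1 - p) / 8 * n := mul_le_mul_of_nonneg_right hη2 hnpos.le
  have m4 : ε * n ≤ p * lam / 8 * n := mul_le_mul_of_nonneg_right e2 hnpos.le
  have m5 : ε * n ≤ η * p ^ 2 / 24 * n := mul_le_mul_of_nonneg_right e3 hnpos.le
  have m6 : ε * n ≤ η * (1 - p) ^ 2 / 6 * n := mul_le_mul_of_nonneg_right e4 hnpos.le
  refine conds_core H p ε η lam d h1 ?_ ?_ hR.codeg ?_ ?_ ?_ ?_ ?_ ?_ h3
  · -- (HB)
    intro K hr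
    have hpr : 4 * ε * n ≤ p * ((Finset.univ \ K).card : ℝ) := by
      have := mul_le_mul_of_nonneg_left hr hp0.le
      have e5 : p * lam / 8 * n = p * (lam * n / 2) / 4 := by ring
      rw [e5] at m4
      linarith
    have hb := high_bound H hp0.le hp1.le hε0.le hε1 hR h1 K hpr
    set r : ℝ := ((Finset.univ \ K).card : ℝ) with hrdef
    set h : ℝ := ((K \ Low H d K).card : ℝ) with hhdef
    have hr0 : 0 < r := lt_of_lt_of_le (by positivity) hr
    have hb2 : h * (p ^ 2 * r / 4) ≤ 2 * n + 3 * ε * n * r := by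
      have : (h * (p ^ 2 * r / 4)) * r ≤ (2 * n + 3 * ε * n * r) * r := by
        have e5 : (h * (p ^ 2 * r / 4)) * r = h * (p * r / 2) ^ 2 := by ring
        have e6 : (2 * n + 3 * ε * n * r) * r = 2 * r * n + 3 * ε * n * r ^ 2 := by ring
        rw [e5, e6]
        exact hb
      exact le_of_mul_le_mul_right this hr0
    have hb3 : 2 * n + 3 * ε * n * r ≤ η * n * (p ^ 2 * r / 4) := by
      have s1 : 3 * (ε * n) * r ≤ 3 * (η * p ^ 2 / 24 * n) * r :=
        mul_le_mul_of_nonneg_right (by linarith) hr0.le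
      have s2 : 2 * n ≤ η * p ^ 2 / 8 * n * r := by
        have s3 : η * p ^ 2 / 8 * n * (lam * n / 2) ≤ η * p ^ 2 / 8 * n * r :=
          mul_le_mul_of_nonneg_left hr (by positivity)
        have s4 : 2 * n ≤ η * p ^ 2 / 8 * n * (lam * n / 2) := by
          have s5 := mul_le_mul_of_nonneg_right hn2.le hnpos.le
          have s6 : η * p ^ 2 / 8 * n * (lam * n / 2) = lam * (η * p ^ 2) * n * n / 16 := by ring
          rw [s6]
          linarith
        linarith
      have e7 : η * n * (p ^ 2 * r / 4) =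
          η * p ^ 2 / 8 * n * r + 3 * (η * p ^ 2 / 24 * n) * r := by ring
      have e8 : 2 * n + 3 * ε * n * r = 2 * n + 3 * (ε * n) * r := by ring
      rw [e7, e8]
      linarith
    have hpos : 0 < p ^ 2 * r / 4 := by positivity
    exact le_of_mul_le_mul_right (hb2.trans hb3) hpos
  · -- (MX)
    intro A B hj hB
    have hb := mix H hp0.le hp1.le hε0.le hε1 hR A B hj
    set a : ℝ := (A.card : ℝ)
    set b : ℝ := (B.card : ℝ)
    have hb0 : 0 < b := lt_of_lt_of_le (by positivity) hB
    have hb2 : a * ((1 - p) ^ 2 * b) ≤ 2 * n + 3 * ε * n * b := by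
      have : (a * ((1 - p) ^ 2 * b)) * b ≤ (2 * n + 3 * ε * n * b) * b := by
        have e5 : (a * ((1 - p) ^ 2 * b)) * b = a * ((1 - p) * b) ^ 2 := by ring
        have e6 : (2 * n + 3 * ε * n * b) * b = 2 * b * n + 3 * ε * n * b ^ 2 := by ring
        rw [e5, e6]
        exact hb
      exact le_of_mul_le_mul_right this hb0
    have hb3 : 2 * n + 3 * ε * n * b < η * n * ((1 - p) ^ 2 * b) := by
      have s1 : 3 * (ε * n) * b ≤ 3 * (η * (1 - p) ^ 2 / 6 * n) * b :=
        mul_le_mul_of_nonneg_right (by linarith) hb0.le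
      have s2 : 2 * n < η * (1 - p) ^ 2 / 2 * n * b := by
        have s3 : η * (1 - p) ^ 2 / 2 * n * (η * n) ≤ η * (1 - p) ^ 2 / 2 * n * b :=
          mul_le_mul_of_nonneg_left hB (by positivity)
        have s4 : 2 * n < η * (1 - p) ^ 2 / 2 * n * (η * n) := by
          have s5 := mul_lt_mul_of_pos_right hn3 hnpos
          have s6 : η * (1 - p) ^ 2 / 2 * n * (η * n) = η ^ 2 * (1 - p) ^ 2 * n * n / 2 := by ring
          rw [s6]
          linarith
        linarith
      have e7 : η * n * ((1 - p) ^ 2 * b) =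
          η * (1 - p) ^ 2 / 2 * n * b + 3 * (η * (1 - p) ^ 2 / 6 * n) * b := by ring
      have e8 : 2 * n + 3 * ε * n * b = 2 * n + 3 * (ε * n) * b := by ring
      rw [e7, e8]
      linarith
    have hpos : 0 < (1 - p) ^ 2 * b := by positivity
    exact lt_of_mul_lt_mul_right (lt_of_le_of_lt hb2 hb3) hpos.le
  · have e5 : (p ^ 2 + ε) * n = p * n - p * (1 - p) * n + ε * n := by ring
    have e6 : (p - ε) * n = p * n - ε * n := by ring
    rw [e5, e6]
    linarith
  · linarith
  · linarith
  · have e6 : (p - ε) * n = p * n - ε * n := by ring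
    have e7 : p * (1 - p) * n ≤ p * n := by
      have : p * (1 - p) * n = p * n - p ^ 2 * n := by ring
      rw [this]
      have : 0 ≤ p ^ 2 * n := by positivity
      linarith
    rw [e6]
    linarith
  · have e5 : (p ^ 2 + ε) * n = p * n - p * (1 - p) * n + ε * n := by ring
    have e6 : (p - ε) * n = p * n - ε * n := by ring
    rw [e5, e6]
    linarith
  · positivity

end Pool.Agent.Lib.MP_a2d8aa_co.AA
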