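import Mathlib

/-!
# Definitions for the almost-all-graphs theorem (MP_a2d8aa_co)

`H` is the orthogonality graph, `d` the dimension; orders of the vertices are lists, the LAST
vertex is the head of the list.
-/

set_option autoImplicit false

open scoped Classical

noncomputable section

namespace Pool.Agent.Lib.MP_a2d8aa_co.AA

/-- the neighbours of `x` in the finite set `K` -/
def nb {V : Type*} (H : SimpleGraph V) (K : Finset V) (x : V) : Finset V :=
  K.filter (fun y => H.Adj x y)

/-- the vertices of `K` with fewer than `d` neighbours in `K` -/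
def Low {V : Type*} (H : SimpleGraph V) (d : ℕ) (K : Finset V) : Finset V :=
  K.filter (fun x => (nb H K x).card < d)

/-- Euclidean space -/
abbrev E (d : ℕ) : Type := EuclideanSpace ℝ (Fin d)

/-- allowed orders (last vertex first in the list): every vertex has fewer than `d` neighbours
before it -/
def Allowed {V : Type*} (H : SimpleGraph V) (d : ℕ) : List V → Prop
  | [] => True
  | x :: σ => Allowed H d σ ∧ x ∉ σ ∧ (nb H σ.toFinset x).card < d

/-- assignments that are linearly independent on `S` -/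
def Ind {V : Type*} (d : ℕ) (S : Finset V) : Set (V → E d) :=
  {c | LinearIndependent ℝ (fun s : S => c s)}

/-- orthogonal representations that are regular along the order: the earlier neighbours of every
vertex get linearly independent vectors -/
def U {V : Type*} (H : SimpleGraph V) (d : ℕ) : List V → Set (V → E d)
  | [] => Set.univ
  | x :: σ => {c | c ∈ U H d σ ∧ c ∈ Ind d (nb H σ.toFinset x) ∧
      ∀ y ∈ σ, H.Adj x y → inner ℝ (c x) (c y) = 0}

/-- the combinatorial conditions on `H` and `d` -/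
structure Conds {V : Type*} (H : SimpleGraph V) (d : ℕ) : Prop where
  conn : ∀ K : Finset V, d < K.card → ∀ x ∈ Low H d K, ∀ y ∈ Low H d K,
    Relation.ReflTransGen (fun a b => a ∈ Low H d K ∧ b ∈ Low H d K ∧ a ≠ b ∧ ¬ H.Adj a b) x y
  out : ∀ K : Finset V, d < K.card → ∀ x, x ∉ K → (nb H K x).card < d → ∀ j ∈ K, ¬ H.Adj x j →
    ∃ y ∈ Low H d K, ¬ H.Adj x y ∧ y ≠ j
  three : ∀ K : Finset V, d < K.card → ∀ x j : V, ∃ y ∈ Low H d K, y ≠ x ∧ y ≠ j

/-- degrees close to `p n`, codegrees at most `(p^2 + ε) n` -/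
structure Reg0 {V : Type*} [Fintype V] (H : SimpleGraph V) (p ε : ℝ) : Prop where
  deg_lb : ∀ u : V, (p - ε) * (Fintype.card V : ℝ) ≤ ((nb H Finset.univ u).card : ℝ)
  deg_ub : ∀ u : V, ((nb H Finset.univ u).card : ℝ) ≤ (p + ε) * (Fintype.card V : ℝ)
  codeg : ∀ u v : V, u ≠ v →
    ((nb H (nb H Finset.univ u) v).card : ℝ) ≤ (p ^ 2 + ε) * (Fintype.card V : ℝ)

/-- many non-neighbours `u` of every vertex `w` with degree at most `t` -/
def ManyLow {V : Type*} [Fintype V] (H : SimpleGraph V) (lam t : ℝ) : Prop :=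
  ∀ w : V, lam * (Fintype.card V : ℝ) ≤ ((Finset.univ.filter (fun u : V =>
    u ≠ w ∧ ¬ H.Adj w u ∧ ((nb H Finset.univ u).card : ℝ) ≤ t)).card : ℝ)

/-! finite product probability -/

/-- weight of a 0-1 configuration -/
def wt {I : Type*} [Fintype I] (p : ℝ) (f : I → Bool) : ℝ := ∏ i, (if f i then p else 1 - p)

/-- expectation -/
def Ex {I : Type*} [Fintype I] (p : ℝ) (F : (I → Bool) → ℝ) : ℝ := ∑ f, wt p f * F f

/-- probability -/
def Pr {I : Type*} [Fintype I] (p : ℝ) (A : (I → Bool) → Prop) : ℝ :=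
  Ex p (fun f => if A f then 1 else 0)

/-- the function depends only on the coordinates in `J` -/
def DepOn {I α : Type*} (J : Finset I) (F : (I → Bool) → α) : Prop :=
  ∀ f g : I → Bool, (∀ i ∈ J, f i = g i) → F f = F g

/-- unordered pairs of distinct elements of `Fin n` -/
abbrev Ed (n : ℕ) : Type := {e : Sym2 (Fin n) // ¬ e.IsDiag}

/-- the edge `uv` -/
def ed {n : ℕ} (u v : Fin n) (h : u ≠ v) : Ed n := ⟨s(u, v), by simpa using h⟩

/-- the graph with the edges `e`, `f e = true` -/
def gr (n : ℕ) (f : Ed n → Bool) : SimpleGraph (Fin n) where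
  Adj u v := ∃ h : u ≠ v, f (ed u v h) = true
  symm := ⟨by
    rintro u v ⟨h, h2⟩
    refine ⟨h.symm, ?_⟩
    have : ed v u h.symm = ed u v h := Subtype.ext (Sym2.eq_swap)
    rw [this]; exact h2⟩
  loopless := ⟨fun u ⟨h, _⟩ => h rfl⟩

/-- probability in `G(n,p)`, written out -/
def PrG (n : ℕ) (p : ℝ) (P : SimpleGraph (Fin n) → Prop) : ℝ :=
  ∑ G : SimpleGraph (Fin n), if P G then p ^ G.edgeSet.ncard * (1 - p) ^ Gᶜ.edgeSet.ncard else 0

end Pool.Agent.Lib.MP_a2d8aa_co.AA
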