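import Pool.Agent.Lib.MP_a2d8aa_co.AA.Order

/-!
# Module AA-Faith: existence of a faithful orthogonal representation
-/

set_option autoImplicit false

open scoped Classical

noncomputable section

namespace Pool.Agent.Lib.MP_a2d8aa_co.AA

variable {V : Type*} {d : ℕ}

/-- `N(x) ∪ {j}` is independent in a dense part -/
theorem dense_ind (H : SimpleGraph V) (hC : Conds H d) {σ : List V} {x : V} (hx : x ∉ σ)
    (h : Allowed H d σ) (hlt : (nb H σ.toFinset x).card < d) {S : Finset V}
    (hS : S = nb H σ.toFinset x ∨ ∃ j ∈ σ, ¬ H.Adj x j ∧ S = insert j (nb H σ.toFinset x)) :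
    U H d σ ⊆ closure (U H d σ ∩ Ind d S) := by
  have hN : nb H σ.toFinset x ⊆ σ.toFinset := Finset.filter_subset _ _
  have hSK : S ⊆ σ.toFinset := by
    rcases hS with rfl | ⟨j, hj, -, rfl⟩
    · exact hN
    · exact Finset.insert_subset (List.mem_toFinset.2 hj) hN
  have hSd : S.card ≤ d := by
    rcases hS with rfl | ⟨j, hj, -, rfl⟩
    · exact hlt.le
    · exact (Finset.card_insert_le _ _).trans hlt
  obtain ⟨ρ, s, hs, hρ, hA⟩ := exists_allowed_first H S σ.toFinset hSK hSd (by
    intro L hSL hLK hL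
    have hxL : x ∉ L := fun h0 => hx (List.mem_toFinset.1 (hLK h0))
    have hltL : (nb H L x).card < d := lt_of_le_of_lt (nb_mono H hLK x) hlt
    obtain ⟨j, hjL, hadj, hjS⟩ : ∃ j ∈ L, ¬ H.Adj x j ∧ ∀ y ∈ S, ¬ H.Adj x y → y = j := by
      rcases hS with rfl | ⟨j, hj, hadj, rfl⟩
      · obtain ⟨j, hjL, hj⟩ := Finset.exists_mem_notMem_of_card_lt_card (hltL.trans hL)
        refine ⟨j, hjL, fun h0 => hj (Finset.mem_filter.2 ⟨hjL, h0⟩), ?_⟩
        intro y hy hy2
        exact absurd (Finset.mem_filter.1 hy).2 hy2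
      · refine ⟨j, hSL (Finset.mem_insert_self _ _), hadj, ?_⟩
        intro y hy hy2
        rcases Finset.mem_insert.1 hy with rfl | hy
        · rfl
        · exact absurd (Finset.mem_filter.1 hy).2 hy2
    obtain ⟨y, hy, hy1, hy2⟩ := hC.out L hL x hxL hltL j hjL hadj
    exact ⟨y, hy, fun h0 => hy2 (hjS y h0 hy1)⟩)
  have hnd : (ρ ++ s).Nodup := allowed_nodup H hA
  have hs1 : s.Nodup := (List.nodup_append.1 hnd).2.1
  have hlen : s.length ≤ d := by
    rw [← List.toFinset_card_of_nodup hs1, hs]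
    exact hSd
  have h1 := base_dense (d := d) H hs1 hlen
  rw [hs] at h1
  have h2 : U H d (ρ ++ s) ⊆ closure (U H d (ρ ++ s) ∩ Ind d S) := by
    refine lift_dense H ρ hnd ?_ h1
    intro z hz c hc v
    exact Ind_update (by rw [← hs]; simpa using hz) v hc
  exact transfer (order_equiv H hC σ (ρ ++ s) h hA hρ.symm) h2
    (order_equiv H hC (ρ ++ s) σ hA h hρ) (isOpen_Ind d S)

theorem U_nonempty (H : SimpleGraph V) (hC : Conds H d) (π : List V) (h : Allowed H d π) :
    (U H d π).Nonempty := by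
  induction π with
  | nil => exact ⟨fun _ => 0, trivial⟩
  | cons x σ ih =>
    obtain ⟨c0, hc0⟩ := ih h.1
    have h1 := dense_ind H hC h.2.1 h.1 h.2.2 (Or.inl rfl) hc0
    obtain ⟨c, hc⟩ := closure_nonempty_iff.1 ⟨c0, h1⟩
    have hxN : x ∉ nb H σ.toFinset x := fun h0 => H.irrefl (Finset.mem_filter.1 h0).2
    refine ⟨Function.update c x 0, U_update H h.2.1 0 hc.1, Ind_update hxN 0 hc.2, ?_⟩
    intro y hy _
    rw [Function.update_self, inner_zero_left]

theorem exists_order_pair (H : SimpleGraph V) (hC : Conds H d) (K : Finset V) {x j : V}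
    (hx : x ∈ K) (hj : j ∈ K) (hne : x ≠ j) :
    ∃ τ σ : List V, Allowed H d (τ ++ x :: σ) ∧ (τ ++ x :: σ).toFinset = K ∧ j ∈ σ := by
  induction' hn : K.card using Nat.strong_induction_on with n ih generalizing K
  by_cases hlow : (nb H K x).card < d
  · obtain ⟨σ, hσ, hA⟩ := exists_allowed H hC (K.erase x)
    refine ⟨[], σ, ⟨hA, ?_, ?_⟩, ?_, ?_⟩
    · rw [← List.mem_toFinset, hσ]; simp
    · rw [hσ]; exact lt_of_le_of_lt (nb_mono H (Finset.erase_subset _ _) x) hlow
    · rw [List.nil_append, List.toFinset_cons, hσ, Finset.insert_erase hx]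
    · rw [← List.mem_toFinset, hσ]; exact Finset.mem_erase.2 ⟨hne.symm, hj⟩
  · have hKd : d < K.card := by
      by_contra h0
      exact hlow (nb_lt_of_card_le H hx (not_lt.1 h0))
    obtain ⟨y, hy, hyx, hyj⟩ := hC.three K hKd x j
    rw [Low, Finset.mem_filter] at hy
    obtain ⟨τ, σ, hA, hset, hjσ⟩ := ih (K.erase y).card
      (by rw [← hn]; exact Finset.card_erase_lt_of_mem hy.1) (K.erase y)
      (Finset.mem_erase.2 ⟨hyx.symm, hx⟩) (Finset.mem_erase.2 ⟨hyj.symm, hj⟩) rfl
    refine ⟨y :: τ, σ, ⟨hA, ?_, ?_⟩, ?_, hjσ⟩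
    · show y ∉ τ ++ x :: σ
      rw [← List.mem_toFinset, hset]; simp
    · show (nb H (τ ++ x :: σ).toFinset y).card < d
      rw [hset]; exact lt_of_le_of_lt (nb_mono H (Finset.erase_subset _ _) y) hy.2
    · rw [List.cons_append, List.toFinset_cons, hset, Finset.insert_erase hy.1]

/-- the vector that separates `c j` from the vectors `c s`, `s ∈ N` -/
theorem exists_sep {N : Finset V} {j : V} (hj : j ∉ N) {c : V → E d}
    (hc : c ∈ Ind d (insert j N)) :
    ∃ w : E d, (∀ s ∈ N, inner ℝ w (c s) = 0) ∧ inner ℝ w (c j) ≠ 0 := by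
  set M : Submodule ℝ (E d) := Submodule.span ℝ (c '' (N : Set V)) with hM
  have hnot : c j ∉ M := by
    have h1 : LinearIndepOn ℝ c (insert j (N : Set V)) := by
      have h2 : LinearIndependent ℝ (fun s : ((insert j N : Finset V) : Set V) => c s) := hc
      rw [← Finset.coe_insert]
      exact h2
    exact (linearIndepOn_insert (by simpa using hj)).1 h1 |>.2
  refine ⟨c j - M.starProjection (c j), ?_, ?_⟩
  · intro s hs
    have h1 : c j - M.starProjection (c j) ∈ Mᗮ := Submodule.sub_starProjection_mem_orthogonal _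
    exact (Submodule.mem_orthogonal' M _).1 h1 (c s)
      (Submodule.subset_span ⟨s, hs, rfl⟩)
  · intro h0
    have h1 : c j - M.starProjection (c j) ∈ Mᗮ := Submodule.sub_starProjection_mem_orthogonal _
    have h2 : inner ℝ (c j - M.starProjection (c j)) (M.starProjection (c j)) = 0 :=
      (Submodule.mem_orthogonal' M _).1 h1 _ (Submodule.starProjection_apply_mem _ _)
    have h3 : inner ℝ (c j - M.starProjection (c j)) (c j - M.starProjection (c j)) = 0 := by
      rw [inner_sub_right, h0, h2, sub_zero]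
    rw [inner_self_eq_zero, sub_eq_zero] at h3
    exact hnot (h3 ▸ Submodule.starProjection_apply_mem _ _)

theorem pair_dense (H : SimpleGraph V) (hC : Conds H d) {σ : List V} {x j : V}
    (h : Allowed H d (x :: σ)) (hj : j ∈ σ) (hadj : ¬ H.Adj x j) :
    U H d (x :: σ) ⊆ closure (U H d (x :: σ) ∩ {c | inner ℝ (c x) (c j) ≠ 0}) := by
  have hx : x ∉ σ := h.2.1
  have hxj : j ≠ x := fun h0 => hx (h0 ▸ hj)
  have hjN : j ∉ nb H σ.toFinset x := fun h0 => hadj (Finset.mem_filter.1 h0).2
  set S : Finset V := insert j (nb H σ.toFinset x) with hS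
  have hxS : x ∉ S := by
    rw [hS, Finset.mem_insert]
    rintro (h0 | h0)
    · exact hxj h0.symm
    · exact H.irrefl (Finset.mem_filter.1 h0).2
  have h1 := dense_ind H hC hx h.1 h.2.2 (S := S) (Or.inr ⟨j, hj, hadj, rfl⟩)
  have h2 := ext_closure H hx rfl (B := U H d σ ∩ Ind d S) Set.inter_subset_left
    (fun c hc v => ⟨U_update H hx v hc.1, Ind_update hxS v hc.2⟩) h1
  refine h2.trans (closure_minimal ?_ isClosed_closure)
  rintro c ⟨hc1, hc2, hc3⟩
  obtain ⟨w, hw1, hw2⟩ := exists_sep hjN hc3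
  refine perturb H hx hc1 (w := w) ?_ (-(inner ℝ (c x) (c j)) / inner ℝ w (c j)) ?_
  · intro y hy hxy
    exact hw1 y (Finset.mem_filter.2 ⟨List.mem_toFinset.2 hy, hxy⟩)
  · intro t ht _
    show inner ℝ (Function.update c x (c x + t • w) x) (Function.update c x (c x + t • w) j) ≠ 0
    rw [Function.update_self, Function.update_of_ne hxj, inner_add_left, real_inner_smul_left]
    intro h0
    apply ht
    rw [eq_div_iff hw2]
    linarith

theorem exists_faithful [Fintype V] (H : SimpleGraph V) (hC : Conds H d) :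
    ∃ c : V → E d, ∀ u v : V, u ≠ v → (inner ℝ (c u) (c v) = 0 ↔ H.Adj u v) := by
  obtain ⟨π, hπ, hA⟩ := exists_allowed H hC Finset.univ
  have hopen : ∀ x j : V, IsOpen {c : V → E d | inner ℝ (c x) (c j) ≠ 0} := by
    intro x j
    have h1 : Continuous fun c : V → E d => inner ℝ (c x) (c j) :=
      (continuous_apply x).inner (continuous_apply j)
    exact isOpen_ne.preimage h1
  have hpair : ∀ x j : V, x ≠ j → ¬ H.Adj x j →
      U H d π ⊆ closure (U H d π ∩ {c | inner ℝ (c x) (c j) ≠ 0}) := by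
    intro x j hne hadj
    obtain ⟨τ, σ, hA2, hset, hj⟩ := exists_order_pair H hC Finset.univ (Finset.mem_univ x)
      (Finset.mem_univ j) hne
    have hAx : Allowed H d (x :: σ) := by
      clear hset
      induction τ with
      | nil => exact hA2
      | cons a τ ih => exact ih hA2.1
    have h1 := pair_dense H hC hAx hj hadj
    have h2 := lift_dense H τ (allowed_nodup H hA2)
      (Q := {c : V → E d | inner ℝ (c x) (c j) ≠ 0}) (by
        intro z hz c hc v
        have hzx : x ≠ z := fun h0 => hz (by rw [← h0]; simp)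
        have hzj : j ≠ z := fun h0 => hz (by rw [← h0]; simp [hj])
        show inner ℝ (Function.update c z v x) (Function.update c z v j) ≠ 0
        rw [Function.update_of_ne hzx, Function.update_of_ne hzj]
        exact hc) h1
    exact transfer (order_equiv H hC _ _ hA hA2 (hπ.trans hset.symm)) h2
      (order_equiv H hC _ _ hA2 hA (hset.trans hπ.symm)) (hopen x j)
  have hall : ∀ s : Finset (V × V), (∀ q ∈ s, q.1 ≠ q.2 ∧ ¬ H.Adj q.1 q.2) →
      IsOpen {c : V → E d | ∀ q ∈ s, inner ℝ (c q.1) (c q.2) ≠ 0} ∧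
      U H d π ⊆ closure (U H d π ∩ {c | ∀ q ∈ s, inner ℝ (c q.1) (c q.2) ≠ 0}) := by
    intro s
    induction s using Finset.induction_on with
    | empty =>
      intro _
      have h0 : {c : V → E d | ∀ q ∈ (∅ : Finset (V × V)), inner ℝ (c q.1) (c q.2) ≠ 0} =
          Set.univ := by
        ext c; simp
      rw [h0, Set.inter_univ]
      exact ⟨isOpen_univ, subset_closure⟩
    | insert q s hq ih =>
      intro hs
      obtain ⟨h1, h2⟩ := ih fun r hr => hs r (Finset.mem_insert_of_mem hr)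
      have hq' := hs q (Finset.mem_insert_self _ _)
      have e : {c : V → E d | ∀ r ∈ insert q s, inner ℝ (c r.1) (c r.2) ≠ 0} =
          {c | inner ℝ (c q.1) (c q.2) ≠ 0} ∩ {c | ∀ r ∈ s, inner ℝ (c r.1) (c r.2) ≠ 0} := by
        ext c
        simp only [Set.mem_ofPred_eq, Finset.mem_insert, forall_eq_or_imp, Set.mem_inter_iff]
      rw [e]
      exact ⟨(hopen _ _).inter h1,
        dense_inter (hpair q.1 q.2 hq'.1 hq'.2) h2 (hopen _ _) h1⟩
  obtain ⟨-, h2⟩ := hall (Finset.univ.filter fun q : V × V => q.1 ≠ q.2 ∧ ¬ H.Adj q.1 q.2)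
    (fun q hq => (Finset.mem_filter.1 hq).2)
  obtain ⟨c0, hc0⟩ := U_nonempty H hC π hA
  obtain ⟨c, hc1, hc2⟩ := closure_nonempty_iff.1 ⟨c0, h2 hc0⟩
  refine ⟨c, fun u v huv => ⟨fun h0 => ?_, fun h0 => ?_⟩⟩
  · by_contra h3
    exact hc2 (u, v) (Finset.mem_filter.2 ⟨Finset.mem_univ _, huv, h3⟩) h0
  · have hmem : ∀ z : V, z ∈ π := fun z => List.mem_toFinset.1 (by rw [hπ]; simp)
    exact U_orth H hc1 u (hmem u) v (hmem v) h0

/-- the matrix form -/
theorem exists_matrix {n : ℕ} (H : SimpleGraph (Fin n)) (hC : Conds H d) :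
    ∃ A : Matrix (Fin n) (Fin n) ℝ, A.PosSemidef ∧
      (∀ i j, i ≠ j → (A i j ≠ 0 ↔ Hᶜ.Adj i j)) ∧ A.rank ≤ d := by
  obtain ⟨c, hc⟩ := exists_faithful H hC
  refine ⟨(Matrix.of fun i (k : Fin d) => c i k) * (Matrix.of fun i (k : Fin d) => c i k).conjTranspose,
    Matrix.posSemidef_self_mul_conjTranspose _, ?_, ?_⟩
  · intro i j hij
    have h1 : ((Matrix.of fun i (k : Fin d) => c i k) *
        (Matrix.of fun i (k : Fin d) => c i k).conjTranspose) i j = inner ℝ (c i) (c j) := by
      rw [Matrix.mul_apply, PiLp.inner_apply]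
      refine Finset.sum_congr rfl fun k _ => ?_
      simp only [Matrix.of_apply, Matrix.conjTranspose_apply, star_trivial]
      simp [mul_comm]
    rw [h1, SimpleGraph.compl_adj]
    have h2 := hc i j hij
    constructor
    · intro h3
      exact ⟨hij, fun h4 => h3 (h2.2 h4)⟩
    · intro h3 h4
      exact h3.2 (h2.1 h4)
  · have h1 := Matrix.rank_mul_le_left (Matrix.of fun i (k : Fin d) => c i k)
      (Matrix.of fun i (k : Fin d) => c i k).conjTranspose
    have h2 := Matrix.rank_le_width (Matrix.of fun i (k : Fin d) => c i k)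
    exact h1.trans h2

end Pool.Agent.Lib.MP_a2d8aa_co.AA
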