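import Pool.Agent.Lib.MP_a2d8aa_co.AA.PrBasic

/-!
# Module AA-Gnp: `G(n,p)` as a product space

PROOFS.  `gr n` is a bijection from `Ed n → Bool` to `SimpleGraph (Fin n)` (inverse: `f e = true` iff
`e ∈ G.edgeSet`).  `(gr n f).edgeSet` corresponds to `{e | f e = true}` and `(gr n f)ᶜ.edgeSet` to
`{e | f e = false}`, so `wt p f = p ^ #true * (1-p) ^ #false` (`Finset.prod_ite`, `Finset.prod_const`)
is the weight in `PrG`.  `PrG_eq`: reindex the sum.
`nb_univ_card`: `(nb (gr n f) univ u).card` = number of `v ≠ u` with `f (ed u v _) = true`.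
-/

set_option autoImplicit false

open scoped Classical

noncomputable section

namespace Pool.Agent.Lib.MP_a2d8aa_co.AA

theorem gr_compl (n : ℕ) (f : Ed n → Bool) : gr n (fun e => !f e) = (gr n f)ᶜ := by
  ext u v
  rw [SimpleGraph.compl_adj]
  constructor
  · rintro ⟨h, h2⟩
    refine ⟨h, ?_⟩
    rintro ⟨h', h3⟩
    simp [h3] at h2
  · rintro ⟨h, h2⟩
    refine ⟨h, ?_⟩
    have h3 : f (ed u v h) ≠ true := fun h4 => h2 ⟨h, h4⟩
    simpa using h3

theorem gr_adj {n : ℕ} (f : Ed n → Bool) {u v : Fin n} (h : u ≠ v) :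
    (gr n f).Adj u v ↔ f (ed u v h) = true :=
  ⟨fun ⟨_, h2⟩ => h2, fun h2 => ⟨h, h2⟩⟩

private theorem mem_edgeSet_gr {n : ℕ} (f : Ed n → Bool) (e : Ed n) :
    e.1 ∈ (gr n f).edgeSet ↔ f e = true := by
  obtain ⟨e, he⟩ := e
  induction e using Sym2.ind with
  | _ u v =>
    have huv : u ≠ v := by simpa using he
    rw [SimpleGraph.mem_edgeSet, gr_adj f huv]
    rfl

private theorem edgeSet_gr {n : ℕ} (f : Ed n → Bool) :
    (gr n f).edgeSet = ((Finset.univ.filter (fun e : Ed n => f e = true)).map
      (Function.Embedding.subtype _) : Finset (Sym2 (Fin n))) := by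
  ext e
  simp only [Finset.coe_map, Function.Embedding.subtype_apply, Finset.coe_filter,
    Finset.mem_univ, true_and, Set.mem_image, Set.mem_ofPred_eq]
  constructor
  · intro h
    have hd : ¬ e.IsDiag := SimpleGraph.not_isDiag_of_mem_edgeSet _ h
    exact ⟨⟨e, hd⟩, (mem_edgeSet_gr f ⟨e, hd⟩).1 h, rfl⟩
  · rintro ⟨x, hx, rfl⟩
    exact (mem_edgeSet_gr f x).2 hx

private theorem ncard_gr {n : ℕ} (f : Ed n → Bool) :
    (gr n f).edgeSet.ncard = (Finset.univ.filter (fun e : Ed n => f e = true)).card := by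
  rw [edgeSet_gr, Set.ncard_coe_finset, Finset.card_map]

private theorem gr_bij (n : ℕ) : Function.Bijective (gr n) := by
  constructor
  · intro f g hfg
    funext e
    have h1 := mem_edgeSet_gr f e
    have h2 := mem_edgeSet_gr g e
    rw [hfg] at h1
    have h3 : f e = true ↔ g e = true := h1.symm.trans h2
    cases hf : f e <;> cases hg : g e <;> simp_all
  · intro G
    refine ⟨fun e => decide (e.1 ∈ G.edgeSet), ?_⟩
    ext u v
    constructor
    · rintro ⟨h, h2⟩
      have h3 : (ed u v h).1 ∈ G.edgeSet := by simpa using h2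
      simpa [ed] using h3
    · intro h
      refine ⟨h.ne, ?_⟩
      have h3 : (ed u v h.ne).1 ∈ G.edgeSet := by
        simpa [ed] using h
      simpa using h3

private theorem wt_eq {n : ℕ} (p : ℝ) (f : Ed n → Bool) :
    p ^ (gr n f).edgeSet.ncard * (1 - p) ^ (gr n f)ᶜ.edgeSet.ncard = wt p f := by
  rw [← gr_compl, ncard_gr, ncard_gr]
  unfold wt
  rw [Finset.prod_ite, Finset.prod_const, Finset.prod_const]
  congr 3
  refine Finset.filter_congr fun e _ => ?_
  simp

theorem PrG_eq (n : ℕ) (p : ℝ) (P : SimpleGraph (Fin n) → Prop) :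
    PrG n p P = Pr p (fun f : Ed n → Bool => P (gr n f)) := by
  unfold PrG Pr Ex
  rw [← Equiv.sum_comp (Equiv.ofBijective (gr n) (gr_bij n))]
  refine Finset.sum_congr (by ext; simp) fun f _ => ?_
  simp only [Equiv.ofBijective_apply]
  rw [wt_eq]
  by_cases h : P (gr n f) <;> simp [h]

/-- complement of a regular graph -/
theorem Reg0_compl {V : Type*} [Fintype V] (H : SimpleGraph V) {p ε : ℝ} (he : 0 ≤ ε)
    (hn : 1 ≤ ε * (Fintype.card V : ℝ)) (h : Reg0 H p ε) : Reg0 Hᶜ (1 - p) (4 * ε) := by
  have hdeg : ∀ u : V, ((nb Hᶜ Finset.univ u).card : ℝ) + ((nb H Finset.univ u).card : ℝ) + 1 =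
      (Fintype.card V : ℝ) := by
    intro u
    have hU : (Finset.univ : Finset V) = (nb Hᶜ Finset.univ u ∪ nb H Finset.univ u) ∪ {u} := by
      ext v
      simp only [nb, Finset.mem_univ, Finset.mem_union, Finset.mem_filter, true_and,
        SimpleGraph.compl_adj, Finset.mem_singleton, true_iff]
      by_cases h1 : v = u
      · exact Or.inr h1
      · by_cases h2 : H.Adj u v
        · exact Or.inl (Or.inr h2)
        · exact Or.inl (Or.inl ⟨fun h3 => h1 h3.symm, h2⟩)
    have hd1 : Disjoint (nb Hᶜ Finset.univ u) (nb H Finset.univ u) := by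
      rw [Finset.disjoint_left]
      intro v hv hv2
      simp only [nb, Finset.mem_filter, SimpleGraph.compl_adj] at hv hv2
      exact hv.2.2 hv2.2
    have hd2 : Disjoint (nb Hᶜ Finset.univ u ∪ nb H Finset.univ u) {u} := by
      rw [Finset.disjoint_singleton_right, Finset.mem_union]
      simp only [nb, Finset.mem_filter, SimpleGraph.compl_adj]
      rintro (h1 | h1)
      · exact h1.2.1 rfl
      · exact H.loopless.irrefl u h1.2
    have := congrArg Finset.card hU
    rw [Finset.card_union_of_disjoint hd2, Finset.card_union_of_disjoint hd1,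
      Finset.card_singleton, Finset.card_univ] at this
    exact_mod_cast this.symm
  have hN0 : (0 : ℝ) ≤ (Fintype.card V : ℝ) := Nat.cast_nonneg _
  refine ⟨fun u => ?_, fun u => ?_, fun u v huv => ?_⟩
  · have h1 := hdeg u
    have h2 := h.deg_ub u
    nlinarith
  · have h1 := hdeg u
    have h2 := h.deg_lb u
    nlinarith
  · -- codegree in the complement
    have hsub : nb Hᶜ (nb Hᶜ Finset.univ u) v ⊆
        Finset.univ \ (nb H Finset.univ u ∪ nb H Finset.univ v) := by
      intro x hx
      simp only [nb, Finset.mem_filter, SimpleGraph.compl_adj, Finset.mem_univ, true_and] at hx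
      simp only [nb, Finset.mem_sdiff, Finset.mem_univ, true_and, Finset.mem_union,
        Finset.mem_filter]
      rintro (h1 | h1)
      · exact hx.1.2 h1
      · exact hx.2.2 h1
    have hc1 := Finset.card_le_card hsub
    have hc2 : (Finset.univ \ (nb H Finset.univ u ∪ nb H Finset.univ v)).card +
        (nb H Finset.univ u ∪ nb H Finset.univ v).card = Fintype.card V := by
      rw [Finset.card_sdiff_add_card_eq_card (Finset.subset_univ _), Finset.card_univ]
    have hc3 := Finset.card_union_add_card_inter (nb H Finset.univ u) (nb H Finset.univ v)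
    have hint : nb H Finset.univ u ∩ nb H Finset.univ v = nb H (nb H Finset.univ u) v := by
      ext x
      simp [nb]
    rw [hint] at hc3
    have hc1' : ((nb Hᶜ (nb Hᶜ Finset.univ u) v).card : ℝ) ≤
        ((Finset.univ \ (nb H Finset.univ u ∪ nb H Finset.univ v)).card : ℝ) := by
      exact_mod_cast hc1
    have hc2' : ((Finset.univ \ (nb H Finset.univ u ∪ nb H Finset.univ v)).card : ℝ) +
        ((nb H Finset.univ u ∪ nb H Finset.univ v).card : ℝ) = (Fintype.card V : ℝ) := by
      exact_mod_cast hc2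
    have hc3' : ((nb H Finset.univ u ∪ nb H Finset.univ v).card : ℝ) +
        ((nb H (nb H Finset.univ u) v).card : ℝ) =
        ((nb H Finset.univ u).card : ℝ) + ((nb H Finset.univ v).card : ℝ) := by
      exact_mod_cast hc3
    have h1 := h.deg_lb u
    have h2 := h.deg_lb v
    have h3 := h.codeg u v huv
    nlinarith

end Pool.Agent.Lib.MP_a2d8aa_co.AA
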