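import Pool.Agent.Lib.MP_a2d8aa_co.AA.PrBasic

/-!
# Module AA-Hoeff: exponential bounds for sums of independent variables

PROOF.  `exp x ≤ 1 + x + x²` for `|x| ≤ 1` (Mathlib: `Real.abs_exp_sub_one_sub_id_le`), so
`Ex exp(l Z) ≤ 1 + l Ex Z + l² Ex Z² ≤ 1 + l² ≤ exp (l²)` when `|l| ≤ 1`, `|Z| ≤ 1`, `Ex Z = 0`.
`exp_bound`: `Ex_prod_of_dep` for `exp (l ∑ Z_i) = ∏ exp (l Z_i)`.
`tail`: Markov for `exp (l ∑ Z_i)` with `l = ε / 2`.
`count_upper`, `count_lower`: `Z_i = ± (1_{A_i} - π_i)` where `π_i = Pr p (A i)`.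
-/

set_option autoImplicit false

open scoped Classical

noncomputable section

namespace Pool.Agent.Lib.MP_a2d8aa_co.AA

variable {I : Type*} [Fintype I] {p : ℝ} {ι : Type*}

theorem exp_bound (hp0 : 0 ≤ p) (hp1 : p ≤ 1) (s : Finset ι) (J : ι → Finset I)
    (hd : (s : Set ι).PairwiseDisjoint J) (Z : ι → (I → Bool) → ℝ)
    (hZ : ∀ i ∈ s, DepOn (J i) (Z i)) (h1 : ∀ i ∈ s, ∀ f, |Z i f| ≤ 1)
    (h0 : ∀ i ∈ s, Ex p (Z i) = 0) {l : ℝ} (hl : |l| ≤ 1) :
    Ex p (fun f => Real.exp (l * ∑ i ∈ s, Z i f)) ≤ Real.exp (l ^ 2 * (s.card : ℝ)) := by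
  have h2 : ∀ i ∈ s, Ex p (fun f => Real.exp (l * Z i f)) ≤ Real.exp (l ^ 2) := by
    intro i hi
    have e1 : ∀ f, Real.exp (l * Z i f) ≤ (1 + l ^ 2) + l * Z i f := by
      intro f
      have hz := h1 i hi f
      have hlz : |l * Z i f| ≤ 1 := by
        rw [abs_mul]
        exact mul_le_one₀ hl (abs_nonneg _) hz
      have h3 := (abs_le.mp (Real.abs_exp_sub_one_sub_id_le hlz)).2
      have h4 : (l * Z i f) ^ 2 ≤ l ^ 2 := by
        rw [mul_pow]
        have h5 : (Z i f) ^ 2 ≤ 1 := by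
          rw [← sq_abs]
          exact pow_le_one₀ (abs_nonneg _) hz
        nlinarith [sq_nonneg l]
      linarith
    have e2 := Ex_mono hp0 hp1 e1
    rw [Ex_add, Ex_const, Ex_smul, h0 i hi, mul_zero, add_zero] at e2
    have e3 := Real.add_one_le_exp (l ^ 2)
    linarith
  have h3 : ∀ i ∈ s, 0 ≤ Ex p (fun f => Real.exp (l * Z i f)) := by
    intro i _
    have := Ex_mono (F := fun _ : I → Bool => (0 : ℝ)) hp0 hp1
      (fun f => (Real.exp_pos (l * Z i f)).le)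
    rwa [Ex_const] at this
  have e : (fun f : I → Bool => Real.exp (l * ∑ i ∈ s, Z i f)) =
      fun f => ∏ i ∈ s, Real.exp (l * Z i f) := by
    funext f
    rw [Finset.mul_sum, Real.exp_sum]
  rw [e, Ex_prod_of_dep p s J hd (fun i f => Real.exp (l * Z i f))]
  · refine (Finset.prod_le_prod h3 h2).trans (le_of_eq ?_)
    rw [Finset.prod_const, ← Real.exp_nat_mul]
    congr 1
    ring
  · intro i hi f g hfg
    change Real.exp (l * Z i f) = Real.exp (l * Z i g)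
    rw [hZ i hi f g hfg]

theorem tail (hp0 : 0 ≤ p) (hp1 : p ≤ 1) (s : Finset ι) (J : ι → Finset I)
    (hd : (s : Set ι).PairwiseDisjoint J) (Z : ι → (I → Bool) → ℝ)
    (hZ : ∀ i ∈ s, DepOn (J i) (Z i)) (h1 : ∀ i ∈ s, ∀ f, |Z i f| ≤ 1)
    (h0 : ∀ i ∈ s, Ex p (Z i) = 0) {ε : ℝ} (he0 : 0 ≤ ε) (he2 : ε ≤ 2) :
    Pr p (fun f => ε * (s.card : ℝ) ≤ ∑ i ∈ s, Z i f) ≤
      Real.exp (-(ε ^ 2 * (s.card : ℝ) / 4)) := by
  have hl : |ε / 2| ≤ 1 := by
    rw [abs_of_nonneg (by linarith)]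
    linarith
  have hb := exp_bound hp0 hp1 s J hd Z hZ h1 h0 hl
  have hm := Pr_markov (I := I) hp0 hp1 (F := fun f => Real.exp (ε / 2 * ∑ i ∈ s, Z i f))
    (fun f => (Real.exp_pos _).le) (Real.exp_pos (ε / 2 * (ε * (s.card : ℝ))))
  refine (Pr_mono hp0 hp1 (B := fun f => Real.exp (ε / 2 * (ε * (s.card : ℝ))) ≤
    Real.exp (ε / 2 * ∑ i ∈ s, Z i f)) ?_).trans (hm.trans ?_)
  · intro f hf
    exact Real.exp_le_exp.mpr (mul_le_mul_of_nonneg_left hf (by linarith))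
  · rw [div_le_iff₀ (Real.exp_pos _), ← Real.exp_add]
    refine hb.trans (le_of_eq ?_)
    congr 1
    ring

/-- upper tail of the number of the events that occur -/
theorem count_upper (hp0 : 0 ≤ p) (hp1 : p ≤ 1) (s : Finset ι) (J : ι → Finset I)
    (hd : (s : Set ι).PairwiseDisjoint J) (A : ι → (I → Bool) → Prop)
    (hA : ∀ i ∈ s, DepOn (J i) (A i)) {q : ℝ} (hq : ∀ i ∈ s, Pr p (A i) ≤ q) {ε : ℝ}
    (he0 : 0 ≤ ε) (he2 : ε ≤ 2) :
    Pr p (fun f => (q + ε) * (s.card : ℝ) ≤ ((s.filter (fun i => A i f)).card : ℝ)) ≤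
      Real.exp (-(ε ^ 2 * (s.card : ℝ) / 4)) := by
  have hPr0 := fun i => Pr_nonneg (I := I) hp0 hp1 (A i)
  have hPr1 := fun i => Pr_le_one (I := I) hp0 hp1 (A i)
  have ht := tail hp0 hp1 s J hd (fun i f => (if A i f then (1 : ℝ) else 0) - Pr p (A i))
    ?_ ?_ ?_ he0 he2
  · refine (Pr_mono hp0 hp1 ?_).trans ht
    intro f hf
    have e1 : ∑ i ∈ s, ((if A i f then (1 : ℝ) else 0) - Pr p (A i)) =
        ((s.filter (fun i => A i f)).card : ℝ) - ∑ i ∈ s, Pr p (A i) := by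
      rw [Finset.sum_sub_distrib, Finset.sum_boole]
    have e2 : ∑ i ∈ s, Pr p (A i) ≤ q * (s.card : ℝ) := by
      refine (Finset.sum_le_sum hq).trans (le_of_eq ?_)
      rw [Finset.sum_const, nsmul_eq_mul]
      ring
    rw [e1]
    linarith
  · intro i hi f g hfg
    simp only [hA i hi f g hfg]
  · intro i hi f
    have h1 := hPr0 i
    have h2 := hPr1 i
    rw [abs_le]
    constructor <;> split_ifs <;> linarith
  · intro i hi
    have e : (fun f : I → Bool => (if A i f then (1 : ℝ) else 0) - Pr p (A i)) =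
        fun f => (if A i f then (1 : ℝ) else 0) + (fun _ => -Pr p (A i)) f := by
      funext f
      ring
    rw [e, Ex_add, Ex_const]
    unfold Pr
    ring

/-- lower tail of the number of the events that occur -/
theorem count_lower (hp0 : 0 ≤ p) (hp1 : p ≤ 1) (s : Finset ι) (J : ι → Finset I)
    (hd : (s : Set ι).PairwiseDisjoint J) (A : ι → (I → Bool) → Prop)
    (hA : ∀ i ∈ s, DepOn (J i) (A i)) {q : ℝ} (hq : ∀ i ∈ s, q ≤ Pr p (A i)) {ε : ℝ}
    (he0 : 0 ≤ ε) (he2 : ε ≤ 2) :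
    Pr p (fun f => ((s.filter (fun i => A i f)).card : ℝ) ≤ (q - ε) * (s.card : ℝ)) ≤
      Real.exp (-(ε ^ 2 * (s.card : ℝ) / 4)) := by
  have hPr0 := fun i => Pr_nonneg (I := I) hp0 hp1 (A i)
  have hPr1 := fun i => Pr_le_one (I := I) hp0 hp1 (A i)
  have ht := tail hp0 hp1 s J hd (fun i f => Pr p (A i) + (-1) * (if A i f then (1 : ℝ) else 0))
    ?_ ?_ ?_ he0 he2
  · refine (Pr_mono hp0 hp1 ?_).trans ht
    intro f hf
    have e1 : ∑ i ∈ s, (Pr p (A i) + (-1) * (if A i f then (1 : ℝ) else 0)) =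
        ∑ i ∈ s, Pr p (A i) - ((s.filter (fun i => A i f)).card : ℝ) := by
      rw [Finset.sum_add_distrib, ← Finset.mul_sum, Finset.sum_boole]
      ring
    have e2 : q * (s.card : ℝ) ≤ ∑ i ∈ s, Pr p (A i) := by
      refine le_trans (le_of_eq ?_) (Finset.sum_le_sum hq)
      rw [Finset.sum_const, nsmul_eq_mul]
      ring
    rw [e1]
    linarith
  · intro i hi f g hfg
    simp only [hA i hi f g hfg]
  · intro i hi f
    have h1 := hPr0 i
    have h2 := hPr1 i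
    rw [abs_le]
    constructor <;> split_ifs <;> linarith
  · intro i hi
    rw [Ex_add, Ex_const, Ex_smul]
    unfold Pr
    ring

end Pool.Agent.Lib.MP_a2d8aa_co.AA
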