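import Pool.Agent.Lib.MP_a2d8aa_co.AA.Proj

/-!
# Module AA-Lift: elementary facts on `U`, extension by one vertex

PROOFS.
`U_update`: induction on the list; the conditions of `U σ` only concern `c y`, `y ∈ σ`.
`U_orth`: induction; the head is orthogonal to its earlier neighbours by definition, `H.symm`.
`mem_U_of_ind`: induction on the list; `Ind` of a subset by `LinearIndependent` restriction.
`ext_closure` (the key lemma): let `c ∈ U (x :: σ)`, `S = nb H σ.toFinset x`.  Then
`c ∈ U σ ⊆ closure B`, `Ind d S` is an open neighbourhood of `c`, so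
`c ∈ closure (B ∩ Ind d S)`; the map `proj S x` is continuous at `c`, fixes `c`
(`proj_fix`), and maps `B ∩ Ind d S` into `U (x :: σ') ∩ B` (it only changes the coordinate
`x ∉ σ'`, `B` is invariant under such changes, `proj_orth`).  Hence `c ∈ closure (U (x :: σ') ∩ B)`.
(`ContinuousAt` + `mem_closure_iff_nhds` or `mem_closure_iff_clusterPt`.)
-/

set_option autoImplicit false

open scoped Classical

noncomputable section

namespace Pool.Agent.Lib.MP_a2d8aa_co.AA

variable {V : Type*} {d : ℕ}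

private theorem Ind_update_aux {S : Finset V} {x : V} (hx : x ∉ S) {c : V → E d} (v : E d)
    (hc : c ∈ Ind d S) : Function.update c x v ∈ Ind d S := by
  have h : (fun s : S => Function.update c x v s) = fun s : S => c s := by
    funext s
    refine Function.update_of_ne ?_ _ _
    intro h
    exact hx (h ▸ s.2)
  change LinearIndependent ℝ (fun s : S => Function.update c x v s)
  rw [h]
  exact hc

private theorem Ind_mono_aux {S T : Finset V} (h : S ⊆ T) {c : V → E d} (hc : c ∈ Ind d T) :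
    c ∈ Ind d S := by
  have h1 : LinearIndependent ℝ (fun s : T => c s) := hc
  exact h1.comp (fun s : S => (⟨s.1, h s.2⟩ : T)) (by
    intro a b hab
    have h2 : a.1 = b.1 := congrArg (fun t : T => t.1) hab
    exact Subtype.ext h2)

theorem U_update (H : SimpleGraph V) {σ : List V} {x : V} (hx : x ∉ σ) {c : V → E d} (v : E d)
    (hc : c ∈ U H d σ) : Function.update c x v ∈ U H d σ := by
  induction σ with
  | nil => exact Set.mem_univ _
  | cons y σ ih =>
    obtain ⟨h1, h2, h3⟩ := hc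
    rw [List.mem_cons, not_or] at hx
    refine ⟨ih hx.2 h1, Ind_update_aux ?_ v h2, ?_⟩
    · intro h
      exact hx.2 (List.mem_toFinset.mp (Finset.mem_filter.mp h).1)
    · intro z hz hyz
      have hzx : z ≠ x := fun h => hx.2 (h ▸ hz)
      rw [Function.update_of_ne (Ne.symm hx.1), Function.update_of_ne hzx]
      exact h3 z hz hyz

theorem U_orth (H : SimpleGraph V) {σ : List V} {c : V → E d} (hc : c ∈ U H d σ) :
    ∀ x ∈ σ, ∀ y ∈ σ, H.Adj x y → inner ℝ (c x) (c y) = 0 := by
  induction σ with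
  | nil =>
    intro x hx
    exact absurd hx List.not_mem_nil
  | cons a σ ih =>
    obtain ⟨h1, _, h3⟩ := hc
    intro x hx y hy hxy
    rcases List.mem_cons.mp hx with e1 | hx1
    · rcases List.mem_cons.mp hy with e2 | hy1
      · rw [e1, e2] at hxy
        exact absurd hxy (H.loopless.irrefl _)
      · rw [e1] at hxy ⊢
        exact h3 y hy1 hxy
    · rcases List.mem_cons.mp hy with e2 | hy1
      · rw [e2] at hxy ⊢
        rw [real_inner_comm]
        exact h3 x hx1 hxy.symm
      · exact ih h1 x hx1 y hy1 hxy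

theorem mem_U_of_ind (H : SimpleGraph V) {σ : List V} {c : V → E d}
    (hi : c ∈ Ind d σ.toFinset)
    (ho : ∀ x ∈ σ, ∀ y ∈ σ, H.Adj x y → inner ℝ (c x) (c y) = 0) : c ∈ U H d σ := by
  induction σ with
  | nil => exact Set.mem_univ _
  | cons a σ ih =>
    have hsub : σ.toFinset ⊆ (a :: σ).toFinset := by
      intro z hz
      rw [List.mem_toFinset] at hz ⊢
      exact List.mem_cons_of_mem _ hz
    have hi' : c ∈ Ind d σ.toFinset := Ind_mono_aux hsub hi
    refine ⟨ih hi' fun x hx y hy => ho x (List.mem_cons_of_mem _ hx) y (List.mem_cons_of_mem _ hy),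
      Ind_mono_aux (Finset.filter_subset _ _) hi', ?_⟩
    intro y hy hay
    exact ho a List.mem_cons_self y (List.mem_cons_of_mem _ hy) hay

theorem Ind_mono {S T : Finset V} (h : S ⊆ T) {c : V → E d} (hc : c ∈ Ind d T) : c ∈ Ind d S :=
  Ind_mono_aux h hc

theorem Ind_update {S : Finset V} {x : V} (hx : x ∉ S) {c : V → E d} (v : E d)
    (hc : c ∈ Ind d S) : Function.update c x v ∈ Ind d S :=
  Ind_update_aux hx v hc

theorem ext_closure (H : SimpleGraph V) {σ σ' : List V} {x : V} (hx : x ∉ σ')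
    (hset : σ.toFinset = σ'.toFinset) {B : Set (V → E d)} (hB : B ⊆ U H d σ')
    (hBinv : ∀ c ∈ B, ∀ v : E d, Function.update c x v ∈ B)
    (h : U H d σ ⊆ closure B) : U H d (x :: σ) ⊆ closure (U H d (x :: σ') ∩ B) := by
  rintro c ⟨hc1, hc2, hc3⟩
  set S : Finset V := nb H σ.toFinset x with hS
  have hS' : nb H σ'.toFinset x = S := by rw [hS, hset]
  have hxS : x ∉ S := by
    intro hxs
    rw [← hS'] at hxs
    exact hx (List.mem_toFinset.mp (Finset.mem_filter.mp hxs).1)
  have hfix : proj S x c = c := proj_fix fun s hs => by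
    have h1 := Finset.mem_filter.mp hs
    exact hc3 s (List.mem_toFinset.mp h1.1) h1.2
  rw [mem_closure_iff_nhds]
  intro W hW
  have hcont : ContinuousAt (proj S x) c := continuousAt_proj hc2
  have hW' : proj S x ⁻¹' W ∈ nhds c := hcont (by rw [hfix]; exact hW)
  have hI : Ind d S ∈ nhds c := (isOpen_Ind d S).mem_nhds hc2
  have hcl : c ∈ closure B := h hc1
  rw [mem_closure_iff_nhds] at hcl
  obtain ⟨b, ⟨hbW, hbI⟩, hbB⟩ := hcl _ (Filter.inter_mem hW' hI)
  have hupB : proj S x b ∈ B := hBinv b hbB _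
  refine ⟨proj S x b, hbW, ⟨hB hupB, ?_, ?_⟩, hupB⟩
  · rw [hS']
    exact Ind_update_aux hxS _ hbI
  · intro y hy hxy
    refine proj_orth hbI hxS y ?_
    rw [← hS']
    exact Finset.mem_filter.mpr ⟨List.mem_toFinset.mpr hy, hxy⟩

/-- `A ⊆ closure B`, `B ⊆ closure (B ∩ Q)`, `B ⊆ closure A`, `Q` open: `Q` is dense in `A` -/
theorem transfer {X : Type*} [TopologicalSpace X] {A B Q : Set X} (h1 : A ⊆ closure B)
    (h2 : B ⊆ closure (B ∩ Q)) (h3 : B ⊆ closure A) (hQ : IsOpen Q) : A ⊆ closure (A ∩ Q) := by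
  have h4 : B ∩ Q ⊆ closure (A ∩ Q) := by
    rintro x ⟨hxB, hxQ⟩
    have h5 : x ∈ Q ∩ closure A := ⟨hxQ, h3 hxB⟩
    have h6 := hQ.inter_closure h5
    rwa [Set.inter_comm] at h6
  exact h1.trans ((closure_minimal h2 isClosed_closure).trans
    (closure_minimal h4 isClosed_closure))

/-- open dense properties can be combined -/
theorem dense_inter {X : Type*} [TopologicalSpace X] {A Q R : Set X} (h1 : A ⊆ closure (A ∩ Q))
    (h2 : A ⊆ closure (A ∩ R)) (hQ : IsOpen Q) (hR : IsOpen R) :
    A ⊆ closure (A ∩ (Q ∩ R)) := by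
  have _ := hR
  have h4 : A ∩ Q ⊆ closure (A ∩ (Q ∩ R)) := by
    rintro x ⟨hxA, hxQ⟩
    have h5 : x ∈ Q ∩ closure (A ∩ R) := ⟨hxQ, h2 hxA⟩
    have h6 := hQ.inter_closure h5
    refine closure_mono ?_ h6
    rintro y ⟨hyQ, hyA, hyR⟩
    exact ⟨hyA, hyQ, hyR⟩
  exact h1.trans (closure_minimal h4 isClosed_closure)

/-- lifting an open dense property to a longer order -/
theorem lift_dense (H : SimpleGraph V) (τ : List V) {σ : List V} (hnd : (τ ++ σ).Nodup)
    {Q : Set (V → E d)} (hQinv : ∀ x, x ∉ σ → ∀ c ∈ Q, ∀ v : E d, Function.update c x v ∈ Q)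
    (h : U H d σ ⊆ closure (U H d σ ∩ Q)) :
    U H d (τ ++ σ) ⊆ closure (U H d (τ ++ σ) ∩ Q) := by
  induction τ with
  | nil => exact h
  | cons x τ ih =>
    rw [List.cons_append] at hnd ⊢
    have hx : x ∉ τ ++ σ := (List.nodup_cons.mp hnd).1
    have hxσ : x ∉ σ := fun hh => hx (List.mem_append_right _ hh)
    have h1 := ih (List.nodup_cons.mp hnd).2
    have h2 := ext_closure (d := d) H (σ := τ ++ σ) (σ' := τ ++ σ) (x := x) hx rfl
      (B := U H d (τ ++ σ) ∩ Q) Set.inter_subset_left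
      (fun c hc v => ⟨U_update H hx v hc.1, hQinv x hxσ c hc.2 v⟩) h1
    refine h2.trans (closure_mono ?_)
    rintro c ⟨hc1, _, hc2⟩
    exact ⟨hc1, hc2⟩

end Pool.Agent.Lib.MP_a2d8aa_co.AA
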