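import Pool.Agent.Lib.MP_a2d8aa_co.AA.Anti2
import Pool.Agent.Lib.MP_a2d8aa_co.AA.Gnp
import Pool.Agent.Lib.MP_a2d8aa_co.AA.Hoeff

/-!
# Module AA-LowWhp: every vertex has many non-neighbours of low degree, with high probability

PROOF.  `m = Nat.sqrt n`; wlog `C ≥ 0`; `C' = 2 (C + 2)`; `lam'` from `anti p C'`;
`μ = (1-p) lam'`, `lam = μ / 16`.
Fix `w` and a block `T_i = {v : Fin n | v.val / m = i}`, `i < n / m` (it has `m` elements), and
`T = T_i \ {w}` (`m - 1 ≤ T.card ≤ m`).  For `u ∈ T` let `Y = univ \ (T ∪ {w})`,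
`N = Y.card ≥ n - m - 1`, and `B_u f := f (ed u w) = false ∧ #{y ∈ Y | f (ed u y) = true} ≤ p N - C' √N`.
`B_u` depends only on the coordinates `ed u y`, `y ∈ Y ∪ {w}`; these sets are disjoint for
different `u ∈ T`; `Pr B_u = (1-p) Pr(..) ≥ μ` (`Ex_mul_of_dep`, `anti` for the set of coordinates
`J = {ed u y | y ∈ Y}`, `Ex_coord`).  `count_lower` with `q = μ`, `ε = μ/2`:
`Pr (#{u ∈ T | B_u} ≤ (μ/2) T.card) ≤ exp (-(μ/2)² (m-1)/4)`.
If `B_u` holds then `u ≠ w`, `u` is not adjacent to `w` and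
`deg u ≤ p N - C' √N + T.card ≤ p n - C √n` for large `n` (`T.card ≤ √n`, `√N ≥ √n / 2`…).
The blocks are disjoint, so if no block fails, the number of such `u` is at least
`(n/m) * (μ/2) * (m-1) ≥ lam n`.  Failures: at most `n * n` pairs `(w, i)`, each with probability
at most `exp (-(μ²/16) (√n - 2))`; `n² exp (-c √n) → 0`.
-/

set_option autoImplicit false

open scoped Classical

noncomputable section

namespace Pool.Agent.Lib.MP_a2d8aa_co.AA

private theorem memf {α : Type*} {q : α → Prop} {inst : DecidablePred q} {s : Finset α} {a : α} :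
    a ∈ @Finset.filter α q inst s ↔ a ∈ s ∧ q a := Finset.mem_filter

/-- the edges from `u` to `Y` -/
private def eJ {n : ℕ} (u : Fin n) (Y : Finset (Fin n)) : Finset (Ed n) :=
  Finset.univ.filter (fun e : Ed n => ∃ y ∈ Y, e.1 = s(u, y))

private theorem card_eJ {n : ℕ} (u : Fin n) (Y : Finset (Fin n)) (hu : u ∉ Y) :
    (eJ u Y).card = Y.card := by
  symm
  refine Finset.card_bij (fun y hy => ed u y (fun h => hu (h ▸ hy))) ?_ ?_ ?_
  · intro y hy
    exact Finset.mem_filter.2 ⟨Finset.mem_univ _, y, hy, rfl⟩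
  · intro y hy y' hy' h
    have h1 : s(u, y) = s(u, y') := congrArg Subtype.val h
    exact Sym2.congr_right.1 h1
  · intro e he
    obtain ⟨-, y, hy, hey⟩ := Finset.mem_filter.1 he
    exact ⟨y, hy, Subtype.ext hey.symm⟩

private theorem eJ_filter {n : ℕ} (u : Fin n) (Y : Finset (Fin n)) (hu : u ∉ Y)
    (f : Ed n → Bool) :
    (eJ u Y).filter (fun e => f e = true) = eJ u (nb (gr n f) Y u) := by
  ext e
  simp only [eJ, nb, Finset.mem_filter, Finset.mem_univ, true_and]
  constructor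
  · rintro ⟨⟨y, hy, hey⟩, hfe⟩
    have huy : u ≠ y := fun h => hu (h ▸ hy)
    refine ⟨y, ⟨hy, huy, ?_⟩, hey⟩
    rw [← hfe]
    congr 1
    exact Subtype.ext hey.symm
  · rintro ⟨y, ⟨hy, huy, hf⟩, hey⟩
    refine ⟨⟨y, hy, hey⟩, ?_⟩
    rw [← hf]
    congr 1
    exact Subtype.ext hey

private theorem card_eJ_filter {n : ℕ} (u : Fin n) (Y : Finset (Fin n)) (hu : u ∉ Y)
    (f : Ed n → Bool) :
    ((eJ u Y).filter (fun e => f e = true)).card = (nb (gr n f) Y u).card := by
  rw [eJ_filter u Y hu, card_eJ]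
  exact fun h => hu (Finset.filter_subset _ _ h)

private theorem adj_dep {n : ℕ} {u : Fin n} {Y : Finset (Fin n)} {f g : Ed n → Bool}
    (h : ∀ i ∈ eJ u Y, f i = g i) {y : Fin n} (hy : y ∈ Y) :
    (gr n f).Adj u y ↔ (gr n g).Adj u y := by
  refine exists_congr fun huy => ?_
  rw [h (ed u y huy) (Finset.mem_filter.2 ⟨Finset.mem_univ _, y, hy, rfl⟩)]

private theorem nb_dep {n : ℕ} {u : Fin n} {Y : Finset (Fin n)} {f g : Ed n → Bool}
    (h : ∀ i ∈ eJ u Y, f i = g i) : nb (gr n f) Y u = nb (gr n g) Y u :=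
  Finset.filter_congr fun _ hy => adj_dep h hy

private theorem eJ_mono {n : ℕ} (u : Fin n) {Y Y' : Finset (Fin n)} (h : Y ⊆ Y') :
    eJ u Y ⊆ eJ u Y' := by
  intro e he
  obtain ⟨-, y, hy, hey⟩ := Finset.mem_filter.1 he
  exact Finset.mem_filter.2 ⟨Finset.mem_univ _, y, h hy, hey⟩

private theorem eJ_disj {n : ℕ} {u u' : Fin n} {Y Y' : Finset (Fin n)} (h : u ≠ u' ∨ Disjoint Y Y')
    (h1 : u ∉ Y') : Disjoint (eJ u Y) (eJ u' Y') := by
  rw [Finset.disjoint_left]
  intro e he he'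
  obtain ⟨-, y, hy, hey⟩ := Finset.mem_filter.1 he
  obtain ⟨-, y', hy', hey'⟩ := Finset.mem_filter.1 he'
  rw [hey, Sym2.eq_iff] at hey'
  rcases hey' with ⟨h2, h3⟩ | ⟨h2, h3⟩
  · rcases h with h | h
    · exact h h2
    · exact (Finset.disjoint_left.1 h) hy (h3 ▸ hy')
  · exact h1 (h2 ▸ hy')

/-- probability of the event for one vertex -/
private theorem pr_one {p : ℝ} {n : ℕ} {w u : Fin n}
    {Y : Finset (Fin n)} (huw : u ≠ w) (huY : u ∉ Y) (hwY : w ∉ Y) {t q : ℝ} (hp1 : p ≤ 1)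
    (hq : q ≤ Pr p (fun f : Ed n → Bool =>
      (((eJ u Y).filter (fun i => f i = true)).card : ℝ) ≤ t)) :
    (1 - p) * q ≤ Pr p (fun f : Ed n → Bool => ¬ (gr n f).Adj w u ∧
      ((nb (gr n f) Y u).card : ℝ) ≤ t) := by
  have h1 : Pr p (fun f : Ed n → Bool => ¬ (gr n f).Adj w u ∧
      ((nb (gr n f) Y u).card : ℝ) ≤ t) =
      Pr p (fun f : Ed n → Bool => ¬ (gr n f).Adj w u) *
        Pr p (fun f : Ed n → Bool => ((nb (gr n f) Y u).card : ℝ) ≤ t) := by
    unfold Pr
    rw [← Ex_mul_of_dep p (J := eJ u {w}) (J' := eJ u Y)]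
    · congr 1
      funext f
      by_cases h1 : (gr n f).Adj w u <;> by_cases h2 : ((nb (gr n f) Y u).card : ℝ) ≤ t <;>
        simp [h1, h2]
    · exact eJ_disj (Or.inr (Finset.disjoint_singleton_left.2 hwY)) huY
    · intro f g hfg
      have h2 := adj_dep hfg (Finset.mem_singleton_self w)
      rw [SimpleGraph.adj_comm, (gr n g).adj_comm] at h2
      by_cases h3 : (gr n g).Adj w u
      · have h4 := h2.2 h3
        simp [h3, h4]
      · have h4 : ¬ (gr n f).Adj w u := fun h => h3 (h2.1 h)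
        simp [h3, h4]
    · intro f g hfg
      have h2 := nb_dep hfg
      simp only [h2]
  have h2 : Pr p (fun f : Ed n → Bool => ¬ (gr n f).Adj w u) = 1 - p := by
    rw [Pr_compl]
    congr 1
    have h3 : (fun f : Ed n → Bool => (gr n f).Adj w u) =
        fun f => f (ed w u huw.symm) = true := by
      funext f
      exact propext (gr_adj f huw.symm)
    rw [h3]
    refine Eq.trans ?_ (Ex_coord p (ed w u huw.symm))
    unfold Pr
    congr 1
    funext f
    by_cases h4 : f (ed w u huw.symm) = true <;> simp [h4]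
  have h3 : (fun f : Ed n → Bool => ((nb (gr n f) Y u).card : ℝ) ≤ t) =
      fun f => (((eJ u Y).filter (fun i => f i = true)).card : ℝ) ≤ t := by
    funext f
    rw [card_eJ_filter u Y huY f]
  rw [h1, h2, h3]
  exact mul_le_mul_of_nonneg_left hq (by linarith)

/-- one block -/
theorem block (p : ℝ) (hp0 : 0 < p) (hp1 : p < 1) (C : ℝ) :
    ∃ μ : ℝ, 0 < μ ∧ μ ≤ 1 ∧ ∃ n0 : ℕ, ∀ n : ℕ, n0 ≤ n → ∀ (w : Fin n) (T : Finset (Fin n)),
      w ∉ T → (T.card : ℝ) ≤ Real.sqrt n →
      Pr p (fun f : Ed n → Bool => ((T.filter (fun u : Fin n => ¬ (gr n f).Adj w u ∧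
        ((nb (gr n f) Finset.univ u).card : ℝ) ≤ p * n - C * Real.sqrt n)).card : ℝ) ≤
          μ / 2 * (T.card : ℝ)) ≤ Real.exp (-(μ ^ 2 * (T.card : ℝ) / 16)) := by
  set C0 : ℝ := max C 0 with hC0
  have hC00 : 0 ≤ C0 := le_max_right _ _
  have hC01 : C ≤ C0 := le_max_left _ _
  obtain ⟨lam', hlam', N0, hanti⟩ := anti p hp0 hp1 (2 * (C0 + 2))
  set q : ℝ := min lam' 1 with hq
  have hq0 : 0 < q := lt_min hlam' one_pos
  have hq1 : q ≤ lam' := min_le_left _ _
  have hq2 : q ≤ 1 := min_le_right _ _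
  have h1p : 0 < 1 - p := by linarith
  set μ : ℝ := (1 - p) * q with hμ
  have hμ0 : 0 < μ := mul_pos h1p hq0
  have hμ1 : μ ≤ 1 := by
    have := mul_le_mul_of_nonneg_left hq2 h1p.le
    linarith
  refine ⟨μ, hμ0, hμ1, max 4 (4 * N0), fun n hn w T hwT hT => ?_⟩
  have hn4 : 4 ≤ n := (le_max_left _ _).trans hn
  have hnN : 4 * N0 ≤ n := (le_max_right _ _).trans hn
  have hn4' : (4 : ℝ) ≤ n := by exact_mod_cast hn4
  have hs2 : (2 : ℝ) ≤ Real.sqrt n := by
    rw [show (2 : ℝ) = Real.sqrt 4 by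
      rw [show (4 : ℝ) = 2 ^ 2 by norm_num, Real.sqrt_sq (by norm_num)]]
    exact Real.sqrt_le_sqrt hn4'
  have hsq : Real.sqrt n * Real.sqrt n = n := Real.mul_self_sqrt (by positivity)
  set Y : Finset (Fin n) := Finset.univ \ insert w T with hY
  have hYc : Y.card + (T.card + 1) = n := by
    have h1 := Finset.card_sdiff_add_card_eq_card (Finset.subset_univ (insert w T))
    rw [Finset.card_insert_of_notMem hwT, Finset.card_univ, Fintype.card_fin] at h1
    exact h1
  have hYc' : (Y.card : ℝ) + ((T.card : ℝ) + 1) = n := by exact_mod_cast hYc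
  have hY4 : (n : ℝ) / 4 ≤ (Y.card : ℝ) := by nlinarith
  have hYN : N0 ≤ Y.card := by
    have h1 : (4 * N0 : ℝ) ≤ n := by exact_mod_cast hnN
    have h2 : (N0 : ℝ) ≤ (Y.card : ℝ) := by linarith
    exact_mod_cast h2
  have hwY : w ∉ Y := fun h => (Finset.mem_sdiff.1 h).2 (Finset.mem_insert_self _ _)
  have huY : ∀ u ∈ T, u ∉ Y := fun u hu h =>
    (Finset.mem_sdiff.1 h).2 (Finset.mem_insert_of_mem hu)
  set t : ℝ := p * (Y.card : ℝ) - 2 * (C0 + 2) * Real.sqrt (Y.card : ℝ) with ht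
  have hcl := count_lower (p := p) hp0.le hp1.le T (fun u => eJ u (insert w Y))
    (fun u _ u' hu' huu => eJ_disj (Or.inl huu) ?_)
    (fun u (f : Ed n → Bool) => ¬ (gr n f).Adj w u ∧ ((nb (gr n f) Y u).card : ℝ) ≤ t)
    ?_ (q := μ) ?_ (ε := μ / 2) (by linarith) (by linarith)
  · have e1 : (μ - μ / 2) = μ / 2 := by ring
    have e2 : (μ / 2) ^ 2 * (T.card : ℝ) / 4 = μ ^ 2 * (T.card : ℝ) / 16 := by ring
    rw [e1, e2] at hcl
    refine (Pr_mono hp0.le hp1.le ?_).trans hcl
    intro f hf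
    refine le_trans ?_ hf
    refine Nat.cast_le.2 (Finset.card_le_card fun u hu => ?_)
    · obtain ⟨huT, hwu, hnb⟩ := memf.1 hu
      refine memf.2 ⟨huT, hwu, ?_⟩
      have h1 : nb (gr n f) Finset.univ u ⊆ nb (gr n f) Y u ∪ T := by
        intro z hz
        have hz' := (Finset.mem_filter.1 hz).2
        by_cases hzT : z ∈ T
        · exact Finset.mem_union_right _ hzT
        · refine Finset.mem_union_left _ (Finset.mem_filter.2 ⟨?_, hz'⟩)
          refine Finset.mem_sdiff.2 ⟨Finset.mem_univ _, ?_⟩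
          rw [Finset.mem_insert, not_or]
          refine ⟨?_, hzT⟩
          rintro rfl
          exact hwu hz'.symm
      have h2 := (Finset.card_le_card h1).trans (Finset.card_union_le _ _)
      have h3 : ((nb (gr n f) Finset.univ u).card : ℝ) ≤
          ((nb (gr n f) Y u).card : ℝ) + (T.card : ℝ) := by exact_mod_cast h2
      have h4 : Real.sqrt n / 2 ≤ Real.sqrt (Y.card : ℝ) := by
        rw [show Real.sqrt n / 2 = Real.sqrt ((n : ℝ) / 4) by
          rw [Real.sqrt_div' _ (by norm_num), show (4 : ℝ) = 2 ^ 2 by norm_num,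
            Real.sqrt_sq (by norm_num)]]
        exact Real.sqrt_le_sqrt hY4
      have h5 : 2 * (C0 + 2) * (Real.sqrt n / 2) ≤ 2 * (C0 + 2) * Real.sqrt (Y.card : ℝ) :=
        mul_le_mul_of_nonneg_left h4 (by linarith)
      have h6 : 2 * (C0 + 2) * (Real.sqrt n / 2) = C0 * Real.sqrt n + 2 * Real.sqrt n := by ring
      have h7 : p * (Y.card : ℝ) ≤ p * n :=
        mul_le_mul_of_nonneg_left (by
          have : (0 : ℝ) ≤ (T.card : ℝ) := Nat.cast_nonneg _
          linarith) hp0.le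
      have h8 : C * Real.sqrt n ≤ C0 * Real.sqrt n :=
        mul_le_mul_of_nonneg_right hC01 (Real.sqrt_nonneg _)
      linarith
  · rename_i hu0
    rw [Finset.mem_insert, not_or]
    exact ⟨fun h => hwT (h ▸ hu0), huY _ hu0⟩
  · intro u _ f g hfg
    have h1 : ∀ i ∈ eJ u {w}, f i = g i := fun i hi =>
      hfg i (eJ_mono u (Finset.singleton_subset_iff.2 (Finset.mem_insert_self w Y)) hi)
    have h2 : ∀ i ∈ eJ u Y, f i = g i := fun i hi =>
      hfg i (eJ_mono u (Finset.subset_insert w Y) hi)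
    have h3 := adj_dep h1 (Finset.mem_singleton_self w)
    rw [SimpleGraph.adj_comm, (gr n g).adj_comm] at h3
    have h4 := nb_dep h2
    simp only [h3, h4]
  · intro u hu
    have huw : u ≠ w := fun h => hwT (h ▸ hu)
    refine pr_one huw (huY u hu) hwY hp1.le ?_
    have h1 := hanti (Ed n) (eJ u Y) (by rw [card_eJ u Y (huY u hu)]; exact hYN)
    rw [card_eJ u Y (huY u hu)] at h1
    exact hq1.trans h1

/-- the block number `i` -/
private def blk (n m i : ℕ) : Finset (Fin n) := Finset.univ.filter (fun v => v.val / m = i)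

private theorem card_blk {n m i : ℕ} (hm : 0 < m) (hi : i < n / m) : (blk n m i).card = m := by
  have h1 : (blk n m i).image Fin.val = Finset.Ico (i * m) ((i + 1) * m) := by
    have hin : (i + 1) * m ≤ n := by
      have := (Nat.le_div_iff_mul_le hm).1 (Nat.succ_le_of_lt hi)
      exact this
    ext x
    simp only [blk, Finset.mem_image, Finset.mem_filter, Finset.mem_univ, true_and,
      Finset.mem_Ico]
    constructor
    · rintro ⟨v, hv, rfl⟩
      constructor
      · exact (Nat.le_div_iff_mul_le hm).1 hv.ge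
      · exact (Nat.div_lt_iff_lt_mul hm).1 (by omega)
    · rintro ⟨h1, h2⟩
      refine ⟨⟨x, by omega⟩, ?_, rfl⟩
      have h3 := (Nat.le_div_iff_mul_le hm).2 h1
      have h4 := (Nat.div_lt_iff_lt_mul hm).2 h2
      simp only
      omega
  rw [← Finset.card_image_of_injective _ Fin.val_injective, h1, Nat.card_Ico, Nat.succ_mul]
  omega

/-- if no block fails then `ManyLow` holds -/
private theorem manyLow_of_blocks {n m : ℕ} (hm : 0 < m) (hmn : m * m ≤ n) (hnm : n ≤ m * m + 2 * m)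
    (hn : 100 ≤ n) (H : SimpleGraph (Fin n)) {μ t : ℝ} (hμ : 0 < μ)
    (h : ∀ w : Fin n, ∀ i ∈ Finset.range (n / m), μ / 2 * (((blk n m i).erase w).card : ℝ) ≤
      ((((blk n m i).erase w).filter (fun u : Fin n => ¬ H.Adj w u ∧
        ((nb H Finset.univ u).card : ℝ) ≤ t)).card : ℝ)) :
    ManyLow H (μ / 16) t := by
  intro w
  set L := Finset.univ.filter (fun u : Fin n =>
    u ≠ w ∧ ¬ H.Adj w u ∧ ((nb H Finset.univ u).card : ℝ) ≤ t) with hL
  have h1 : ∑ i ∈ Finset.range (n / m), (L.filter (fun u => u.val / m = i)).card ≤ L.card := by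
    rw [Finset.sum_card_fiberwise_eq_card_filter]
    exact Finset.card_le_card (Finset.filter_subset _ _)
  have h2 : ∀ i ∈ Finset.range (n / m), μ / 2 * ((m : ℝ) - 1) ≤
      ((L.filter (fun u => u.val / m = i)).card : ℝ) := by
    intro i hi
    have h3 : ((blk n m i).erase w).filter (fun u : Fin n => ¬ H.Adj w u ∧
        ((nb H Finset.univ u).card : ℝ) ≤ t) ⊆ L.filter (fun u => u.val / m = i) := by
      intro u hu
      rw [Finset.mem_filter, Finset.mem_erase] at hu
      obtain ⟨⟨huw, hub⟩, h4, h5⟩ := hu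
      exact Finset.mem_filter.2 ⟨Finset.mem_filter.2 ⟨Finset.mem_univ _, huw, h4, h5⟩,
        (Finset.mem_filter.1 hub).2⟩
    have h4 : ((((blk n m i).erase w).filter (fun u : Fin n => ¬ H.Adj w u ∧
        ((nb H Finset.univ u).card : ℝ) ≤ t)).card : ℝ) ≤
        ((L.filter (fun u => u.val / m = i)).card : ℝ) := by
      exact_mod_cast Finset.card_le_card h3
    refine le_trans ?_ ((h w i hi).trans h4)
    refine mul_le_mul_of_nonneg_left ?_ (by positivity)
    have h5 : (blk n m i).card - 1 ≤ ((blk n m i).erase w).card := Finset.pred_card_le_card_erase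
    rw [card_blk hm (Finset.mem_range.1 hi)] at h5
    have h6 : m ≤ ((blk n m i).erase w).card + 1 := by omega
    have h7 : (m : ℝ) ≤ (((blk n m i).erase w).card : ℝ) + 1 := by exact_mod_cast h6
    linarith
  have h3 : ((n / m : ℕ) : ℝ) * (μ / 2 * ((m : ℝ) - 1)) ≤ (L.card : ℝ) := by
    have h4 := Finset.sum_le_sum h2
    rw [Finset.sum_const, Finset.card_range, nsmul_eq_mul] at h4
    refine h4.trans ?_
    exact_mod_cast h1
  rw [Fintype.card_fin]
  have hLc : (L.card : ℝ) ≤ ((Finset.univ.filter (fun u : Fin n =>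
      u ≠ w ∧ ¬ H.Adj w u ∧ ((nb H Finset.univ u).card : ℝ) ≤ t)).card : ℝ) :=
    le_rfl
  refine le_trans ?_ (le_trans (h3.trans hLc) (Nat.cast_le.2 (Finset.card_le_card fun u hu =>
    memf.2 (memf.1 hu))))
  -- `(n / m) (m - 1) ≥ n / 8`
  have h4 : n < (n / m + 1) * m := by
    have := Nat.lt_mul_div_succ n hm
    rw [mul_comm]
    exact this
  have h5 : n / m ≤ m + 2 := by
    refine Nat.div_le_of_le_mul ?_
    nlinarith
  set k : ℝ := ((n / m : ℕ) : ℝ) with hk
  have h4' : (n : ℝ) < (k + 1) * m := by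
    rw [hk]
    exact_mod_cast h4
  have h5' : k ≤ (m : ℝ) + 2 := by
    rw [hk]
    exact_mod_cast h5
  have h6 : (m : ℝ) * m ≤ n := by exact_mod_cast hmn
  have h7 : (n : ℝ) ≤ m * m + 2 * m := by exact_mod_cast hnm
  have h8 : (100 : ℝ) ≤ n := by exact_mod_cast hn
  have h9 : (9 : ℝ) ≤ m := by
    by_contra hc
    rw [not_le] at hc
    have hm0 : (0 : ℝ) ≤ m := Nat.cast_nonneg _
    nlinarith
  have h10 : (n : ℝ) / 8 ≤ k * ((m : ℝ) - 1) := by nlinarith
  have h11 := mul_le_mul_of_nonneg_left h10 (by positivity : 0 ≤ μ / 2)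
  calc μ / 16 * (n : ℝ) = μ / 2 * ((n : ℝ) / 8) := by ring
    _ ≤ μ / 2 * (k * ((m : ℝ) - 1)) := h11
    _ = k * (μ / 2 * ((m : ℝ) - 1)) := by ring

theorem low_whp (p : ℝ) (hp0 : 0 < p) (hp1 : p < 1) (C : ℝ) :
    ∃ lam : ℝ, 0 < lam ∧ Filter.Tendsto (fun n : ℕ => Pr p (fun f : Ed n → Bool =>
      ManyLow (gr n f) lam (p * n - C * Real.sqrt n))) Filter.atTop (nhds 1) := by
  obtain ⟨μ, hμ0, hμ1, n0, hblock⟩ := block p hp0 hp1 C
  refine ⟨μ / 16, by positivity, ?_⟩
  set c : ℝ := μ ^ 2 / 16 with hc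
  have hc0 : 0 < c := by positivity
  have hlow : ∀ᶠ n : ℕ in Filter.atTop,
      1 - Real.exp (2 * c) * ((n : ℝ) ^ 2 * Real.exp (-(c * Real.sqrt n))) ≤
        Pr p (fun f : Ed n → Bool => ManyLow (gr n f) (μ / 16) (p * n - C * Real.sqrt n)) := by
    filter_upwards [Filter.eventually_ge_atTop (max n0 100)] with n hn
    have hn0 : n0 ≤ n := (le_max_left _ _).trans hn
    have hn100 : 100 ≤ n := (le_max_right _ _).trans hn
    set m := Nat.sqrt n with hm
    have hm1 : m * m ≤ n := Nat.sqrt_le n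
    have hm2 : n ≤ m * m + 2 * m := by
      have := Nat.sqrt_le_add n
      rw [← hm] at this
      omega
    have hm0 : 0 < m := Nat.sqrt_pos.2 (by omega)
    have hmr : (m : ℝ) ≤ Real.sqrt n := Real.nat_sqrt_le_real_sqrt
    have hmr' : Real.sqrt n ≤ (m : ℝ) + 1 := Real.real_sqrt_le_nat_sqrt_succ
    set bad : Fin n × ℕ → (Ed n → Bool) → Prop := fun x f =>
      ((((blk n m x.2).erase x.1).filter (fun u : Fin n => ¬ (gr n f).Adj x.1 u ∧
        ((nb (gr n f) Finset.univ u).card : ℝ) ≤ p * n - C * Real.sqrt n)).card : ℝ) ≤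
          μ / 2 * (((blk n m x.2).erase x.1).card : ℝ) with hbad
    have h1 : Pr p (fun f : Ed n → Bool =>
        ¬ ManyLow (gr n f) (μ / 16) (p * n - C * Real.sqrt n)) ≤
        Pr p (fun f => ∃ x ∈ (Finset.univ : Finset (Fin n)) ×ˢ Finset.range (n / m), bad x f) := by
      refine Pr_mono hp0.le hp1.le fun f hf => ?_
      by_contra hno
      refine hf (manyLow_of_blocks hm0 hm1 hm2 hn100 (gr n f) hμ0 fun w i hi => ?_)
      by_contra hlt
      exact hno ⟨(w, i), Finset.mem_product.2 ⟨Finset.mem_univ _, hi⟩, (not_le.1 hlt).le⟩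
    have h2 : ∀ x ∈ (Finset.univ : Finset (Fin n)) ×ˢ Finset.range (n / m),
        Pr p (bad x) ≤ Real.exp (2 * c) * Real.exp (-(c * Real.sqrt n)) := by
      rintro ⟨w, i⟩ hx
      have hi := Finset.mem_range.1 (Finset.mem_product.1 hx).2
      have hcard : ((blk n m i).erase w).card ≤ m :=
        Finset.card_erase_le.trans (card_blk hm0 hi).le
      have hcard2 : m ≤ ((blk n m i).erase w).card + 1 := by
        have h5 : (blk n m i).card - 1 ≤ ((blk n m i).erase w).card :=
          Finset.pred_card_le_card_erase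
        rw [card_blk hm0 hi] at h5
        omega
      have hcard' : (((blk n m i).erase w).card : ℝ) ≤ m := by exact_mod_cast hcard
      have hcard2' : (m : ℝ) ≤ (((blk n m i).erase w).card : ℝ) + 1 := by exact_mod_cast hcard2
      have h3 := hblock n hn0 w ((blk n m i).erase w) (Finset.notMem_erase _ _)
        (hcard'.trans hmr)
      refine h3.trans ?_
      rw [← Real.exp_add]
      refine Real.exp_le_exp.2 ?_
      have e1 : μ ^ 2 * (((blk n m i).erase w).card : ℝ) / 16 =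
          c * (((blk n m i).erase w).card : ℝ) := by rw [hc]; ring
      rw [e1]
      have h4 : c * (Real.sqrt n - 2) ≤ c * (((blk n m i).erase w).card : ℝ) :=
        mul_le_mul_of_nonneg_left (by linarith) hc0.le
      linarith
    have h3 := Pr_union (p := p) hp0.le hp1.le
      ((Finset.univ : Finset (Fin n)) ×ˢ Finset.range (n / m)) bad
    have h4 := Finset.sum_le_sum h2
    rw [Finset.sum_const, Finset.card_product, Finset.card_univ, Fintype.card_fin,
      Finset.card_range, nsmul_eq_mul] at h4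
    have h5 : ((n * (n / m) : ℕ) : ℝ) ≤ (n : ℝ) ^ 2 := by
      have : n * (n / m) ≤ n ^ 2 := by
        rw [pow_two]
        exact Nat.mul_le_mul_left _ (Nat.div_le_self _ _)
      exact_mod_cast this
    have h6 : ((n * (n / m) : ℕ) : ℝ) * (Real.exp (2 * c) * Real.exp (-(c * Real.sqrt n))) ≤
        (n : ℝ) ^ 2 * (Real.exp (2 * c) * Real.exp (-(c * Real.sqrt n))) :=
      mul_le_mul_of_nonneg_right h5 (by positivity)
    have h7 := Pr_compl (I := Ed n) p (fun f : Ed n → Bool =>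
      ManyLow (gr n f) (μ / 16) (p * n - C * Real.sqrt n))
    have h8 : (n : ℝ) ^ 2 * (Real.exp (2 * c) * Real.exp (-(c * Real.sqrt n))) =
        Real.exp (2 * c) * ((n : ℝ) ^ 2 * Real.exp (-(c * Real.sqrt n))) := by ring
    linarith
  -- the error tends to 0
  have hlim : Filter.Tendsto (fun n : ℕ => (n : ℝ) ^ 2 * Real.exp (-(c * Real.sqrt n)))
      Filter.atTop (nhds 0) := by
    have h1 : Filter.Tendsto (fun n : ℕ => c * Real.sqrt n) Filter.atTop Filter.atTop :=
      Filter.Tendsto.const_mul_atTop hc0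
        (Real.tendsto_sqrt_atTop.comp tendsto_natCast_atTop_atTop)
    have h2 := (Real.tendsto_pow_mul_exp_neg_atTop_nhds_zero 4).comp h1
    have h3 := h2.const_mul ((c ^ 4)⁻¹)
    rw [mul_zero] at h3
    refine h3.congr fun n => ?_
    simp only [Function.comp]
    have h4 : (Real.sqrt n) ^ 4 = (n : ℝ) ^ 2 := by
      rw [show (4 : ℕ) = 2 * 2 by norm_num, pow_mul, Real.sq_sqrt (Nat.cast_nonneg _)]
    rw [mul_pow, h4]
    field_simp
  have hlim2 : Filter.Tendsto (fun n : ℕ =>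
      1 - Real.exp (2 * c) * ((n : ℝ) ^ 2 * Real.exp (-(c * Real.sqrt n))))
      Filter.atTop (nhds 1) := by
    have := (hlim.const_mul (Real.exp (2 * c))).const_sub 1
    rwa [mul_zero, sub_zero] at this
  refine tendsto_of_tendsto_of_tendsto_of_le_of_le' hlim2 tendsto_const_nhds hlow ?_
  exact Filter.Eventually.of_forall fun n => Pr_le_one hp0.le hp1.le _

end Pool.Agent.Lib.MP_a2d8aa_co.AA
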