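import Pool.Agent.Lib.MP_a2d8aa_co.AA.Hoeff
import Pool.Agent.Lib.MP_a2d8aa_co.AA.Gnp

/-!
# Module AA-RegWhp: degrees and codegrees are regular with high probability
-/

set_option autoImplicit false

open scoped Classical

noncomputable section

namespace Pool.Agent.Lib.MP_a2d8aa_co.AA

/-- the set of the coordinates `ed u y` (empty if `u = y`) -/
def rwE {n : ℕ} (u y : Fin n) : Finset (Ed n) := if h : u ≠ y then {ed u y h} else ∅

theorem rw_mem_iff {n : ℕ} (u y : Fin n) (e : Ed n) :
    e ∈ rwE u y ↔ u ≠ y ∧ e.1 = s(u, y) := by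
  unfold rwE
  split_ifs with h
  · rw [Finset.mem_singleton]
    constructor
    · intro he; exact ⟨h, by rw [he]; rfl⟩
    · rintro ⟨_, he⟩; exact Subtype.ext he
  · constructor
    · intro he; exact absurd he (Finset.notMem_empty _)
    · rintro ⟨h2, _⟩; exact absurd h2 h

theorem rw_dep {n : ℕ} (u y : Fin n) :
    DepOn (rwE u y) (fun f : Ed n → Bool => (gr n f).Adj u y) := by
  intro f g hfg
  by_cases h : u ≠ y
  · have h2 := hfg (ed u y h) ((rw_mem_iff u y _).2 ⟨h, rfl⟩)
    dsimp only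
    rw [gr_adj f h, gr_adj g h, h2]
  · have h3 : u = y := not_not.mp h
    subst h3
    simp

theorem rw_and {I : Type*} [Fintype I] (p : ℝ) {T T' : Finset I} (hd : Disjoint T T')
    (A B : (I → Bool) → Prop) (hA : DepOn T A) (hB : DepOn T' B) :
    Pr p (fun f => A f ∧ B f) = Pr p A * Pr p B := by
  have h := Ex_mul_of_dep p (F := fun f => if A f then (1 : ℝ) else 0)
    (G := fun f => if B f then (1 : ℝ) else 0) hd
    (fun f g hfg => by
      have := hA f g hfg
      simp only [this])
    (fun f g hfg => by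
      have := hB f g hfg
      simp only [this])
  unfold Pr
  rw [← h]
  congr 1
  funext f
  by_cases h1 : A f <;> by_cases h2 : B f <;> simp [h1, h2]

theorem rw_pr {n : ℕ} (p : ℝ) (u y : Fin n) (h : u ≠ y) :
    Pr p (fun f : Ed n → Bool => (gr n f).Adj u y) = p := by
  have : (fun f : Ed n → Bool => (gr n f).Adj u y) = (fun f => f (ed u y h) = true) := by
    funext f
    exact propext (gr_adj f h)
  rw [this]
  refine Eq.trans ?_ (Ex_coord p (ed u y h))
  unfold Pr
  congr 1
  funext f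
  by_cases hf : f (ed u y h) = true <;> simp [hf]

theorem rw_disj1 {n : ℕ} (u : Fin n) :
    ((Finset.univ.erase u : Finset (Fin n)) : Set (Fin n)).PairwiseDisjoint (fun y => rwE u y) := by
  intro y hy y' hy' hne
  rw [Function.onFun, Finset.disjoint_left]
  intro e he he'
  rw [rw_mem_iff] at he he'
  have h := he.2.symm.trans he'.2
  rw [Sym2.eq_iff] at h
  rcases h with ⟨_, h⟩ | ⟨h, _⟩
  · exact hne h
  · exact he'.1 h

theorem rw_disj2 {n : ℕ} (u v : Fin n) (huv : u ≠ v) :
    (((Finset.univ.erase u).erase v : Finset (Fin n)) : Set (Fin n)).PairwiseDisjoint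
      (fun y => rwE u y ∪ rwE v y) := by
  intro y hy y' hy' hne
  have hy1 : y ≠ u ∧ y ≠ v := by simpa using hy
  have hy2 : y' ≠ u ∧ y' ≠ v := by simpa using hy'
  rw [Function.onFun, Finset.disjoint_left]
  intro e he he'
  rw [Finset.mem_union, rw_mem_iff, rw_mem_iff] at he he'
  rcases he with he | he <;> rcases he' with he' | he' <;>
    (have h := he.2.symm.trans he'.2
     rw [Sym2.eq_iff] at h
     rcases h with ⟨h, h'⟩ | ⟨h, h'⟩)
  · exact hne h'
  · exact hy2.1 h.symm
  · exact huv h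
  · exact hy2.1 h.symm
  · exact huv h.symm
  · exact hy2.2 h.symm
  · exact hne h'
  · exact hy2.2 h.symm

theorem rw_card1 {n : ℕ} (u : Fin n) :
    (((Finset.univ.erase u : Finset (Fin n)).card : ℕ) : ℝ) = (n : ℝ) - 1 := by
  rw [Finset.card_erase_of_mem (Finset.mem_univ u), Finset.card_univ, Fintype.card_fin]
  have : 1 ≤ n := by have := u.2; omega
  rw [Nat.cast_sub this]
  simp

theorem rw_card2 {n : ℕ} (u v : Fin n) (huv : u ≠ v) :
    ((((Finset.univ.erase u).erase v : Finset (Fin n)).card : ℕ) : ℝ) = (n : ℝ) - 2 := by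
  have hv : v ∈ (Finset.univ.erase u : Finset (Fin n)) := by simp [huv.symm]
  rw [Finset.card_erase_of_mem hv, Finset.card_erase_of_mem (Finset.mem_univ u),
    Finset.card_univ, Fintype.card_fin]
  have h2 : 2 ≤ n := by
    have h3 := u.2
    have h4 := v.2
    have h5 : (u : ℕ) ≠ (v : ℕ) := fun h => huv (Fin.ext h)
    omega
  have h6 : n - 1 - 1 = n - 2 := by omega
  rw [h6, Nat.cast_sub h2]
  simp

theorem rw_deg {n : ℕ} (f : Ed n → Bool) (u : Fin n) :
    nb (gr n f) Finset.univ u =
      (Finset.univ.erase u).filter (fun y => (gr n f).Adj u y) := by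
  unfold nb
  ext y
  rw [Finset.mem_filter, Finset.mem_filter, Finset.mem_erase]
  constructor
  · rintro ⟨_, h⟩
    exact ⟨⟨h.ne', Finset.mem_univ _⟩, h⟩
  · rintro ⟨_, h⟩
    exact ⟨Finset.mem_univ _, h⟩

theorem rw_codeg {n : ℕ} (f : Ed n → Bool) (u v : Fin n) :
    nb (gr n f) (nb (gr n f) Finset.univ u) v =
      ((Finset.univ.erase u).erase v).filter (fun y => (gr n f).Adj u y ∧ (gr n f).Adj v y) := by
  unfold nb
  ext y
  rw [Finset.mem_filter, Finset.mem_filter, Finset.mem_filter, Finset.mem_erase,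
    Finset.mem_erase]
  constructor
  · rintro ⟨⟨_, h⟩, h2⟩
    exact ⟨⟨h2.ne', h.ne', Finset.mem_univ _⟩, h, h2⟩
  · rintro ⟨_, h, h2⟩
    exact ⟨⟨Finset.mem_univ _, h⟩, h2⟩

theorem rw_bad1 {n : ℕ} {p e : ℝ} (hp0 : 0 < p) (hp1 : p < 1) (he0 : 0 ≤ e) (he1 : e ≤ 1)
    (u : Fin n) :
    Pr p (fun f : Ed n → Bool => (p + e / 2) * ((n : ℝ) - 1) ≤
      ((nb (gr n f) Finset.univ u).card : ℝ)) ≤ Real.exp (-((e / 2) ^ 2 * ((n : ℝ) - 1) / 4)) := by
  have h := count_upper hp0.le hp1.le (Finset.univ.erase u) (fun y => rwE u y) (rw_disj1 u)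
    (fun y f => (gr n f).Adj u y) (fun y _ => rw_dep u y) (q := p)
    (fun y hy => (rw_pr p u y (Finset.ne_of_mem_erase hy).symm).le) (ε := e / 2) (by linarith)
    (by linarith)
  rw [rw_card1 u] at h
  simp only [rw_deg]
  exact h

theorem rw_bad2 {n : ℕ} {p e : ℝ} (hp0 : 0 < p) (hp1 : p < 1) (he0 : 0 ≤ e) (he1 : e ≤ 1)
    (u : Fin n) :
    Pr p (fun f : Ed n → Bool => ((nb (gr n f) Finset.univ u).card : ℝ) ≤
      (p - e / 2) * ((n : ℝ) - 1)) ≤ Real.exp (-((e / 2) ^ 2 * ((n : ℝ) - 1) / 4)) := by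
  have h := count_lower hp0.le hp1.le (Finset.univ.erase u) (fun y => rwE u y) (rw_disj1 u)
    (fun y f => (gr n f).Adj u y) (fun y _ => rw_dep u y) (q := p)
    (fun y hy => (rw_pr p u y (Finset.ne_of_mem_erase hy).symm).ge) (ε := e / 2) (by linarith)
    (by linarith)
  rw [rw_card1 u] at h
  simp only [rw_deg]
  exact h

theorem rw_bad3 {n : ℕ} {p e : ℝ} (hp0 : 0 < p) (hp1 : p < 1) (he0 : 0 ≤ e) (he1 : e ≤ 1)
    (u v : Fin n) (huv : u ≠ v) :
    Pr p (fun f : Ed n → Bool => (p ^ 2 + e) * ((n : ℝ) - 2) ≤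
      ((nb (gr n f) (nb (gr n f) Finset.univ u) v).card : ℝ)) ≤
        Real.exp (-(e ^ 2 * ((n : ℝ) - 2) / 4)) := by
  have hdep : ∀ y ∈ ((Finset.univ.erase u).erase v : Finset (Fin n)),
      DepOn (rwE u y ∪ rwE v y) (fun f : Ed n → Bool => (gr n f).Adj u y ∧ (gr n f).Adj v y) := by
    intro y _ f g hfg
    have h1 := rw_dep u y f g (fun i hi => hfg i (Finset.mem_union_left _ hi))
    have h2 := rw_dep v y f g (fun i hi => hfg i (Finset.mem_union_right _ hi))
    dsimp only at h1 h2
    dsimp only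
    rw [h1, h2]
  have hpr : ∀ y ∈ ((Finset.univ.erase u).erase v : Finset (Fin n)),
      Pr p (fun f : Ed n → Bool => (gr n f).Adj u y ∧ (gr n f).Adj v y) ≤ p ^ 2 := by
    intro y hy
    have hy1 : y ≠ v ∧ y ≠ u := by simpa using hy
    rw [rw_and p (T := rwE u y) (T' := rwE v y) _ _ _ (rw_dep u y) (rw_dep v y),
      rw_pr p u y hy1.2.symm, rw_pr p v y hy1.1.symm]
    · exact le_of_eq (by ring)
    · rw [Finset.disjoint_left]
      intro e he he'
      rw [rw_mem_iff] at he he'
      have h := he.2.symm.trans he'.2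
      rw [Sym2.eq_iff] at h
      rcases h with ⟨h, _⟩ | ⟨h, _⟩
      · exact huv h
      · exact hy1.2 h.symm
  have h := count_upper hp0.le hp1.le ((Finset.univ.erase u).erase v)
    (fun y => rwE u y ∪ rwE v y) (rw_disj2 u v huv)
    (fun y f => (gr n f).Adj u y ∧ (gr n f).Adj v y) hdep (q := p ^ 2) hpr (ε := e) he0
    (by linarith)
  rw [rw_card2 u v huv] at h
  simp only [rw_codeg]
  convert h

theorem rw_tend {a : ℝ} (ha : 0 < a) :
    Filter.Tendsto (fun n : ℕ => 3 * (n : ℝ) ^ 2 * Real.exp (-(a * ((n : ℝ) - 2))))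
      Filter.atTop (nhds 0) := by
  have h1 : Filter.Tendsto (fun x : ℝ => x ^ 2 * Real.exp (-a * x)) Filter.atTop (nhds 0) := by
    have h2 := Real.tendsto_pow_mul_exp_neg_atTop_nhds_zero 2
    have h3 : Filter.Tendsto (fun x : ℝ => a * x) Filter.atTop Filter.atTop :=
      Filter.tendsto_id.const_mul_atTop ha
    have h4 := (h2.comp h3).const_mul ((a ^ 2)⁻¹)
    rw [mul_zero] at h4
    refine h4.congr (fun x => ?_)
    simp only [Function.comp]
    have h5 : -(a * x) = -a * x := by ring
    rw [h5]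
    field_simp
  have h6 := (h1.comp tendsto_natCast_atTop_atTop).const_mul (3 * Real.exp (2 * a))
  rw [mul_zero] at h6
  refine h6.congr (fun n => ?_)
  simp only [Function.comp]
  have h7 : Real.exp (-(a * ((n : ℝ) - 2))) = Real.exp (2 * a) * Real.exp (-a * (n : ℝ)) := by
    rw [← Real.exp_add]; congr 1; ring
  rw [h7]
  ring

theorem reg_whp (p ε : ℝ) (hp0 : 0 < p) (hp1 : p < 1) (he : 0 < ε) :
    Filter.Tendsto (fun n : ℕ => Pr p (fun f : Ed n → Bool => Reg0 (gr n f) p ε))
      Filter.atTop (nhds 1) := by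
  obtain ⟨e, hedef⟩ : ∃ e : ℝ, e = min ε 1 := ⟨_, rfl⟩
  have he0 : 0 < e := by rw [hedef]; exact lt_min he one_pos
  have he1 : e ≤ 1 := by rw [hedef]; exact min_le_right _ _
  have hee : e ≤ ε := by rw [hedef]; exact min_le_left _ _
  have hlim : Filter.Tendsto (fun n : ℕ => 1 - 3 * (n : ℝ) ^ 2 *
      Real.exp (-(e ^ 2 / 16 * ((n : ℝ) - 2)))) Filter.atTop (nhds 1) := by
    have := (rw_tend (a := e ^ 2 / 16) (by positivity)).const_sub 1
    simpa using this
  refine tendsto_of_tendsto_of_tendsto_of_le_of_le' hlim tendsto_const_nhds ?_ ?_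
  · obtain ⟨N, hN⟩ := exists_nat_ge (2 / e)
    filter_upwards [Filter.eventually_ge_atTop (max N 2)] with n hn
    have hnN : N ≤ n := le_trans (le_max_left _ _) hn
    have hn2 : 2 ≤ n := le_trans (le_max_right _ _) hn
    have hn2r : (2 : ℝ) ≤ (n : ℝ) := by exact_mod_cast hn2
    have hnN' : 2 / e ≤ (n : ℝ) := le_trans hN (by exact_mod_cast hnN)
    have hen : 2 ≤ e * n := by
      rw [div_le_iff₀ he0] at hnN'
      linarith
    have hc := Pr_compl p (fun f : Ed n → Bool => Reg0 (gr n f) p ε)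
    have hb : Pr p (fun f : Ed n → Bool => ¬ Reg0 (gr n f) p ε) ≤
        3 * (n : ℝ) ^ 2 * Real.exp (-(e ^ 2 / 16 * ((n : ℝ) - 2))) := by
      have hmono : Pr p (fun f : Ed n → Bool => ¬ Reg0 (gr n f) p ε) ≤
          Pr p (fun f : Ed n → Bool =>
            (∃ u ∈ (Finset.univ : Finset (Fin n)), (p + e / 2) * ((n : ℝ) - 1) ≤
              ((nb (gr n f) Finset.univ u).card : ℝ)) ∨
            ((∃ u ∈ (Finset.univ : Finset (Fin n)), ((nb (gr n f) Finset.univ u).card : ℝ) ≤
              (p - e / 2) * ((n : ℝ) - 1)) ∨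
            (∃ q ∈ (Finset.univ.filter (fun q : Fin n × Fin n => q.1 ≠ q.2)),
              (p ^ 2 + e) * ((n : ℝ) - 2) ≤
              ((nb (gr n f) (nb (gr n f) Finset.univ q.1) q.2).card : ℝ)))) := by
        apply Pr_mono hp0.le hp1.le
        intro f hf
        by_contra hcon
        push Not at hcon
        obtain ⟨h1, h2, h3⟩ := hcon
        apply hf
        constructor
        · intro u
          rw [Fintype.card_fin]
          have h4 := h2 u (Finset.mem_univ u)
          have h5 : (p - ε) * (n : ℝ) ≤ (p - e) * n := by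
            apply mul_le_mul_of_nonneg_right _ (by linarith)
            linarith
          nlinarith
        · intro u
          rw [Fintype.card_fin]
          have h4 := h1 u (Finset.mem_univ u)
          have h5 : (p + e / 2) * ((n : ℝ) - 1) ≤ (p + ε) * n := by
            apply mul_le_mul <;> linarith
          linarith
        · intro u v huv
          rw [Fintype.card_fin]
          have h4 := h3 (u, v) (by simp [huv])
          have h5 : (p ^ 2 + e) * ((n : ℝ) - 2) ≤ (p ^ 2 + ε) * n := by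
            apply mul_le_mul
            · linarith
            · linarith
            · linarith
            · positivity
          dsimp only at h4
          linarith
      refine le_trans hmono ?_
      refine le_trans (Pr_or hp0.le hp1.le _ _) ?_
      have hA := Pr_union hp0.le hp1.le (Finset.univ : Finset (Fin n))
        (fun (u : Fin n) (f : Ed n → Bool) => (p + e / 2) * ((n : ℝ) - 1) ≤
              ((nb (gr n f) Finset.univ u).card : ℝ))
      have hB := Pr_union hp0.le hp1.le (Finset.univ : Finset (Fin n))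
        (fun (u : Fin n) (f : Ed n → Bool) => ((nb (gr n f) Finset.univ u).card : ℝ) ≤
              (p - e / 2) * ((n : ℝ) - 1))
      have hC := Pr_union hp0.le hp1.le (Finset.univ.filter (fun q : Fin n × Fin n => q.1 ≠ q.2))
        (fun (q : Fin n × Fin n) (f : Ed n → Bool) => (p ^ 2 + e) * ((n : ℝ) - 2) ≤
              ((nb (gr n f) (nb (gr n f) Finset.univ q.1) q.2).card : ℝ))
      have hO := Pr_or hp0.le hp1.le
        (fun f : Ed n → Bool => (∃ u ∈ (Finset.univ : Finset (Fin n)),
            ((nb (gr n f) Finset.univ u).card : ℝ) ≤ (p - e / 2) * ((n : ℝ) - 1)))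
        (fun f : Ed n → Bool => (∃ q ∈ (Finset.univ.filter (fun q : Fin n × Fin n => q.1 ≠ q.2)),
              (p ^ 2 + e) * ((n : ℝ) - 2) ≤
              ((nb (gr n f) (nb (gr n f) Finset.univ q.1) q.2).card : ℝ)))
      obtain ⟨X, hX⟩ : ∃ X : ℝ, X = Real.exp (-(e ^ 2 / 16 * ((n : ℝ) - 2))) := ⟨_, rfl⟩
      have hX0 : 0 < X := by rw [hX]; exact Real.exp_pos _
      have hx1 : Real.exp (-((e / 2) ^ 2 * ((n : ℝ) - 1) / 4)) ≤ X := by
        rw [hX]
        apply Real.exp_le_exp.mpr
        have : 0 ≤ e ^ 2 := sq_nonneg e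
        nlinarith
      have hx3 : Real.exp (-(e ^ 2 * ((n : ℝ) - 2) / 4)) ≤ X := by
        rw [hX]
        apply Real.exp_le_exp.mpr
        have h1 : 0 ≤ e ^ 2 * ((n : ℝ) - 2) := mul_nonneg (sq_nonneg e) (by linarith)
        linarith
      have hA2 : ∑ u ∈ (Finset.univ : Finset (Fin n)), Pr p (fun f : Ed n → Bool =>
          (p + e / 2) * ((n : ℝ) - 1) ≤ ((nb (gr n f) Finset.univ u).card : ℝ)) ≤ n * X := by
        calc _ ≤ ∑ u ∈ (Finset.univ : Finset (Fin n)), X :=
              Finset.sum_le_sum (fun u _ => le_trans (rw_bad1 hp0 hp1 he0.le he1 u) hx1)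
          _ = n * X := by simp
      have hB2 : ∑ u ∈ (Finset.univ : Finset (Fin n)), Pr p (fun f : Ed n → Bool =>
          ((nb (gr n f) Finset.univ u).card : ℝ) ≤ (p - e / 2) * ((n : ℝ) - 1)) ≤ n * X := by
        calc _ ≤ ∑ u ∈ (Finset.univ : Finset (Fin n)), X :=
              Finset.sum_le_sum (fun u _ => le_trans (rw_bad2 hp0 hp1 he0.le he1 u) hx1)
          _ = n * X := by simp
      have hC2 : ∑ q ∈ (Finset.univ.filter (fun q : Fin n × Fin n => q.1 ≠ q.2)),
          Pr p (fun f : Ed n → Bool => (p ^ 2 + e) * ((n : ℝ) - 2) ≤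
            ((nb (gr n f) (nb (gr n f) Finset.univ q.1) q.2).card : ℝ)) ≤ (n : ℝ) ^ 2 * X := by
        calc _ ≤ ∑ q ∈ (Finset.univ.filter (fun q : Fin n × Fin n => q.1 ≠ q.2)), X := by
              apply Finset.sum_le_sum
              intro q hq
              have hq2 : q.1 ≠ q.2 := (Finset.mem_filter.mp hq).2
              exact le_trans (rw_bad3 hp0 hp1 he0.le he1 q.1 q.2 hq2) hx3
          _ = ((Finset.univ.filter (fun q : Fin n × Fin n => q.1 ≠ q.2)).card : ℝ) * X := by
              rw [Finset.sum_const, nsmul_eq_mul]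
          _ ≤ (n : ℝ) ^ 2 * X := by
              apply mul_le_mul_of_nonneg_right _ hX0.le
              have h1 : (Finset.univ.filter (fun q : Fin n × Fin n => q.1 ≠ q.2)).card ≤
                  (Finset.univ : Finset (Fin n × Fin n)).card := Finset.card_filter_le _ _
              have h2 : (Finset.univ : Finset (Fin n × Fin n)).card = n ^ 2 := by
                rw [Finset.card_univ, Fintype.card_prod, Fintype.card_fin]; ring
              rw [h2] at h1
              exact_mod_cast h1
      have hnn : (n : ℝ) * X ≤ (n : ℝ) ^ 2 * X := by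
        apply mul_le_mul_of_nonneg_right _ hX0.le
        nlinarith
      rw [← hX]
      linarith
    linarith
  · exact Filter.Eventually.of_forall (fun n => Pr_le_one hp0.le hp1.le _)

end Pool.Agent.Lib.MP_a2d8aa_co.AA
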