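import Pool.Agent.Lib.MP_a2d8aa_co.AA.Faith
import Pool.Agent.Lib.MP_a2d8aa_co.AA.CondsReg
import Pool.Agent.Lib.MP_a2d8aa_co.AA.RegWhp
import Pool.Agent.Lib.MP_a2d8aa_co.AA.LowWhp

/-!
# Module AA-Main: the theorem

`det_step`: deterministic: `Reg0 H p ε` and `ManyLow H lam (p n - (C+1) √n)` give, for large `n`,
a matrix with graph `Hᶜ` and rank at most `p n - C √n`: `d = ⌊p n - (C+1) √n⌋₊ + 1`, `conds_of_reg`,
`exists_matrix`.
`main`: apply `det_step` to `H = Gᶜ` with `1-p` (matrix `A`) and to `H = G` with `p` (matrix `B`);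
`G = gr n f`: probabilities of the two `ManyLow` events tend to 1 (`low_whp`, and `Pr_comp_not`,
`gr_compl` for the complement), `reg_whp`, `Reg0_compl`; union bound.
-/

set_option autoImplicit false

open scoped Classical

noncomputable section

namespace Pool.Agent.Lib.MP_a2d8aa_co.AA

theorem det_step (p : ℝ) (hp0 : 0 < p) (hp1 : p < 1) (C lam : ℝ) (hC : 0 ≤ C) (hlam : 0 < lam) :
    ∃ ε : ℝ, 0 < ε ∧ ∃ n0 : ℕ, ∀ (n : ℕ) (H : SimpleGraph (Fin n)), n0 ≤ n → Reg0 H p ε →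
      ManyLow H lam (p * n - (C + 1) * Real.sqrt n) →
      ∃ A : Matrix (Fin n) (Fin n) ℝ, A.PosSemidef ∧
        (∀ i j, i ≠ j → (A i j ≠ 0 ↔ Hᶜ.Adj i j)) ∧ (A.rank : ℝ) ≤ p * n - C * Real.sqrt n := by
  obtain ⟨ε, hε, n1, h⟩ := conds_of_reg p lam hp0 hp1 hlam
  obtain ⟨n2, hn2⟩ := exists_nat_ge (((C + 1) / ε) ^ 2)
  obtain ⟨n3, hn3⟩ := exists_nat_ge (((C + 1) / p) ^ 2)
  refine ⟨ε, hε, n1 + n2 + n3 + 1, ?_⟩
  intro n H hn hreg hmany
  have hC1 : 0 < C + 1 := by linarith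
  have hnn : (0 : ℝ) ≤ (n : ℝ) := Nat.cast_nonneg n
  have hn1' : (1 : ℝ) ≤ (n : ℝ) := by
    have : 1 ≤ n := by omega
    exact_mod_cast this
  have hn2' : ((C + 1) / ε) ^ 2 ≤ (n : ℝ) := by
    refine hn2.trans ?_
    have : n2 ≤ n := by omega
    exact_mod_cast this
  have hn3' : ((C + 1) / p) ^ 2 ≤ (n : ℝ) := by
    refine hn3.trans ?_
    have : n3 ≤ n := by omega
    exact_mod_cast this
  set s : ℝ := Real.sqrt n with hs
  have hs0 : 0 ≤ s := Real.sqrt_nonneg _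
  have hss : s * s = (n : ℝ) := Real.mul_self_sqrt hnn
  have hs1 : 1 ≤ s := by
    rw [hs]; exact Real.one_le_sqrt.mpr hn1'
  have hs2 : (C + 1) / ε ≤ s := Real.le_sqrt_of_sq_le hn2'
  have hs3 : (C + 1) / p ≤ s := Real.le_sqrt_of_sq_le hn3'
  have he2 : (C + 1) * s ≤ ε * n := by
    rw [div_le_iff₀ hε] at hs2
    nlinarith
  have hp2 : (C + 1) * s ≤ p * n := by
    rw [div_le_iff₀ hp0] at hs3
    nlinarith
  set t : ℝ := p * n - (C + 1) * s with ht
  have ht0 : 0 ≤ t := by linarith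
  set d : ℕ := ⌊t⌋₊ + 1 with hd
  have hd1 : t < (d : ℝ) := by
    rw [hd]; push_cast; exact Nat.lt_floor_add_one t
  have hd2 : (d : ℝ) ≤ t + 1 := by
    rw [hd]; push_cast
    linarith [Nat.floor_le ht0]
  have hd3 : (d : ℝ) ≤ p * n - C * s := by
    have : t + 1 ≤ p * n - C * s := by rw [ht]; nlinarith
    linarith
  have hcard : (Fintype.card (Fin n) : ℝ) = (n : ℝ) := by simp
  have hconds : Conds H d := by
    refine h (Fin n) H d ?_ hreg ?_ ?_ ?_
    · simp; omega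
    · rw [hcard]
      nlinarith
    · rw [hcard]
      nlinarith [mul_nonneg hC hs0, mul_nonneg hε.le hnn]
    · intro w
      refine (hmany w).trans ?_
      have : (Finset.univ.filter (fun u : Fin n =>
          u ≠ w ∧ ¬ H.Adj w u ∧ ((nb H Finset.univ u).card : ℝ) ≤ t)) ⊆
          (Finset.univ.filter (fun u : Fin n =>
          u ≠ w ∧ ¬ H.Adj w u ∧ (nb H Finset.univ u).card < d)) := by
        intro u hu
        simp only [Finset.mem_filter, Finset.mem_univ, true_and] at hu ⊢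
        refine ⟨hu.1, hu.2.1, ?_⟩
        have : ((nb H Finset.univ u).card : ℝ) < (d : ℝ) := lt_of_le_of_lt hu.2.2 hd1
        exact_mod_cast this
      exact_mod_cast Finset.card_le_card this
  obtain ⟨A, hA1, hA2, hA3⟩ := exists_matrix H hconds
  refine ⟨A, hA1, hA2, ?_⟩
  have : (A.rank : ℝ) ≤ (d : ℝ) := by exact_mod_cast hA3
  linarith

theorem Reg0_mono {V : Type*} [Fintype V] {H : SimpleGraph V} {p ε ε' : ℝ} (h : Reg0 H p ε)
    (he : ε ≤ ε') : Reg0 H p ε' := by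
  have hn : (0 : ℝ) ≤ (Fintype.card V : ℝ) := Nat.cast_nonneg _
  refine ⟨fun u => ?_, fun u => ?_, fun u v huv => ?_⟩
  · refine le_trans ?_ (h.deg_lb u)
    exact mul_le_mul_of_nonneg_right (by linarith) hn
  · refine (h.deg_ub u).trans ?_
    exact mul_le_mul_of_nonneg_right (by linarith) hn
  · refine (h.codeg u v huv).trans ?_
    exact mul_le_mul_of_nonneg_right (by linarith) hn

/-- union bound for three events -/
theorem Pr_three {I : Type*} [Fintype I] {p : ℝ} (hp0 : 0 ≤ p) (hp1 : p ≤ 1)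
    (A B C D : (I → Bool) → Prop) (h : ∀ f, A f → B f → C f → D f) :
    Pr p A + Pr p B + Pr p C - 2 ≤ Pr p D := by
  have h1 : Pr p (fun f => ¬ D f) ≤ Pr p (fun f => ¬ A f ∨ (¬ B f ∨ ¬ C f)) := by
    refine Pr_mono hp0 hp1 ?_
    intro f hf
    by_contra hcon
    push Not at hcon
    exact hf (h f hcon.1 hcon.2.1 hcon.2.2)
  have h2 := Pr_or hp0 hp1 (fun f => ¬ A f) (fun f => ¬ B f ∨ ¬ C f)
  have h3 := Pr_or hp0 hp1 (fun f => ¬ B f) (fun f => ¬ C f)
  have hA := Pr_compl p A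
  have hB := Pr_compl p B
  have hC := Pr_compl p C
  have hD := Pr_compl p D
  linarith

theorem main (p : ℝ) (hp0 : 0 < p) (hp1 : p < 1) (C : ℝ) :
    Filter.Tendsto (fun n : ℕ => PrG n p (fun G : SimpleGraph (Fin n) =>
      ∃ A B : Matrix (Fin n) (Fin n) ℝ,
        A.PosSemidef ∧ (∀ i j, i ≠ j → (A i j ≠ 0 ↔ G.Adj i j)) ∧
        B.PosSemidef ∧ (∀ i j, i ≠ j → (B i j ≠ 0 ↔ Gᶜ.Adj i j)) ∧
        (A.rank : ℝ) ≤ (1 - p) * n - C * Real.sqrt n ∧
        (B.rank : ℝ) ≤ p * n - C * Real.sqrt n)) Filter.atTop (nhds 1) := by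
  set C' : ℝ := max C 0 with hC'
  have hC0 : 0 ≤ C' := le_max_right _ _
  have hCC : C ≤ C' := le_max_left _ _
  have hq0 : 0 < 1 - p := by linarith
  have hq1 : 1 - p < 1 := by linarith
  obtain ⟨lam1, hlam1, hlow1⟩ := low_whp (1 - p) hq0 hq1 (C' + 1)
  obtain ⟨lam2, hlam2, hlow2⟩ := low_whp p hp0 hp1 (C' + 1)
  obtain ⟨ε1, hε1, n1, hdet1⟩ := det_step (1 - p) hq0 hq1 C' lam1 hC0 hlam1
  obtain ⟨ε2, hε2, n2, hdet2⟩ := det_step p hp0 hp1 C' lam2 hC0 hlam2
  set ε : ℝ := min (ε1 / 4) ε2 with hε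
  have hε0 : 0 < ε := lt_min (by linarith) hε2
  have hεa : 4 * ε ≤ ε1 := by
    have := min_le_left (ε1 / 4) ε2
    linarith
  have hεb : ε ≤ ε2 := min_le_right _ _
  have hreg := reg_whp p ε hp0 hp1 hε0
  obtain ⟨n3, hn3⟩ := exists_nat_ge (1 / ε)
  -- the complementary event
  have hlow1' : Filter.Tendsto (fun n : ℕ => Pr p (fun f : Ed n → Bool =>
      ManyLow (gr n f)ᶜ lam1 ((1 - p) * n - (C' + 1) * Real.sqrt n))) Filter.atTop (nhds 1) := by
    refine hlow1.congr ?_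
    intro n
    have h := Pr_comp_not p (fun f : Ed n → Bool =>
      ManyLow (gr n f) lam1 ((1 - p) * n - (C' + 1) * Real.sqrt n))
    rw [← h]
    congr 1
    funext f
    rw [gr_compl]
  have hlim : Filter.Tendsto (fun n : ℕ =>
      Pr p (fun f : Ed n → Bool => Reg0 (gr n f) p ε) +
      Pr p (fun f : Ed n → Bool =>
        ManyLow (gr n f)ᶜ lam1 ((1 - p) * n - (C' + 1) * Real.sqrt n)) +
      Pr p (fun f : Ed n → Bool =>
        ManyLow (gr n f) lam2 (p * n - (C' + 1) * Real.sqrt n)) - 2) Filter.atTop (nhds 1) := by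
    have h := ((hreg.add hlow1').add hlow2).sub_const 2
    have h1 : (1 : ℝ) + 1 + 1 - 2 = 1 := by norm_num
    rwa [h1] at h
  refine tendsto_of_tendsto_of_tendsto_of_le_of_le' hlim tendsto_const_nhds ?_ ?_
  · filter_upwards [Filter.eventually_ge_atTop (n1 + n2 + n3)] with n hn
    rw [PrG_eq]
    refine Pr_three hp0.le hp1.le _ _ _ _ ?_
    intro f hf1 hf2 hf3
    have hs0 : 0 ≤ Real.sqrt n := Real.sqrt_nonneg _
    have hcompl : Reg0 (gr n f)ᶜ (1 - p) (4 * ε) := by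
      refine Reg0_compl (gr n f) hε0.le ?_ hf1
      have h1 : (n3 : ℝ) ≤ (n : ℝ) := by
        have : n3 ≤ n := by omega
        exact_mod_cast this
      have h2 : 1 / ε ≤ (n : ℝ) := hn3.trans h1
      rw [div_le_iff₀ hε0] at h2
      have h3 : (Fintype.card (Fin n) : ℝ) = (n : ℝ) := by simp
      rw [h3]
      linarith
    obtain ⟨A, hA1, hA2, hA3⟩ := hdet1 n (gr n f)ᶜ (by omega) (Reg0_mono hcompl hεa) hf2
    obtain ⟨B, hB1, hB2, hB3⟩ := hdet2 n (gr n f) (by omega) (Reg0_mono hf1 hεb) hf3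
    refine ⟨A, B, hA1, ?_, hB1, hB2, ?_, ?_⟩
    · intro i j hij
      rw [hA2 i j hij, compl_compl]
    · have := mul_le_mul_of_nonneg_right hCC hs0
      linarith
    · have := mul_le_mul_of_nonneg_right hCC hs0
      linarith
  · refine Filter.Eventually.of_forall fun n => ?_
    show PrG n p _ ≤ 1
    rw [PrG_eq]
    exact Pr_le_one hp0.le hp1.le _

end Pool.Agent.Lib.MP_a2d8aa_co.AA
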