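import Pool.Agent.Lib.MP_a2d8aa_co.AA.Base

/-!
# Module AA-Order: all allowed orders of a set are equivalent
-/

set_option autoImplicit false

open scoped Classical

noncomputable section

namespace Pool.Agent.Lib.MP_a2d8aa_co.AA

variable {V : Type*} {d : ℕ}

theorem nb_mono (H : SimpleGraph V) {K L : Finset V} (h : K ⊆ L) (x : V) :
    (nb H K x).card ≤ (nb H L x).card :=
  Finset.card_le_card (Finset.filter_subset_filter _ h)

theorem allowed_nodup (H : SimpleGraph V) {π : List V} (h : Allowed H d π) : π.Nodup := by
  induction π with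
  | nil => exact List.nodup_nil
  | cons x σ ih => exact List.nodup_cons.2 ⟨h.2.1, ih h.1⟩

theorem nb_subset_erase (H : SimpleGraph V) (K : Finset V) (y : V) : nb H K y ⊆ K.erase y := by
  intro z hz
  rw [nb, Finset.mem_filter] at hz
  exact Finset.mem_erase.2 ⟨fun h => by subst h; exact H.irrefl hz.2, hz.1⟩

theorem nb_lt_of_card_le (H : SimpleGraph V) {K : Finset V} {y : V} (hy : y ∈ K)
    (hK : K.card ≤ d) : (nb H K y).card < d := by
  have h1 := Finset.card_le_card (nb_subset_erase H K y)
  rw [Finset.card_erase_of_mem hy] at h1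
  have : 0 < K.card := Finset.card_pos.2 ⟨y, hy⟩
  omega

theorem allowed_small (H : SimpleGraph V) : ∀ s : List V, s.Nodup → s.length ≤ d →
    Allowed H d s := by
  intro s
  induction s with
  | nil => intro _ _; trivial
  | cons x σ ih =>
    intro hnd hl
    have hnd' := List.nodup_cons.1 hnd
    rw [List.length_cons] at hl
    refine ⟨ih hnd'.2 (by omega), hnd'.1, ?_⟩
    calc (nb H σ.toFinset x).card ≤ σ.toFinset.card :=
          Finset.card_le_card (Finset.filter_subset _ _)
      _ ≤ σ.length := List.toFinset_card_le σ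
      _ < d := by omega

/-- allowed orders exist, also with prescribed beginning -/
theorem exists_allowed_first (H : SimpleGraph V) (S K : Finset V) (hSK : S ⊆ K)
    (hS : S.card ≤ d) (h : ∀ L : Finset V, S ⊆ L → L ⊆ K → d < L.card → ∃ y ∈ Low H d L, y ∉ S) :
    ∃ ρ s : List V, s.toFinset = S ∧ (ρ ++ s).toFinset = K ∧ Allowed H d (ρ ++ s) := by
  induction' hn : K.card using Nat.strong_induction_on with n ih generalizing K
  by_cases hKS : K = S
  · refine ⟨[], S.toList, by simp, by simp [hKS], ?_⟩
    exact allowed_small H _ (Finset.nodup_toList S) (by simpa using hS)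
  · have hy : ∃ y ∈ K, y ∉ S ∧ (nb H K y).card < d := by
      by_cases hd : d < K.card
      · obtain ⟨y, hy, hyS⟩ := h K hSK le_rfl hd
        rw [Low, Finset.mem_filter] at hy
        exact ⟨y, hy.1, hyS, hy.2⟩
      · obtain ⟨y, hyK, hyS⟩ := Finset.exists_of_ssubset
          (Finset.ssubset_iff_subset_ne.2 ⟨hSK, Ne.symm hKS⟩)
        exact ⟨y, hyK, hyS, nb_lt_of_card_le H hyK (by omega)⟩
    obtain ⟨y, hyK, hyS, hlt⟩ := hy
    obtain ⟨ρ, s, hs, hρ, hA⟩ := ih (K.erase y).card
      (by rw [← hn]; exact Finset.card_erase_lt_of_mem hyK) (K.erase y)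
      (fun z hz => Finset.mem_erase.2 ⟨fun h0 => hyS (h0 ▸ hz), hSK hz⟩)
      (fun L h1 h2 h3 => h L h1 (h2.trans (Finset.erase_subset _ _)) h3) rfl
    refine ⟨y :: ρ, s, hs, ?_, ?_⟩
    · rw [List.cons_append, List.toFinset_cons, hρ, Finset.insert_erase hyK]
    · refine ⟨hA, ?_, ?_⟩
      · intro hy
        have : y ∈ (ρ ++ s).toFinset := List.mem_toFinset.2 hy
        rw [hρ] at this
        simp at this
      · show (nb H (ρ ++ s).toFinset y).card < d
        rw [hρ]
        exact lt_of_le_of_lt (nb_mono H (Finset.erase_subset _ _) y) hlt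

theorem exists_allowed (H : SimpleGraph V) (hC : Conds H d) (K : Finset V) :
    ∃ π : List V, π.toFinset = K ∧ Allowed H d π := by
  obtain ⟨ρ, s, -, h2, h3⟩ := exists_allowed_first (d := d) H ∅ K (Finset.empty_subset _)
    (by simp) (by
      intro L _ _ hL
      obtain ⟨x, hx⟩ : L.Nonempty := Finset.card_pos.1 (by omega)
      obtain ⟨y, hy, -, -⟩ := hC.three L hL x x
      exact ⟨y, hy, by simp⟩)
  exact ⟨ρ ++ s, h2, h3⟩

theorem nb_cons_self (H : SimpleGraph V) (x : V) (σ : List V) :
    nb H (x :: σ).toFinset x = nb H σ.toFinset x := by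
  ext z
  simp only [nb, Finset.mem_filter, List.mem_toFinset, List.mem_cons]
  constructor
  · rintro ⟨h1, h2⟩
    refine ⟨h1.resolve_left (fun h => ?_), h2⟩
    subst h
    exact H.irrefl h2
  · rintro ⟨h1, h2⟩
    exact ⟨Or.inr h1, h2⟩

theorem nb_cons_of_not_adj (H : SimpleGraph V) {z w : V} (hn : ¬ H.Adj z w) (σ : List V) :
    nb H (w :: σ).toFinset z = nb H σ.toFinset z := by
  ext u
  simp only [nb, Finset.mem_filter, List.mem_toFinset, List.mem_cons]
  constructor
  · rintro ⟨h1, h2⟩
    refine ⟨h1.resolve_left (fun h => ?_), h2⟩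
    subst h
    exact hn h2
  · rintro ⟨h1, h2⟩
    exact ⟨Or.inr h1, h2⟩

theorem U_swap_subset (H : SimpleGraph V) {z w : V} (hn : ¬ H.Adj z w) (τ : List V) :
    U H d (z :: w :: τ) ⊆ U H d (w :: z :: τ) := by
  have hn' : ¬ H.Adj w z := fun h => hn h.symm
  rintro c ⟨⟨h1, h2, h3⟩, h4, h5⟩
  rw [nb_cons_of_not_adj H hn] at h4
  refine ⟨⟨h1, h4, fun y hy hzy => h5 y (List.mem_cons_of_mem _ hy) hzy⟩, ?_, ?_⟩
  · rw [nb_cons_of_not_adj H hn']
    exact h2
  · intro y hy hwy
    rcases List.mem_cons.1 hy with rfl | hy
    · exact absurd hwy hn'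
    · exact h3 y hy hwy

theorem order_equiv (H : SimpleGraph V) (hC : Conds H d) (π π' : List V) (h : Allowed H d π)
    (h' : Allowed H d π') (hset : π.toFinset = π'.toFinset) : U H d π ⊆ closure (U H d π') := by
  induction' hn : π.length using Nat.strong_induction_on with n ih generalizing π π'
  by_cases hd : π.length ≤ d
  · -- small sets
    refine (base_dense H (allowed_nodup H h) hd).trans (closure_mono ?_)
    rintro c ⟨h1, h2⟩
    refine mem_U_of_ind H (by rw [← hset]; exact h2) ?_
    intro x hx y hy
    have e : ∀ z, z ∈ π' → z ∈ π := fun z hz =>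
      List.mem_toFinset.1 (by rw [hset]; exact List.mem_toFinset.2 hz)
    exact U_orth H h1 x (e x hx) y (e y hy)
  · -- the common set
    set K : Finset V := π.toFinset with hK
    have hcard : K.card = π.length := List.toFinset_card_of_nodup (allowed_nodup H h)
    have hKd : d < K.card := by omega
    -- the same last vertex
    have same : ∀ (x : V) (σ σ' : List V), Allowed H d (x :: σ) → Allowed H d (x :: σ') →
        (x :: σ).toFinset = K → (x :: σ').toFinset = K →
        U H d (x :: σ) ⊆ closure (U H d (x :: σ')) := by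
      intro x σ σ' h1 h2 h3 h4
      have hx : x ∉ σ := h1.2.1
      have hx' : x ∉ σ' := h2.2.1
      have e1 : σ.toFinset = K.erase x := by
        rw [← h3, List.toFinset_cons, Finset.erase_insert (by simpa using hx)]
      have e2 : σ'.toFinset = K.erase x := by
        rw [← h4, List.toFinset_cons, Finset.erase_insert (by simpa using hx')]
      have hlen : σ.length < n := by
        have : (x :: σ).toFinset.card = (x :: σ).length :=
          List.toFinset_card_of_nodup (allowed_nodup H h1)
        rw [h3, List.length_cons] at this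
        omega
      have hsub := ih σ.length hlen σ σ' h1.1 h2.1 (e1.trans e2.symm) rfl
      have := ext_closure H hx' (e1.trans e2.symm) (B := U H d σ') le_rfl
        (fun c hc v => U_update H hx' v hc) hsub
      exact this.trans (closure_mono Set.inter_subset_left)
    -- last vertices are low
    have low : ∀ (x : V) (σ : List V), Allowed H d (x :: σ) → (x :: σ).toFinset = K →
        x ∈ Low H d K := by
      intro x σ h1 h2
      rw [Low, Finset.mem_filter]
      refine ⟨by rw [← h2]; simp, ?_⟩
      rw [← h2, nb_cons_self]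
      exact h1.2.2
    obtain ⟨x, σ, rfl⟩ : ∃ x σ, π = x :: σ := by
      cases π with
      | nil => simp at hd
      | cons x σ => exact ⟨x, σ, rfl⟩
    -- follow a path
    have key : ∀ z, Relation.ReflTransGen
        (fun a b => a ∈ Low H d K ∧ b ∈ Low H d K ∧ a ≠ b ∧ ¬ H.Adj a b) x z →
        ∀ τ : List V, Allowed H d (z :: τ) → (z :: τ).toFinset = K →
          U H d (x :: σ) ⊆ closure (U H d (z :: τ)) := by
      intro z hz
      induction hz with
      | refl => intro τ h1 h2; exact same x σ τ h h1 hK.symm h2
      | @tail a b _ hab ihz =>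
        obtain ⟨ha, hb, hne, hnadj⟩ := hab
        intro τ h1 h2
        obtain ⟨ρ, hρ, hρA⟩ := exists_allowed H hC ((K.erase a).erase b)
        rw [Low, Finset.mem_filter] at ha hb
        have hbK : b ∈ K.erase a := Finset.mem_erase.2 ⟨Ne.symm hne, hb.1⟩
        have haK : a ∈ K.erase b := Finset.mem_erase.2 ⟨hne, ha.1⟩
        have hbρ : b ∉ ρ := by rw [← List.mem_toFinset, hρ]; simp
        have haρ : a ∉ ρ := by rw [← List.mem_toFinset, hρ]; simp
        have eb : (b :: ρ).toFinset = K.erase a := by
          rw [List.toFinset_cons, hρ, Finset.insert_erase hbK]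
        have ea : (a :: ρ).toFinset = K.erase b := by
          rw [List.toFinset_cons, hρ, Finset.erase_right_comm, Finset.insert_erase haK]
        have eab : (a :: b :: ρ).toFinset = K := by
          rw [List.toFinset_cons, eb, Finset.insert_erase ha.1]
        have eba : (b :: a :: ρ).toFinset = K := by
          rw [List.toFinset_cons, ea, Finset.insert_erase hb.1]
        have sρ : ρ.toFinset ⊆ K := by
          rw [hρ]
          exact (Finset.erase_subset _ _).trans (Finset.erase_subset _ _)
        have sb : (b :: ρ).toFinset ⊆ K := by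
          rw [eb]
          exact Finset.erase_subset _ _
        have sa : (a :: ρ).toFinset ⊆ K := by
          rw [ea]
          exact Finset.erase_subset _ _
        have Aab : Allowed H d (a :: b :: ρ) := by
          refine ⟨⟨hρA, hbρ, lt_of_le_of_lt (nb_mono H sρ b) hb.2⟩, ?_,
            lt_of_le_of_lt (nb_mono H sb a) ha.2⟩
          intro h0
          rcases List.mem_cons.1 h0 with h0 | h0
          · exact hne h0
          · exact haρ h0
        have Aba : Allowed H d (b :: a :: ρ) := by
          refine ⟨⟨hρA, haρ, lt_of_le_of_lt (nb_mono H sρ a) ha.2⟩, ?_,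
            lt_of_le_of_lt (nb_mono H sa b) hb.2⟩
          intro h0
          rcases List.mem_cons.1 h0 with h0 | h0
          · exact hne h0.symm
          · exact hbρ h0
        have s1 := ihz (b :: ρ) Aab eab
        have s2 := s1.trans (closure_mono (U_swap_subset (d := d) H hnadj ρ))
        have s3 := same b (a :: ρ) τ Aba h1 eba h2
        exact s2.trans (closure_minimal s3 isClosed_closure)
    obtain ⟨y, τ, rfl⟩ : ∃ y τ, π' = y :: τ := by
      cases π' with
      | nil => exfalso; rw [hset] at hcard; simp at hcard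
      | cons y τ => exact ⟨y, τ, rfl⟩
    exact key y (hC.conn K hKd x (low x σ h hK.symm) y (low y τ h' hset.symm)) τ h' hset.symm

end Pool.Agent.Lib.MP_a2d8aa_co.AA
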