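import Pool.Agent.Lib.MP_a2d8aa_co.AA.Defs

/-!
# Module AA-PrBasic: finite product probability

PROOFS.  `sum_wt`: `Finset.prod_univ_sum` / `Fintype.piFinset`: `∑_f ∏_i g i (f i) = ∏_i ∑_b g i b`,
and `p + (1-p) = 1`.
`Ex_mul_of_dep`: split `f : I → Bool` into the restrictions to `J` and to the complement
(`Equiv.piEquivPiSubtypeProd` or `Equiv.Set`...); `wt` factorises; `F` depends only on the first,
`G` only on the second component.
`Ex_prod_of_dep`: induction on `s`, `∏_{i∈s} F i` depends on `s.biUnion J`.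
`Ex_comp_not`: reindex by the involution `f ↦ fun i => !f i`.
-/

set_option autoImplicit false

open scoped Classical

noncomputable section

namespace Pool.Agent.Lib.MP_a2d8aa_co.AA

variable {I : Type*} [Fintype I] {p : ℝ}

theorem wt_nonneg (hp0 : 0 ≤ p) (hp1 : p ≤ 1) (f : I → Bool) : 0 ≤ wt p f := by
  unfold wt
  refine Finset.prod_nonneg fun i _ => ?_
  split_ifs <;> linarith

private theorem sum_prod_bool (g : I → Bool → ℝ) :
    ∑ f : I → Bool, ∏ i, g i (f i) = ∏ i, (g i true + g i false) := by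
  have h := Finset.prod_univ_sum (fun _ : I => (Finset.univ : Finset Bool)) g
  rw [Fintype.piFinset_univ] at h
  rw [← h]
  refine Finset.prod_congr rfl fun i _ => ?_
  simp

theorem sum_wt (p : ℝ) : ∑ f : I → Bool, wt p f = 1 := by
  have h := sum_prod_bool (I := I) (fun _ b => if b = true then p else 1 - p)
  unfold wt
  rw [h]
  simp

theorem Ex_const (p a : ℝ) : Ex (I := I) p (fun _ => a) = a := by
  unfold Ex
  rw [← Finset.sum_mul, sum_wt, one_mul]

theorem Ex_add (p : ℝ) (F G : (I → Bool) → ℝ) :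
    Ex p (fun f => F f + G f) = Ex p F + Ex p G := by
  unfold Ex
  rw [← Finset.sum_add_distrib]
  exact Finset.sum_congr rfl fun f _ => by ring

theorem Ex_sum {ι : Type*} (p : ℝ) (s : Finset ι) (F : ι → (I → Bool) → ℝ) :
    Ex p (fun f => ∑ i ∈ s, F i f) = ∑ i ∈ s, Ex p (F i) := by
  unfold Ex
  rw [Finset.sum_comm]
  exact Finset.sum_congr rfl fun f _ => by rw [Finset.mul_sum]

theorem Ex_smul (p a : ℝ) (F : (I → Bool) → ℝ) : Ex p (fun f => a * F f) = a * Ex p F := by
  unfold Ex
  rw [Finset.mul_sum]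
  exact Finset.sum_congr rfl fun f _ => by ring

theorem Ex_mono (hp0 : 0 ≤ p) (hp1 : p ≤ 1) {F G : (I → Bool) → ℝ} (h : ∀ f, F f ≤ G f) :
    Ex p F ≤ Ex p G :=
  Finset.sum_le_sum fun f _ => mul_le_mul_of_nonneg_left (h f) (wt_nonneg hp0 hp1 f)

/-- exchange the two configurations outside `J` -/
private def swp (J : Finset I) (x : (I → Bool) × (I → Bool)) : (I → Bool) × (I → Bool) :=
  (fun i => if i ∈ J then x.1 i else x.2 i, fun i => if i ∈ J then x.2 i else x.1 i)

omit [Fintype I] in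
private theorem swp_swp (J : Finset I) : Function.Involutive (swp J) := by
  rintro ⟨f, g⟩
  unfold swp
  refine Prod.ext ?_ ?_ <;>
  · funext i
    by_cases h : i ∈ J <;> simp [h]

private theorem wt_swp (p : ℝ) (J : Finset I) (x : (I → Bool) × (I → Bool)) :
    wt p (swp J x).1 * wt p (swp J x).2 = wt p x.1 * wt p x.2 := by
  unfold wt swp
  rw [← Finset.prod_mul_distrib, ← Finset.prod_mul_distrib]
  refine Finset.prod_congr rfl fun i _ => ?_
  by_cases h : i ∈ J
  · simp [h]
  · simp only [h, if_false]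
    ring

theorem Ex_mul_of_dep (p : ℝ) {F G : (I → Bool) → ℝ} {J J' : Finset I} (hd : Disjoint J J')
    (hF : DepOn J F) (hG : DepOn J' G) : Ex p (fun f => F f * G f) = Ex p F * Ex p G := by
  have h1 : Ex p F * Ex p G =
      ∑ x : (I → Bool) × (I → Bool), (wt p x.1 * wt p x.2) * (F x.1 * G x.2) := by
    unfold Ex
    rw [Finset.sum_mul_sum, Fintype.sum_prod_type]
    exact Finset.sum_congr rfl fun f _ => Finset.sum_congr rfl fun g _ => by ring
  have h2 : Ex p (fun f => F f * G f) =
      ∑ x : (I → Bool) × (I → Bool), (wt p x.1 * wt p x.2) * (F x.1 * G x.1) := by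
    unfold Ex
    rw [Fintype.sum_prod_type]
    refine Finset.sum_congr rfl fun f _ => ?_
    have : ∀ g : I → Bool, wt p f * wt p g * (F f * G f) = wt p g * (wt p f * (F f * G f)) :=
      fun g => by ring
    rw [Finset.sum_congr rfl fun g _ => this g, ← Finset.sum_mul, sum_wt, one_mul]
  rw [h1, h2]
  refine Fintype.sum_equiv (Function.Involutive.toPerm (swp J) (swp_swp J)) _ _ fun x => ?_
  have e : Function.Involutive.toPerm (swp J) (swp_swp J) x = swp J x := rfl
  rw [e, wt_swp]
  congr 1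
  have hF' : F (swp J x).1 = F x.1 := by
    refine hF _ _ fun i hi => ?_
    simp [swp, hi]
  have hG' : G (swp J x).2 = G x.1 := by
    refine hG _ _ fun i hi => ?_
    have hn : i ∉ J := fun h => (Finset.disjoint_left.1 hd) h hi
    simp [swp, hn]
  rw [hF', hG']

theorem Ex_prod_of_dep {ι : Type*} (p : ℝ) (s : Finset ι) (J : ι → Finset I)
    (hd : (s : Set ι).PairwiseDisjoint J) (F : ι → (I → Bool) → ℝ)
    (hF : ∀ i ∈ s, DepOn (J i) (F i)) :
    Ex p (fun f => ∏ i ∈ s, F i f) = ∏ i ∈ s, Ex p (F i) := by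
  induction s using Finset.induction_on with
  | empty => simpa using Ex_const (I := I) p 1
  | insert a s ha ih =>
    have h1 : (fun f : I → Bool => ∏ i ∈ insert a s, F i f) =
        fun f => F a f * ∏ i ∈ s, F i f := by
      funext f
      rw [Finset.prod_insert ha]
    have hd' : (s : Set ι).PairwiseDisjoint J :=
      hd.subset (by simp)
    have hdis : Disjoint (J a) (s.biUnion J) := by
      rw [Finset.disjoint_biUnion_right]
      intro i hi
      exact hd (by simp) (by simp [hi]) (fun h => ha (h ▸ hi))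
    have hdep : DepOn (s.biUnion J) (fun f => ∏ i ∈ s, F i f) := by
      intro f g hfg
      refine Finset.prod_congr rfl fun i hi => ?_
      exact hF i (Finset.mem_insert_of_mem hi) f g fun j hj =>
        hfg j (Finset.mem_biUnion.2 ⟨i, hi, hj⟩)
    rw [h1, Ex_mul_of_dep p hdis (hF a (Finset.mem_insert_self a s)) hdep,
      ih hd' (fun i hi => hF i (Finset.mem_insert_of_mem hi)), Finset.prod_insert ha]

theorem Ex_coord (p : ℝ) (i : I) : Ex p (fun f => if f i = true then (1 : ℝ) else 0) = p := by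
  have h := sum_prod_bool (I := I) (fun j b =>
    (if b = true then p else 1 - p) * (if j = i then (if b = true then (1 : ℝ) else 0) else 1))
  have h1 : Ex p (fun f : I → Bool => if f i = true then (1 : ℝ) else 0) =
      ∑ f : I → Bool, ∏ j, ((if f j = true then p else 1 - p) *
        (if j = i then (if f j = true then (1 : ℝ) else 0) else 1)) := by
    unfold Ex wt
    refine Finset.sum_congr rfl fun f _ => ?_
    rw [Finset.prod_mul_distrib, Finset.prod_ite_eq']
    simp
  rw [h1, h, Finset.prod_eq_single i]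
  · simp
  · intro j _ hj
    simp [hj]
  · intro h
    exact absurd (Finset.mem_univ i) h

theorem Ex_comp_not (p : ℝ) (F : (I → Bool) → ℝ) :
    Ex p (fun f => F (fun i => !f i)) = Ex (1 - p) F := by
  have hinv : Function.Involutive (fun (f : I → Bool) => (fun i => !f i : I → Bool)) := by
    intro f
    funext i
    simp
  unfold Ex
  refine Fintype.sum_equiv (Function.Involutive.toPerm _ hinv) _ _ fun f => ?_
  have e : Function.Involutive.toPerm _ hinv f = fun i => !f i := rfl
  rw [e]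
  congr 1
  unfold wt
  refine Finset.prod_congr rfl fun i _ => ?_
  rcases hfi : f i with _ | _ <;> simp [hfi]

theorem Pr_nonneg (hp0 : 0 ≤ p) (hp1 : p ≤ 1) (A : (I → Bool) → Prop) : 0 ≤ Pr p A := by
  unfold Pr
  have h := Ex_mono (I := I) (F := fun _ => 0) (G := fun f => if A f then 1 else 0) hp0 hp1
    (fun f => by split_ifs <;> norm_num)
  rwa [Ex_const] at h

theorem Pr_le_one (hp0 : 0 ≤ p) (hp1 : p ≤ 1) (A : (I → Bool) → Prop) : Pr p A ≤ 1 := by
  unfold Pr
  have h := Ex_mono (I := I) (F := fun f => if A f then 1 else 0) (G := fun _ => 1) hp0 hp1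
    (fun f => by split_ifs <;> norm_num)
  rwa [Ex_const] at h

theorem Pr_mono (hp0 : 0 ≤ p) (hp1 : p ≤ 1) {A B : (I → Bool) → Prop} (h : ∀ f, A f → B f) :
    Pr p A ≤ Pr p B := by
  refine Ex_mono hp0 hp1 fun f => ?_
  by_cases hA : A f
  · simp [hA, h f hA]
  · simp only [hA, if_false]
    split_ifs <;> norm_num

theorem Pr_compl (p : ℝ) (A : (I → Bool) → Prop) : Pr p (fun f => ¬ A f) = 1 - Pr p A := by
  have h1 : Pr p (fun f => ¬ A f) + Pr p A = 1 := by
    unfold Pr
    rw [← Ex_add]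
    refine Eq.trans ?_ (Ex_const (I := I) p 1)
    congr 1
    funext f
    by_cases hA : A f <;> simp [hA]
  linarith

theorem Pr_union {ι : Type*} (hp0 : 0 ≤ p) (hp1 : p ≤ 1) (s : Finset ι)
    (A : ι → (I → Bool) → Prop) : Pr p (fun f => ∃ i ∈ s, A i f) ≤ ∑ i ∈ s, Pr p (A i) := by
  unfold Pr
  rw [← Ex_sum]
  refine Ex_mono hp0 hp1 fun f => ?_
  have h0 : ∀ i ∈ s, 0 ≤ (if A i f then (1 : ℝ) else 0) := fun i _ => by
    split_ifs <;> norm_num
  split_ifs with h
  · obtain ⟨i, hi, hA⟩ := h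
    refine le_trans ?_ (Finset.single_le_sum h0 hi)
    simp [hA]
  · exact Finset.sum_nonneg h0

theorem Pr_or (hp0 : 0 ≤ p) (hp1 : p ≤ 1) (A B : (I → Bool) → Prop) :
    Pr p (fun f => A f ∨ B f) ≤ Pr p A + Pr p B := by
  unfold Pr
  rw [← Ex_add]
  refine Ex_mono hp0 hp1 fun f => ?_
  by_cases hA : A f <;> by_cases hB : B f <;> simp [hA, hB]

theorem Pr_comp_not (p : ℝ) (A : (I → Bool) → Prop) :
    Pr p (fun f => A (fun i => !f i)) = Pr (1 - p) A :=
  Ex_comp_not p (fun f => if A f then 1 else 0)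

theorem Pr_markov (hp0 : 0 ≤ p) (hp1 : p ≤ 1) {F : (I → Bool) → ℝ} (hF : ∀ f, 0 ≤ F f) {a : ℝ}
    (ha : 0 < a) : Pr p (fun f => a ≤ F f) ≤ Ex p F / a := by
  have h1 : Ex p F / a = Ex p (fun f => a⁻¹ * F f) := by
    rw [Ex_smul, div_eq_inv_mul]
  rw [h1]
  refine Ex_mono hp0 hp1 fun f => ?_
  split_ifs with h
  · rw [inv_mul_eq_div, le_div_iff₀ ha, one_mul]
    exact h
  · exact mul_nonneg (inv_nonneg.2 ha.le) (hF f)

theorem Pr_inter_of_dep {ι : Type*} (p : ℝ) (s : Finset ι) (J : ι → Finset I)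
    (hd : (s : Set ι).PairwiseDisjoint J) (A : ι → (I → Bool) → Prop)
    (hA : ∀ i ∈ s, DepOn (J i) (A i)) :
    Pr p (fun f => ∀ i ∈ s, A i f) = ∏ i ∈ s, Pr p (A i) := by
  unfold Pr
  rw [← Ex_prod_of_dep p s J hd (fun i f => if A i f then 1 else 0)]
  · congr 1
    funext f
    rw [Finset.prod_boole]
    by_cases h : ∀ i ∈ s, A i f
    · rw [if_pos h]
      exact (if_pos h).symm
    · rw [if_neg h]
      exact (if_neg h).symm
  · intro i hi f g hfg
    simp only [hA i hi f g hfg]

end Pool.Agent.Lib.MP_a2d8aa_co.AA
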