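import Pool.Agent.Lib.MP_a2d8aa_co.AA.Defs

/-!
# Module AA-Proj: the Gram projection

`proj S x c` replaces `c x` by `c x` minus its orthogonal projection onto the span of the `c s`,
`s ∈ S`, written with the inverse Gram matrix (`Matrix.nonsing_inv`, so continuity is easy).

PROOFS.  `gram` of a linearly independent family has non-zero determinant (Mathlib: look for
`Matrix.gram`, `Matrix.posDef_gram...`, or directly: if `gram *ᵥ v = 0` then
`‖∑ v_s c_s‖² = v ⬝ gram v = 0`, so `v = 0`; `Matrix.exists_mulVec_eq_zero_iff`).
`proj_orth`: `⟪c t, ∑_s (G⁻¹ b)_s c_s⟫ = (G (G⁻¹ b))_t = b_t` (`Matrix.mul_nonsing_inv`).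
`proj_fix`: `b = 0`.
`continuousAt_proj`: entries of `G⁻¹` are `(det G)⁻¹ * adjugate G i j` (`Matrix.inv_def`,
`Ring.inverse_eq_inv'`), `det` and `adjugate` are continuous (`Continuous.matrix_det`,
`Continuous.matrix_adjugate`), `det G ≠ 0` at `c`; `continuousAt_pi`, case `y = x` or not.
`isOpen_Ind`: preimage of `isOpen_setOf_linearIndependent` under the restriction map.
-/

set_option autoImplicit false

open scoped Classical

noncomputable section

namespace Pool.Agent.Lib.MP_a2d8aa_co.AA

variable {V : Type*} {d : ℕ}

/-- the Gram matrix of the vectors `c s`, `s ∈ S` -/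
def gramM (S : Finset V) (c : V → E d) : Matrix S S ℝ := Matrix.of fun s t => inner ℝ (c s) (c t)

/-- make `c x` orthogonal to the `c s`, `s ∈ S` -/
def proj (S : Finset V) (x : V) (c : V → E d) : V → E d :=
  Function.update c x (c x - ∑ s : S,
    ((gramM S c)⁻¹.mulVec (fun t : S => inner ℝ (c t) (c x))) s • c s)

theorem det_gramM_ne_zero {S : Finset V} {c : V → E d} (h : c ∈ Ind d S) :
    (gramM S c).det ≠ 0 := by
  intro h0
  obtain ⟨v, hv, hM⟩ := Matrix.exists_mulVec_eq_zero_iff.mpr h0
  have hzero : ∑ s : S, v s • c s = 0 := by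
    rw [← inner_self_eq_zero (𝕜 := ℝ), sum_inner]
    refine Finset.sum_eq_zero fun s _ => ?_
    rw [real_inner_smul_left, inner_sum]
    have h1 : ∑ t : S, inner ℝ (c s) (v t • c t) = (gramM S c).mulVec v s := by
      unfold gramM Matrix.mulVec dotProduct
      refine Finset.sum_congr rfl fun t _ => ?_
      rw [real_inner_smul_right, mul_comm]
      rfl
    rw [h1, hM]
    simp
  have hli : LinearIndependent ℝ (fun s : S => c s) := h
  have := Fintype.linearIndependent_iff.mp hli v hzero
  exact hv (funext this)

theorem proj_ne (S : Finset V) {x y : V} (c : V → E d) (h : y ≠ x) : proj S x c y = c y := by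
  unfold proj
  exact Function.update_of_ne h _ _

theorem proj_orth {S : Finset V} {x : V} {c : V → E d} (h : c ∈ Ind d S) (hx : x ∉ S) :
    ∀ s ∈ S, inner ℝ (proj S x c x) (proj S x c s) = 0 := by
  intro s hs
  have hsx : s ≠ x := fun e => hx (e ▸ hs)
  rw [proj_ne S c hsx]
  have hdet : IsUnit (gramM S c).det := isUnit_iff_ne_zero.mpr (det_gramM_ne_zero h)
  unfold proj
  rw [Function.update_self, inner_sub_left, sum_inner]
  set b : S → ℝ := fun t : S => inner ℝ (c t) (c x) with hb
  have h1 : ∑ t : S, inner ℝ (((gramM S c)⁻¹.mulVec b) t • c t) (c s) =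
      (gramM S c).mulVec ((gramM S c)⁻¹.mulVec b) ⟨s, hs⟩ := by
    unfold Matrix.mulVec dotProduct
    refine Finset.sum_congr rfl fun t _ => ?_
    rw [real_inner_smul_left, mul_comm]
    congr 1
    exact real_inner_comm _ _
  rw [h1, Matrix.mulVec_mulVec, Matrix.mul_nonsing_inv _ hdet, Matrix.one_mulVec, hb,
    real_inner_comm]
  simp

theorem proj_fix {S : Finset V} {x : V} {c : V → E d} (h : ∀ s ∈ S, inner ℝ (c x) (c s) = 0) :
    proj S x c = c := by
  unfold proj
  have hb : (fun t : S => (inner ℝ (c t) (c x) : ℝ)) = 0 := by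
    funext t
    rw [real_inner_comm, h t t.2]
    rfl
  rw [hb, Matrix.mulVec_zero]
  simp

/-- the Gram matrix is a continuous function of the vectors -/
theorem continuous_gramM (S : Finset V) : Continuous (fun c : V → E d => gramM S c) := by
  refine continuous_matrix fun i j => ?_
  unfold gramM
  simp only [Matrix.of_apply]
  exact (continuous_apply _).inner (continuous_apply _)

theorem continuousAt_proj {S : Finset V} {x : V} {c : V → E d} (h : c ∈ Ind d S) :
    ContinuousAt (proj S x) c := by
  unfold proj
  refine ContinuousAt.update continuousAt_id x ?_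
  have hinv : ContinuousAt (fun c : V → E d => (gramM S c)⁻¹) c := by
    have h1 : ContinuousAt Ring.inverse (gramM S c).det := by
      rw [Ring.inverse_eq_inv']
      exact continuousAt_inv₀ (det_gramM_ne_zero h)
    exact ContinuousAt.comp (f := fun c : V → E d => gramM S c)
      (continuousAt_matrix_inv (gramM S c) h1) (continuous_gramM S).continuousAt
  have hcoef : ∀ s : S, ContinuousAt (fun c : V → E d =>
      (gramM S c)⁻¹.mulVec (fun t : S => inner ℝ (c t) (c x)) s) c := by
    intro s
    unfold Matrix.mulVec dotProduct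
    refine tendsto_finsetSum _ fun t _ => ?_
    have h0 : Continuous (fun M : Matrix S S ℝ => M s t) := continuous_id.matrix_elem s t
    have h1 : ContinuousAt (fun c : V → E d => (gramM S c)⁻¹ s t) c :=
      ContinuousAt.comp (g := fun M : Matrix S S ℝ => M s t)
        (f := fun c : V → E d => (gramM S c)⁻¹) h0.continuousAt hinv
    have h2 : ContinuousAt (fun c : V → E d => (inner ℝ (c t) (c x) : ℝ)) c :=
      ((continuous_apply (t : V)).inner (continuous_apply x)).continuousAt
    exact h1.mul h2
  have hterm : ∀ s : S, ContinuousAt (fun c : V → E d =>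
      ((gramM S c)⁻¹.mulVec (fun t : S => inner ℝ (c t) (c x)) s) • c s) c := by
    intro s
    have h3 : ContinuousAt (fun c : V → E d => c s) c :=
      (continuous_apply (s : V)).continuousAt
    exact (hcoef s).smul h3
  have h4 : ContinuousAt (fun c : V → E d => c x) c := (continuous_apply x).continuousAt
  exact h4.sub (tendsto_finsetSum _ fun s _ => hterm s)

theorem isOpen_Ind (d : ℕ) (S : Finset V) : IsOpen (Ind d S) := by
  have h1 : IsOpen {f : S → E d | LinearIndependent ℝ f} := isOpen_setOfPred_linearIndependent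
  have h2 : Continuous (fun (c : V → E d) (s : S) => c s) :=
    continuous_pi fun s => continuous_apply (s : V)
  exact h1.preimage h2

end Pool.Agent.Lib.MP_a2d8aa_co.AA
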