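import Pool.Agent.Lib.MP_a2d8aa_co.AA.Defs

/-!
# Module AA-Var: second moment of the numbers of neighbours in a set

Notation `n = Fintype.card V`, `b = B.card`, `a_u = (nb H B u).card`.
`variance`: `∑_u a_u = ∑_{v ∈ B} deg v ≥ b (p - ε) n` (double counting, `H.symm`);
`∑_u a_u² = ∑_{v, v' ∈ B} #{u | Adj u v ∧ Adj u v'} ≤ b (p + ε) n + b² (p² + ε) n` (diagonal terms are
degrees; `(nb H (nb H univ v) v').card` is the codegree).  Hence
`∑_u (a_u - p b)² = ∑ a_u² - 2 p b ∑ a_u + n p² b² ≤ b (p+ε) n + ε b² n + 2 p ε b² n ≤ 2bn + 3εnb²`.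
`high_bound`: for `u ∈ K \ Low H d K` and `R = univ \ K`: `#(N(u) ∩ K) ≥ d`, so
`#(N(u) ∩ R) = deg u - #(N(u) ∩ K) ≤ (p + ε) n - d ≤ 2 ε n ≤ p r / 2`, so
`(a_u - p r)² ≥ (p r / 2)²` with `B = R`; sum over `K \ Low H d K` and use `variance`.
`mix`: for `u ∈ A`: `a_u = b`, so `(a_u - p b)² = ((1-p) b)²`; sum over `A`.
`high_two`: `N(u) ∩ K` and `N(v) ∩ K` have at least `d` elements, both in `K`, inclusion-exclusion.
-/

set_option autoImplicit false

open scoped Classical

noncomputable section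

namespace Pool.Agent.Lib.MP_a2d8aa_co.AA

variable {V : Type*} [Fintype V]

private theorem card_nb (H : SimpleGraph V) (B : Finset V) (u : V) :
    ((nb H B u).card : ℝ) = ∑ v ∈ B, (if H.Adj u v then (1 : ℝ) else 0) := by
  unfold nb
  rw [Finset.sum_boole]

private theorem card_nb_univ (H : SimpleGraph V) (v : V) :
    ∑ u : V, (if H.Adj u v then (1 : ℝ) else 0) = ((nb H Finset.univ v).card : ℝ) := by
  rw [card_nb]
  refine Finset.sum_congr rfl fun u _ => ?_
  simp only [H.adj_comm u v]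

private theorem card_codeg (H : SimpleGraph V) (v w : V) :
    ∑ u : V, (if H.Adj u v then (1 : ℝ) else 0) * (if H.Adj u w then (1 : ℝ) else 0) =
      ((nb H (nb H Finset.univ v) w).card : ℝ) := by
  rw [card_nb]
  unfold nb
  rw [Finset.sum_filter]
  refine Finset.sum_congr rfl fun u _ => ?_
  simp only [H.adj_comm v u, H.adj_comm w u]
  split_ifs <;> simp

theorem variance (H : SimpleGraph V) {p ε : ℝ} (hp0 : 0 ≤ p) (hp1 : p ≤ 1) (he0 : 0 ≤ ε)
    (he1 : ε ≤ 1) (hR : Reg0 H p ε) (B : Finset V) :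
    ∑ u : V, (((nb H B u).card : ℝ) - p * (B.card : ℝ)) ^ 2 ≤
      2 * (B.card : ℝ) * (Fintype.card V : ℝ) +
        3 * ε * (Fintype.card V : ℝ) * (B.card : ℝ) ^ 2 := by
  set n : ℝ := (Fintype.card V : ℝ) with hn
  set b : ℝ := (B.card : ℝ) with hb
  have hn0 : 0 ≤ n := Nat.cast_nonneg _
  have hb0 : 0 ≤ b := Nat.cast_nonneg _
  -- first moment
  have h1 : b * ((p - ε) * n) ≤ ∑ u : V, ((nb H B u).card : ℝ) := by
    simp only [card_nb H B]
    rw [Finset.sum_comm]
    simp only [card_nb_univ]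
    calc b * ((p - ε) * n) = ∑ _v ∈ B, (p - ε) * n := by
          rw [Finset.sum_const, nsmul_eq_mul]
      _ ≤ _ := Finset.sum_le_sum fun v _ => hR.deg_lb v
  -- second moment
  have h2 : ∑ u : V, ((nb H B u).card : ℝ) ^ 2 ≤ b * ((p + ε) * n) + b ^ 2 * ((p ^ 2 + ε) * n) := by
    have e1 : ∀ u : V, ((nb H B u).card : ℝ) ^ 2 = ∑ v ∈ B, ∑ w ∈ B,
        (if H.Adj u v then (1 : ℝ) else 0) * (if H.Adj u w then (1 : ℝ) else 0) := by
      intro u
      rw [card_nb, sq, Finset.sum_mul_sum]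
    simp only [e1]
    rw [Finset.sum_comm]
    have e2 : ∀ v ∈ B, ∑ u : V, ∑ w ∈ B,
        (if H.Adj u v then (1 : ℝ) else 0) * (if H.Adj u w then (1 : ℝ) else 0) ≤
        (p + ε) * n + b * ((p ^ 2 + ε) * n) := by
      intro v hv
      rw [Finset.sum_comm]
      simp only [card_codeg]
      rw [← Finset.add_sum_erase B _ hv]
      have e3 : ((nb H (nb H Finset.univ v) v).card : ℝ) ≤ (p + ε) * n := by
        refine le_trans ?_ (hR.deg_ub v)
        exact_mod_cast Finset.card_le_card (Finset.filter_subset _ _)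
      have e4 : ∑ w ∈ B.erase v, ((nb H (nb H Finset.univ v) w).card : ℝ) ≤
          b * ((p ^ 2 + ε) * n) := by
        have hpos : 0 ≤ (p ^ 2 + ε) * n := by positivity
        calc ∑ w ∈ B.erase v, ((nb H (nb H Finset.univ v) w).card : ℝ)
            ≤ ∑ _w ∈ B.erase v, (p ^ 2 + ε) * n :=
              Finset.sum_le_sum fun w hw => hR.codeg v w (Finset.ne_of_mem_erase hw).symm
          _ = ((B.erase v).card : ℝ) * ((p ^ 2 + ε) * n) := by
              rw [Finset.sum_const, nsmul_eq_mul]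
          _ ≤ b * ((p ^ 2 + ε) * n) := by
              refine mul_le_mul_of_nonneg_right ?_ hpos
              rw [hb]
              exact_mod_cast Finset.card_le_card (Finset.erase_subset _ _)
      linarith
    calc _ ≤ ∑ _v ∈ B, ((p + ε) * n + b * ((p ^ 2 + ε) * n)) := Finset.sum_le_sum e2
      _ = b * ((p + ε) * n + b * ((p ^ 2 + ε) * n)) := by
          rw [Finset.sum_const, nsmul_eq_mul]
      _ = _ := by ring
  have h3 : ∑ u : V, (((nb H B u).card : ℝ) - p * b) ^ 2 =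
      ∑ u : V, ((nb H B u).card : ℝ) ^ 2 - 2 * p * b * ∑ u : V, ((nb H B u).card : ℝ) +
        n * (p * b) ^ 2 := by
    rw [Finset.mul_sum, ← Finset.sum_sub_distrib]
    have : n * (p * b) ^ 2 = ∑ _u : V, (p * b) ^ 2 := by
      rw [Finset.sum_const, nsmul_eq_mul, Finset.card_univ]
    rw [this, ← Finset.sum_add_distrib]
    refine Finset.sum_congr rfl fun u _ => ?_
    ring
  rw [h3]
  have h4 : 2 * p * b * (b * ((p - ε) * n)) ≤ 2 * p * b * ∑ u : V, ((nb H B u).card : ℝ) :=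
    mul_le_mul_of_nonneg_left h1 (by positivity)
  have h5 : b * ((p + ε) * n) ≤ b * (2 * n) := by
    refine mul_le_mul_of_nonneg_left ?_ hb0
    nlinarith
  have h6 : 2 * p * ε * (b ^ 2 * n) ≤ 2 * ε * (b ^ 2 * n) := by
    refine mul_le_mul_of_nonneg_right ?_ (by positivity)
    nlinarith
  nlinarith

theorem high_bound (H : SimpleGraph V) {p ε : ℝ} (hp0 : 0 ≤ p) (hp1 : p ≤ 1) (he0 : 0 ≤ ε)
    (he1 : ε ≤ 1) (hR : Reg0 H p ε) {d : ℕ} (hd : (p - ε) * (Fintype.card V : ℝ) ≤ (d : ℝ))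
    (K : Finset V)
    (hr : 4 * ε * (Fintype.card V : ℝ) ≤ p * ((Finset.univ \ K).card : ℝ)) :
    ((K \ Low H d K).card : ℝ) * (p * ((Finset.univ \ K).card : ℝ) / 2) ^ 2 ≤
      2 * ((Finset.univ \ K).card : ℝ) * (Fintype.card V : ℝ) +
        3 * ε * (Fintype.card V : ℝ) * ((Finset.univ \ K).card : ℝ) ^ 2 := by
  refine le_trans ?_ (variance H hp0 hp1 he0 he1 hR (Finset.univ \ K))
  set r : ℝ := ((Finset.univ \ K).card : ℝ) with hrd
  have hr0 : 0 ≤ r := Nat.cast_nonneg _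
  have key : ∀ u ∈ K \ Low H d K,
      (p * r / 2) ^ 2 ≤ (((nb H (Finset.univ \ K) u).card : ℝ) - p * r) ^ 2 := by
    intro u hu
    rw [Finset.mem_sdiff] at hu
    have hu2 : d ≤ (nb H K u).card := by
      by_contra hc
      push Not at hc
      exact hu.2 (Finset.mem_filter.2 ⟨hu.1, hc⟩)
    have hsplit : (nb H K u).card + (nb H (Finset.univ \ K) u).card =
        (nb H Finset.univ u).card := by
      unfold nb
      rw [← Finset.card_union_of_disjoint
        (Finset.disjoint_filter_filter Finset.disjoint_sdiff), ← Finset.filter_union,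
        Finset.union_sdiff_of_subset (Finset.subset_univ K)]
    have hsplit' : ((nb H K u).card : ℝ) + ((nb H (Finset.univ \ K) u).card : ℝ) =
        ((nb H Finset.univ u).card : ℝ) := by exact_mod_cast hsplit
    have hu2' : (d : ℝ) ≤ ((nb H K u).card : ℝ) := by exact_mod_cast hu2
    have h1 := hR.deg_ub u
    have h2 : ((nb H (Finset.univ \ K) u).card : ℝ) ≤ p * r / 2 := by nlinarith
    have h3 : (0 : ℝ) ≤ p * r / 2 := by positivity
    nlinarith
  calc ((K \ Low H d K).card : ℝ) * (p * r / 2) ^ 2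
      = ∑ _u ∈ K \ Low H d K, (p * r / 2) ^ 2 := by rw [Finset.sum_const, nsmul_eq_mul]
    _ ≤ ∑ u ∈ K \ Low H d K, (((nb H (Finset.univ \ K) u).card : ℝ) - p * r) ^ 2 :=
        Finset.sum_le_sum key
    _ ≤ ∑ u : V, (((nb H (Finset.univ \ K) u).card : ℝ) - p * r) ^ 2 :=
        Finset.sum_le_sum_of_subset_of_nonneg (Finset.subset_univ _) fun u _ _ => sq_nonneg _

theorem mix (H : SimpleGraph V) {p ε : ℝ} (hp0 : 0 ≤ p) (hp1 : p ≤ 1) (he0 : 0 ≤ ε)
    (he1 : ε ≤ 1) (hR : Reg0 H p ε) (A B : Finset V) (h : ∀ a ∈ A, ∀ b ∈ B, H.Adj a b) :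
    (A.card : ℝ) * ((1 - p) * (B.card : ℝ)) ^ 2 ≤
      2 * (B.card : ℝ) * (Fintype.card V : ℝ) +
        3 * ε * (Fintype.card V : ℝ) * (B.card : ℝ) ^ 2 := by
  refine le_trans ?_ (variance H hp0 hp1 he0 he1 hR B)
  have key : ∀ u ∈ A, ((1 - p) * (B.card : ℝ)) ^ 2 =
      (((nb H B u).card : ℝ) - p * (B.card : ℝ)) ^ 2 := by
    intro u hu
    have : nb H B u = B := Finset.filter_true_of_mem fun b hb => h u hu b hb
    rw [this]
    ring
  calc (A.card : ℝ) * ((1 - p) * (B.card : ℝ)) ^ 2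
      = ∑ _u ∈ A, ((1 - p) * (B.card : ℝ)) ^ 2 := by rw [Finset.sum_const, nsmul_eq_mul]
    _ = ∑ u ∈ A, (((nb H B u).card : ℝ) - p * (B.card : ℝ)) ^ 2 := Finset.sum_congr rfl key
    _ ≤ ∑ u : V, (((nb H B u).card : ℝ) - p * (B.card : ℝ)) ^ 2 :=
        Finset.sum_le_sum_of_subset_of_nonneg (Finset.subset_univ _) fun u _ _ => sq_nonneg _

theorem high_two (H : SimpleGraph V) {d : ℕ} (K : Finset V) {u v : V} (hu : u ∈ K \ Low H d K)
    (hv : v ∈ K \ Low H d K) :
    2 * d ≤ (nb H (nb H Finset.univ u) v).card + K.card := by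
  have key : ∀ w ∈ K \ Low H d K, d ≤ (nb H K w).card := by
    intro w hw
    rw [Finset.mem_sdiff] at hw
    by_contra hc
    push Not at hc
    exact hw.2 (Finset.mem_filter.2 ⟨hw.1, hc⟩)
  have h1 := key u hu
  have h2 := key v hv
  have h3 := Finset.card_union_add_card_inter (nb H K u) (nb H K v)
  have h4 : (nb H K u ∪ nb H K v).card ≤ K.card :=
    Finset.card_le_card (Finset.union_subset (Finset.filter_subset _ _)
      (Finset.filter_subset _ _))
  have h5 : (nb H K u ∩ nb H K v).card ≤ (nb H (nb H Finset.univ u) v).card := by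
    refine Finset.card_le_card fun x hx => ?_
    simp only [nb, Finset.mem_inter, Finset.mem_filter, Finset.mem_univ, true_and] at hx ⊢
    exact ⟨hx.1.2, hx.2.2⟩
  omega

end Pool.Agent.Lib.MP_a2d8aa_co.AA
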